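import Pool.Agent.Lib.MP_f9507c_lc.Mg.G001
import Pool.Agent.Lib.MP_f9507c_lc.Mg.G004

section

/-! # K2a: torsors under a nonabelian simple group: the orbits agree near `H` -/

set_option autoImplicit false
open scoped Pointwise

namespace Pool.Agent.Lib.ThC

variable {Ω A : Type} [Group A]

theorem K2a_one {H : Subgroup (Equiv.Perm Ω)} {x y : UU Ω} {ρ : A → UU Ω → UU Ω}
    {s : UU Ω → UU Ω} {D : Equiv.Perm Ω → UU Ω → A} (hD : Coc A H x y ρ s D)
    {x' : UU Ω} (hx' : x' ∈ orb H x) : D 1 x' = 1 := by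
  have h1 := coc_mul hD H.one_mem H.one_mem hx'
  rw [mul_one, one_smul] at h1
  exact left_eq_mul.1 h1

theorem K2a_mem {H : Subgroup (Equiv.Perm Ω)} {x x' : UU Ω} (hx' : x' ∈ orb H x)
    {h : Equiv.Perm Ω} (hh : h ∈ H) : h • x' ∈ orb H x := by
  obtain ⟨l, hl, rfl⟩ := hx'
  exact ⟨h * l, H.mul_mem hh hl, by rw [mul_smul]⟩

theorem K2a_fix {H : Subgroup (Equiv.Perm Ω)} {S : Set (UU Ω)} {k : Equiv.Perm Ω}
    (hk : k ∈ KK H S) {z : UU Ω} (hz : z ∈ S) : k • z = z :=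
  (mem_fixingSubgroup_iff _).1 hk.2 z hz

theorem K2a_conj {H : Subgroup (Equiv.Perm Ω)} {S : Set (UU Ω)}
    (hS : ∀ h ∈ H, ∀ s ∈ S, h • s ∈ S) {k g : Equiv.Perm Ω} (hk : k ∈ KK H S) (hg : g ∈ H) :
    g * k * g⁻¹ ∈ KK H S := by
  refine ⟨H.mul_mem (H.mul_mem hg hk.1) (H.inv_mem hg), (mem_fixingSubgroup_iff _).2
    fun z hz => ?_⟩
  rw [mul_smul, mul_smul, K2a_fix hk (hS _ (H.inv_mem hg) z hz), smul_inv_smul]

/-- the cocycle values of `KK H S` at a finite set of points form a subgroup. -/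
theorem im_exists {H : Subgroup (Equiv.Perm Ω)} {x y : UU Ω} {ρ : A → UU Ω → UU Ω}
    {s : UU Ω → UU Ω} {D : Equiv.Perm Ω → UU Ω → A} (hD : Coc A H x y ρ s D)
    {S : Set (UU Ω)} (hX : orb H x ⊆ S) (X₁ : Finset (UU Ω))
    (hX₁ : (X₁ : Set (UU Ω)) ⊆ orb H x) :
    ∃ M : Subgroup (↥X₁ → A), ∀ v : ↥X₁ → A, v ∈ M ↔ ∃ k ∈ KK H S, ∀ x' : ↥X₁, D k x' = v x' := by
  have hfix : ∀ k ∈ KK H S, ∀ x' : ↥X₁, k • (x' : UU Ω) = x' := fun k hk x' =>
    K2a_fix hk (hX (hX₁ x'.2))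
  refine ⟨{ carrier := {v | ∃ k ∈ KK H S, ∀ x' : ↥X₁, D k x' = v x'}
            mul_mem' := ?_
            one_mem' := ?_
            inv_mem' := ?_ }, fun v => Iff.rfl⟩
  · rintro v w ⟨k, hk, h1⟩ ⟨l, hl, h2⟩
    refine ⟨k * l, (KK H S).mul_mem hk hl, fun x' => ?_⟩
    rw [coc_mul hD hk.1 hl.1 (hX₁ x'.2), hfix l hl x', h1, h2]
    rfl
  · exact ⟨1, (KK H S).one_mem, fun x' => K2a_one hD (hX₁ x'.2)⟩
  · rintro v ⟨k, hk, h1⟩
    refine ⟨k⁻¹, (KK H S).inv_mem hk, fun x' => ?_⟩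
    have h2 := coc_inv hD hk.1 (hX₁ x'.2)
    rw [hfix k hk x', h1] at h2
    exact h2

/-- elements of `H` fixing `x'` take all cocycle values at `x'` (`tors_fib`). -/
theorem coc_onto {H : Subgroup (Equiv.Perm Ω)} {x y : UU Ω} {ρ : A → UU Ω → UU Ω}
    {s : UU Ω → UU Ω} {D : Equiv.Perm Ω → UU Ω → A} (hD : Coc A H x y ρ s D)
    {x' : UU Ω} (hx' : x' ∈ orb H x) (a : A) : ∃ h ∈ H, h • x' = x' ∧ D h x' = a := by
  have h1 := hD.sec x' hx'
  obtain ⟨g, hg, hg1⟩ := (tors_fib hD.tors h1 (ρ a (s x'))).2 ⟨a, rfl⟩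
  obtain ⟨l, hl, hl1⟩ := h1
  have e1 : g • x = x' := congrArg Prod.fst hg1
  have e2 : g • y = ρ a (s x') := congrArg Prod.snd hg1
  have e3 : l • x = x' := congrArg Prod.fst hl1
  have e4 : l • y = s x' := congrArg Prod.snd hl1
  have e5 : (g * l⁻¹) • x' = x' := by
    rw [mul_smul, ← e3, inv_smul_smul, e1, ← e3]
  have e6 : (g * l⁻¹) • s x' = ρ a (s x') := by
    rw [mul_smul, ← e4, inv_smul_smul, e2, ← e4]
  refine ⟨g * l⁻¹, H.mul_mem hg (H.inv_mem hl), e5, ?_⟩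
  have h2 := hD.spec (g * l⁻¹) (H.mul_mem hg (H.inv_mem hl)) x' hx'
  rw [e5, e6] at h2
  exact (hD.tors.free _ _ _ ⟨l, hl, e4⟩ h2).symm

/-- `KK H S` acts trivially on all fibres or induces everything on each fibre. (The image of
`KK H S` in `A` at `x'` is normal by `coc_onto`, `coc_conj`; move `x'` by `H`.) -/
theorem coc_dich [IsSimpleGroup A] {H : Subgroup (Equiv.Perm Ω)} {x y : UU Ω}
    {ρ : A → UU Ω → UU Ω} {s : UU Ω → UU Ω} {D : Equiv.Perm Ω → UU Ω → A}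
    (hD : Coc A H x y ρ s D) {S : Set (UU Ω)} (hX : orb H x ⊆ S)
    (hS : ∀ h ∈ H, ∀ s ∈ S, h • s ∈ S) :
    (∀ k ∈ KK H S, ∀ x' ∈ orb H x, D k x' = 1) ∨
      ∀ x' ∈ orb H x, ∀ a : A, ∃ k ∈ KK H S, D k x' = a := by
  have hxx : x ∈ orb H x := mem_orb_self H x
  let N : Subgroup A :=
    { carrier := {a | ∃ k ∈ KK H S, D k x = a}
      mul_mem' := by
        rintro a b ⟨k, hk, h1⟩ ⟨l, hl, h2⟩
        refine ⟨k * l, (KK H S).mul_mem hk hl, ?_⟩
        rw [coc_mul hD hk.1 hl.1 hxx, K2a_fix hl (hX hxx), h1, h2]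
      one_mem' := ⟨1, (KK H S).one_mem, K2a_one hD hxx⟩
      inv_mem' := by
        rintro a ⟨k, hk, h1⟩
        refine ⟨k⁻¹, (KK H S).inv_mem hk, ?_⟩
        have h2 := coc_inv hD hk.1 hxx
        rw [K2a_fix hk (hX hxx), h1] at h2
        exact h2 }
  have hN : N.Normal := by
    refine ⟨fun a ha c => ?_⟩
    obtain ⟨k, hk, h1⟩ := ha
    obtain ⟨g, hg, hgx, hgc⟩ := coc_onto hD hxx c
    refine ⟨g * k * g⁻¹, K2a_conj hS hk hg, ?_⟩
    have h2 := coc_conj hD hg hk.1 hxx (K2a_fix hk (hX hxx))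
    rw [hgx, hgc, h1] at h2
    exact h2
  rcases hN.eq_bot_or_eq_top with h | h
  · left
    intro k hk x' hx'
    obtain ⟨g, hg, rfl⟩ := hx'
    have h1 : g⁻¹ * k * g ∈ KK H S := by
      have h2 := K2a_conj hS hk (H.inv_mem hg)
      rwa [inv_inv] at h2
    have h2 : D (g⁻¹ * k * g) x ∈ N := ⟨_, h1, rfl⟩
    rw [h, Subgroup.mem_bot] at h2
    have h3 := coc_conj hD hg h1.1 hxx (K2a_fix h1 (hX hxx))
    have h4 : g * (g⁻¹ * k * g) * g⁻¹ = k := by group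
    rw [h4, h2, mul_one, mul_inv_cancel] at h3
    exact h3
  · right
    intro x' hx' a
    obtain ⟨g, hg, rfl⟩ := hx'
    have h1 : (D g x)⁻¹ * a * D g x ∈ N := by rw [h]; exact Subgroup.mem_top _
    obtain ⟨k, hk, hk1⟩ := h1
    refine ⟨g * k * g⁻¹, K2a_conj hS hk hg, ?_⟩
    rw [coc_conj hD hg hk.1 hxx (K2a_fix hk (hX hxx)), hk1]
    group

end Pool.Agent.Lib.ThC

end

section

/-! # K2b: torsors under a nonabelian simple group: the orbits agree near `H` -/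

set_option autoImplicit false
open scoped Pointwise

namespace Pool.Agent.Lib.ThC

variable {Ω A : Type} [Group A]

/-- if `KK H S` acts trivially on the fibre over `x` then it fixes `y`, and conversely. -/
theorem K2b_fix {H : Subgroup (Equiv.Perm Ω)} {x y : UU Ω} {ρ : A → UU Ω → UU Ω}
    {s : UU Ω → UU Ω} {D : Equiv.Perm Ω → UU Ω → A} (hD : Coc A H x y ρ s D)
    {k : Equiv.Perm Ω} (hk : k ∈ H) (hkx : k • x = x) : k • y = y ↔ D k x = 1 := by
  have hxx : x ∈ orb H x := mem_orb_self H x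
  have hsx : s x ∈ orb H y := by
    obtain ⟨l, hl, hl1⟩ := hD.sec x hxx
    exact ⟨l, hl, congrArg Prod.snd hl1⟩
  obtain ⟨b, hb⟩ := (tors_fib hD.tors (hD.sec x hxx) y).1 (mem_orb_self H (x, y))
  have h1 := coc_act hD hk hxx b
  rw [← hb, hkx] at h1
  rw [h1]
  constructor
  · intro h2
    rw [hb] at h2
    exact mul_eq_right.1 (hD.tors.free _ _ _ hsx h2)
  · intro h2
    rw [h2, one_mul, ← hb]

/-- Near `H` the same alternative holds.  If the first alternative held for `H'`, then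
`KK H' S ≤ st y`; `U' = {h' ∈ H' | h' fixes x and y}` has index `|A|` in `fx {x}`, so by `good_gfinB`
(for `({x}, |A|)`) `fx B' ≤ U'` for `H'`; the orbits of `(B', y)` agree near `H`, so every `h ∈ H`
fixing `B'` fixes `y`, in particular `KK H S ≤ st y`, contradicting `hon` at `x` (`A` is
nontrivial). -/
theorem near_onto [Countable Ω] [Finite A] [IsSimpleGroup A] {G H : Subgroup (Equiv.Perm Ω)}
    (hN : Nice Ω ↥G) (hGH : G ≤ H) (hC : Cpl Ω ↥H) {x y : UU Ω} {ρ : A → UU Ω → UU Ω}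
    {s : UU Ω → UU Ω} {D : Equiv.Perm Ω → UU Ω → A} (hD : Coc A H x y ρ s D)
    (hDn : Near G H (fun H' => Coc A H' x y ρ s D ∧
      orb H x = orb H' x ∧ orb H y = orb H' y ∧ orb H (x, y) = orb H' (x, y)))
    {S : Set (UU Ω)} (hS : Good G H S) (hX : orb H x ⊆ S)
    (hon : ∀ x' ∈ orb H x, ∀ a : A, ∃ k ∈ KK H S, D k x' = a) :
    Near G H (fun H' => ∀ x' ∈ orb H' x, ∀ a : A, ∃ k ∈ KK H' S, D k x' = a) := by
  classical
  have hxx : x ∈ orb H x := mem_orb_self H x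
  have hxS : (({x} : Finset (UU Ω)) : Set (UU Ω)) ⊆ S := by
    intro z hz
    rw [Finset.coe_singleton, Set.mem_singleton_iff] at hz
    rw [hz]
    exact hX hxx
  obtain ⟨B', hB', hBB', -, hG⟩ := good_gfinB hN hGH hC hS {x} hxS (Nat.card A)
  -- the tuple `(B', y)`
  let F : Finset (UU Ω) := B' ∪ {y}
  let T : Fin F.card → UU Ω := fun i => (F.equivFin.symm i : UU Ω)
  have hT : ∀ z ∈ F, ∃ i, T i = z := fun z hz => ⟨F.equivFin ⟨z, hz⟩, by simp [T]⟩
  have hopT : ∀ i, Op Ω (st ↥H (T i)) := by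
    intro i
    have hz : T i ∈ F := (F.equivFin.symm i).2
    rcases Finset.mem_union.1 hz with hz | hz
    · exact hS.fin.sm _ (hB' hz)
    · rw [Finset.mem_singleton.1 hz]
      exact hD.tors.op
  refine near_mono (near_and (near_and (near_and hG hDn) (near_orb G H T hopT)) hS.near) ?_
  rintro H' hGH' _ ⟨⟨⟨h1, hD', h2, h3, h4⟩, h5⟩, h6, -⟩
  have hxx' : x ∈ orb H' x := mem_orb_self H' x
  rcases coc_dich hD' (S := S) (h2 ▸ hX) (fun h hh s hs => h6.inv ⟨h, hh⟩ s hs) with h7 | h7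
  · exfalso
    -- `fx B'` fixes `y` in `H'`
    have h8 : fx ↥H' B' ≤ st ↥H' y := by
      have hsub : fixingSubgroup ↥H' S ≤ st ↥H' y := by
        intro g hg
        have hg' : (g : Equiv.Perm Ω) ∈ KK H' S := ⟨g.2, (mem_fixingSubgroup_iff _).2
          fun z hz => (mem_fixingSubgroup_iff _).1 hg z hz⟩
        have h9 : (g : Equiv.Perm Ω) • y = y :=
          (K2b_fix hD' g.2 (K2a_fix hg' (hX hxx))).2 (h7 _ hg' x hxx')
        exact h9
      have hle : st ↥H' y ≤ fx ↥H' {x} := by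
        intro g hg
        refine (mem_fixingSubgroup_iff _).2 fun z hz => ?_
        rw [Finset.coe_singleton, Set.mem_singleton_iff] at hz
        rw [hz]
        exact hD'.tors.le hg
      have horb : MulAction.orbit ↥(fx ↥H' {x}) y ⊆ Set.range (fun a : A => ρ a y) := by
        rintro _ ⟨g, rfl⟩
        have hgx : ((g : ↥H') : Equiv.Perm Ω) • x = x :=
          (mem_fixingSubgroup_iff _).1 g.2 x (by simp)
        have h9 : (x, ((g : ↥H') : Equiv.Perm Ω) • y) ∈ orb H' (x, y) := by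
          refine ⟨(g : ↥H'), (g : ↥H').2, ?_⟩
          rw [Prod.smul_mk, hgx]
        obtain ⟨a, ha⟩ := (hD'.tors.fib _).1 h9
        exact ⟨a, ha.symm⟩
      have hidx : (st ↥H' y).relIndex (fx ↥H' {x}) =
          (MulAction.orbit ↥(fx ↥H' {x}) y).ncard := by
        rw [← MulAction.index_stabilizer]
        rfl
      have hfin : (MulAction.orbit ↥(fx ↥H' {x}) y).Finite :=
        (Set.finite_range _).subset horb
      refine h1 _ hD'.tors.op hsub hle ?_ ?_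
      · rw [hidx]
        exact ((Set.ncard_pos hfin).2 ⟨y, MulAction.mem_orbit_self y⟩).ne'
      · rw [hidx]
        refine (Set.ncard_le_ncard horb (Set.finite_range _)).trans ?_
        rw [← Set.image_univ]
        refine (Set.ncard_image_le Set.finite_univ).trans ?_
        rw [Set.ncard_univ]
    obtain ⟨a, ha⟩ : ∃ a : A, a ≠ 1 := exists_ne 1
    obtain ⟨k, hk, hka⟩ := hon x hxx a
    refine ha ?_
    rw [← hka]
    refine (K2b_fix hD hk.1 (K2a_fix hk (hX hxx))).1 ?_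
    have h9 : k • T ∈ orb H' T := by rw [← h5]; exact smul_mem_orb hk.1 T
    obtain ⟨k', hk', hkk⟩ := h9
    have h10 : ∀ z ∈ F, k' • z = k • z := by
      intro z hz
      obtain ⟨i, rfl⟩ := hT z hz
      exact congrFun hkk i
    have h11 : (⟨k', hk'⟩ : ↥H') ∈ fx ↥H' B' := (mem_fixingSubgroup_iff _).2 fun z hz => by
      have h12 : k' • z = k • z := h10 z (Finset.mem_union_left _ hz)
      rw [K2a_fix hk (hB' hz)] at h12
      exact h12
    have h12 : k' • y = y := h8 h11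
    rw [← h10 y (Finset.mem_union_right _ (Finset.mem_singleton_self y))]
    exact h12
  · exact h7

end Pool.Agent.Lib.ThC

end

section

/-! # K2c: torsors under a nonabelian simple group: the orbits agree near `H` -/

set_option autoImplicit false
open scoped Pointwise

namespace Pool.Agent.Lib.ThC

variable {Ω A : Type} [Group A]

theorem K2c_opinv (H : Subgroup (Equiv.Perm Ω)) :
    SInv Ω ↥H {z : UU Ω | Op Ω (st ↥H z)} where
  inv := fun g z hz => by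
    have h1 : Op Ω (st ↥H (g • z)) := by
      rw [st_smul]
      exact op_cj g hz
    exact h1
  sm := fun _ hz => hz

theorem K2c_opsmul {H : Subgroup (Equiv.Perm Ω)} {z : UU Ω} (hz : Op Ω (st ↥H z))
    {z' : UU Ω} (h : z' ∈ orb H z) : Op Ω (st ↥H z') := by
  obtain ⟨g, hg, rfl⟩ := h
  exact (K2c_opinv H).inv ⟨g, hg⟩ z hz

theorem K2c_sy {H : Subgroup (Equiv.Perm Ω)} {x y : UU Ω}
    {ρ : A → UU Ω → UU Ω} {s : UU Ω → UU Ω} {D : Equiv.Perm Ω → UU Ω → A}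
    (hD : Coc A H x y ρ s D) {x' : UU Ω} (hx' : x' ∈ orb H x) : s x' ∈ orb H y := by
  obtain ⟨g, hg, hg1⟩ := hD.sec x' hx'
  exact ⟨g, hg, congrArg Prod.snd hg1⟩

/-- the values at a pair of points of `KK H S` and of the stabiliser of `B'` agree. -/
theorem K2c_same [Finite A] {H : Subgroup (Equiv.Perm Ω)} {x y : UU Ω} {ρ : A → UU Ω → UU Ω}
    {s : UU Ω → UU Ω} {D : Equiv.Perm Ω → UU Ω → A} (hD : Coc A H x y ρ s D)
    {S : Set (UU Ω)} {x' x'' : UU Ω} (hx' : x' ∈ orb H x) (hx'' : x'' ∈ orb H x)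
    (hS' : x' ∈ S) (hS'' : x'' ∈ S) {P B' : Finset (UU Ω)}
    (hP : ∀ z, z ∈ P ↔ z = x' ∨ z = x'') (hB' : (B' : Set (UU Ω)) ⊆ S)
    (hG : GfinB Ω ↥H S P (Nat.card (A × A)) B') {h : Equiv.Perm Ω} (hh : h ∈ H)
    (hb : ∀ b ∈ B', h • b = b) :
    ∃ k ∈ KK H S, D k x' = D h x' ∧ D k x'' = D h x'' := by
  classical
  have hfx : ∀ g : ↥H, g ∈ fx ↥H P → (g : Equiv.Perm Ω) • x' = x' ∧
      (g : Equiv.Perm Ω) • x'' = x'' := fun g hg =>
    ⟨(mem_fixingSubgroup_iff _).1 hg x' (Finset.mem_coe.2 ((hP _).2 (Or.inl rfl))),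
      (mem_fixingSubgroup_iff _).1 hg x'' (Finset.mem_coe.2 ((hP _).2 (Or.inr rfl)))⟩
  let f : ↥(fx ↥H P) →* A × A :=
    { toFun := fun g => (D ((g : ↥H) : Equiv.Perm Ω) x', D ((g : ↥H) : Equiv.Perm Ω) x'')
      map_one' := by
        change (D 1 x', D 1 x'') = 1
        rw [K2a_one hD hx', K2a_one hD hx'']
        rfl
      map_mul' := fun a b => by
        change (D (((a : ↥H) : Equiv.Perm Ω) * ((b : ↥H) : Equiv.Perm Ω)) x',
          D (((a : ↥H) : Equiv.Perm Ω) * ((b : ↥H) : Equiv.Perm Ω)) x'') = _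
        rw [coc_mul hD (a : ↥H).2 (b : ↥H).2 hx', coc_mul hD (a : ↥H).2 (b : ↥H).2 hx'',
          (hfx b b.2).1, (hfx b b.2).2]
        rfl }
  let M : Subgroup (A × A) :=
    { carrier := {v | ∃ k ∈ KK H S, D k x' = v.1 ∧ D k x'' = v.2}
      mul_mem' := by
        rintro v w ⟨k, hk, h1, h2⟩ ⟨l, hl, h3, h4⟩
        refine ⟨k * l, (KK H S).mul_mem hk hl, ?_, ?_⟩
        · rw [coc_mul hD hk.1 hl.1 hx', K2a_fix hl hS', h1, h3]
          rfl
        · rw [coc_mul hD hk.1 hl.1 hx'', K2a_fix hl hS'', h2, h4]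
          rfl
      one_mem' := ⟨1, (KK H S).one_mem, K2a_one hD hx', K2a_one hD hx''⟩
      inv_mem' := by
        rintro v ⟨k, hk, h1, h2⟩
        refine ⟨k⁻¹, (KK H S).inv_mem hk, ?_, ?_⟩
        · have h3 := coc_inv hD hk.1 hx'
          rw [K2a_fix hk hS', h1] at h3
          exact h3
        · have h3 := coc_inv hD hk.1 hx''
          rw [K2a_fix hk hS'', h2] at h3
          exact h3 }
  let U : Subgroup ↥H := (M.comap f).map (fx ↥H P).subtype
  have hU : ∀ g : ↥H, g ∈ U ↔ g ∈ fx ↥H P ∧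
      ∃ k ∈ KK H S, D k x' = D g x' ∧ D k x'' = D g x'' := by
    intro g
    rw [Subgroup.mem_map]
    constructor
    · rintro ⟨k, hk, rfl⟩
      exact ⟨k.2, hk⟩
    · rintro ⟨h1, h2⟩
      exact ⟨⟨g, h1⟩, h2, rfl⟩
  have hop : Op Ω U := by
    have hopx : Op Ω (st ↥H x) := op_mono hD.tors.op hD.tors.le
    have hF : (({x', x'', s x', s x''} : Finset (UU Ω)) : Set (UU Ω)) ⊆
        {z : UU Ω | Op Ω (st ↥H z)} := by
      intro z hz
      rw [Finset.mem_coe] at hz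
      simp only [Finset.mem_insert, Finset.mem_singleton] at hz
      rcases hz with rfl | rfl | rfl | rfl
      · exact K2c_opsmul hopx hx'
      · exact K2c_opsmul hopx hx''
      · exact K2c_opsmul hD.tors.op (K2c_sy hD hx')
      · exact K2c_opsmul hD.tors.op (K2c_sy hD hx'')
    refine op_mono (op_fx (K2c_opinv H) hF) fun g hg => ?_
    have hg' := (mem_fixingSubgroup_iff _).1 hg
    have g1 : (g : Equiv.Perm Ω) • x' = x' := hg' x' (by simp)
    have g2 : (g : Equiv.Perm Ω) • x'' = x'' := hg' x'' (by simp)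
    have g3 : (g : Equiv.Perm Ω) • s x' = s x' := hg' (s x') (by simp)
    have g4 : (g : Equiv.Perm Ω) • s x'' = s x'' := hg' (s x'') (by simp)
    have key : ∀ z ∈ orb H x, (g : Equiv.Perm Ω) • z = z → (g : Equiv.Perm Ω) • s z = s z →
        D g z = 1 := by
      intro z hz e1 e2
      have e3 := hD.spec g g.2 z hz
      rw [e1, e2] at e3
      have e4 := hD.tors.one _ (K2c_sy hD hz)
      exact (hD.tors.free _ _ _ (K2c_sy hD hz) (e4.trans e3)).symm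
    rw [hU]
    refine ⟨(mem_fixingSubgroup_iff _).2 fun z hz => ?_, 1, (KK H S).one_mem, ?_, ?_⟩
    · rcases (hP z).1 (Finset.mem_coe.1 hz) with rfl | rfl
      · exact g1
      · exact g2
    · rw [K2a_one hD hx', key x' hx' g1 g3]
    · rw [K2a_one hD hx'', key x'' hx'' g2 g4]
  have hsub : fixingSubgroup ↥H S ≤ U := by
    intro g hg
    have hg' := (mem_fixingSubgroup_iff _).1 hg
    rw [hU]
    refine ⟨(mem_fixingSubgroup_iff _).2 fun z hz => ?_, g,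
      ⟨g.2, (mem_fixingSubgroup_iff _).2 fun z hz => hg' z hz⟩, rfl, rfl⟩
    rcases (hP z).1 (Finset.mem_coe.1 hz) with rfl | rfl
    · exact hg' z hS'
    · exact hg' z hS''
  have hidx : U.relIndex (fx ↥H P) = (M.comap f).index := by
    rw [Subgroup.relIndex]
    congr 1
    ext g
    rw [Subgroup.mem_subgroupOf, hU]
    exact ⟨fun h => h.2, fun h' => ⟨g.2, h'⟩⟩
  have hker : f.ker.index ≠ 0 ∧ f.ker.index ≤ Nat.card (A × A) := by
    rw [Subgroup.index_ker]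
    exact ⟨Nat.card_pos.ne', Subgroup.card_le_card_group _⟩
  have hdvd : (M.comap f).index ∣ f.ker.index :=
    Subgroup.index_dvd_of_le fun g hg => by
      rw [Subgroup.mem_comap, (MonoidHom.mem_ker).1 hg]
      exact M.one_mem
  have hne : (M.comap f).index ≠ 0 := fun h0 => by
    rw [h0, zero_dvd_iff] at hdvd
    exact hker.1 hdvd
  have h1 : fx ↥H B' ≤ U := hG U hop hsub (fun g hg => ((hU g).1 hg).1)
    (by rw [hidx]; exact hne)
    (by rw [hidx]; exact (Nat.le_of_dvd (Nat.pos_of_ne_zero hker.1) hdvd).trans hker.2)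
  have h2 : (⟨h, hh⟩ : ↥H) ∈ fx ↥H B' := (mem_fixingSubgroup_iff _).2 fun z hz => hb z hz
  exact ((hU _).1 (h1 h2)).2

/-- The pair images agree, for one pair.  Let `B'` be from `good_gfinB` for `({x', x''}, |A|^2)`.
`{h ∈ fx {x', x''} | ∃ k ∈ KK H S, D h = D k at x', x''}` is a subgroup (the product of the stabiliser
of `s x', s x''` with the normal subgroup `KK H S`), open, of index `≤ |A|^2`, so it contains `fx B'`: the values
at `(x', x'')` of `fx B'` and of `KK H S` are the same.  Same for `H'`.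
The orbits of the tuple `(B', s x', s x'')` agree near `H`, so the values of the stabilisers of `B'` in `H`
and `H'` agree. -/
theorem near_pair_one [Countable Ω] [Finite A] {G H : Subgroup (Equiv.Perm Ω)}
    (hN : Nice Ω ↥G) (hGH : G ≤ H) (hC : Cpl Ω ↥H) {x y : UU Ω} {ρ : A → UU Ω → UU Ω}
    {s : UU Ω → UU Ω} {D : Equiv.Perm Ω → UU Ω → A} (hD : Coc A H x y ρ s D)
    (hDn : Near G H (fun H' => Coc A H' x y ρ s D ∧
      orb H x = orb H' x ∧ orb H y = orb H' y ∧ orb H (x, y) = orb H' (x, y)))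
    {S : Set (UU Ω)} (hS : Good G H S) (hX : orb H x ⊆ S) {x' x'' : UU Ω}
    (hx' : x' ∈ orb H x) (hx'' : x'' ∈ orb H x) :
    Near G H (fun H' => ∀ a b : A, (∃ k ∈ KK H S, D k x' = a ∧ D k x'' = b) ↔
      ∃ k ∈ KK H' S, D k x' = a ∧ D k x'' = b) := by
  classical
  have hPS : (({x', x''} : Finset (UU Ω)) : Set (UU Ω)) ⊆ S := by
    intro z hz
    rw [Finset.mem_coe] at hz
    simp only [Finset.mem_insert, Finset.mem_singleton] at hz
    rcases hz with rfl | rfl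
    · exact hX hx'
    · exact hX hx''
  have hP : ∀ z, z ∈ ({x', x''} : Finset (UU Ω)) ↔ z = x' ∨ z = x'' := fun z => by
    simp only [Finset.mem_insert, Finset.mem_singleton]
  obtain ⟨B', hB', hBB', hG0, hG⟩ := good_gfinB hN hGH hC hS {x', x''} hPS (Nat.card (A × A))
  -- the tuple `(B', s x', s x'')`
  let F : Finset (UU Ω) := B' ∪ {s x', s x''}
  let T : Fin F.card → UU Ω := fun i => (F.equivFin.symm i : UU Ω)
  have hT : ∀ z ∈ F, ∃ i, T i = z := fun z hz => ⟨F.equivFin ⟨z, hz⟩, by simp [T]⟩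
  have hopT : ∀ i, Op Ω (st ↥H (T i)) := by
    intro i
    have hz : T i ∈ F := (F.equivFin.symm i).2
    rcases Finset.mem_union.1 hz with hz | hz
    · exact hS.fin.sm _ (hB' hz)
    · simp only [Finset.mem_insert, Finset.mem_singleton] at hz
      rcases hz with hz | hz
      · rw [hz]
        exact K2c_opsmul hD.tors.op (K2c_sy hD hx')
      · rw [hz]
        exact K2c_opsmul hD.tors.op (K2c_sy hD hx'')
  refine near_mono (near_and (near_and hG hDn) (near_orb G H T hopT)) ?_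
  rintro H' hGH' _ ⟨⟨h1, hD', h2, h3, h4⟩, h5⟩
  have hcmp : ∀ h ∈ H, ∀ h' ∈ H', h • T = h' • T →
      (∀ b ∈ B', h • b = h' • b) ∧ D h x' = D h' x' ∧ D h x'' = D h' x'' := by
    intro h hh h' hh' hT1
    have hz : ∀ z ∈ F, h • z = h' • z := by
      intro z hz
      obtain ⟨i, rfl⟩ := hT z hz
      exact congrFun hT1 i
    have key : ∀ z ∈ orb H x, h • s z = h' • s z → D h z = D h' z := by
      intro z hz e1
      have e2 := hD.tors.one _ (K2c_sy hD hz)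
      rw [← e2] at e1
      exact ((coc_eq_iff hD hD' h4 hh hh' hz 1).1 e1).2
    refine ⟨fun b hb => hz b (Finset.mem_union_left _ hb), key x' hx' (hz _ ?_),
      key x'' hx'' (hz _ ?_)⟩
    · exact Finset.mem_union_right _ (by simp)
    · exact Finset.mem_union_right _ (by simp)
  intro a b
  constructor
  · rintro ⟨k, hk, rfl, rfl⟩
    have h6 : k • T ∈ orb H' T := by rw [← h5]; exact smul_mem_orb hk.1 T
    obtain ⟨h', hh', hh1⟩ := h6
    obtain ⟨h7, h8, h9⟩ := hcmp k hk.1 h' hh' hh1.symm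
    rw [h8, h9]
    exact K2c_same hD' (h2 ▸ hx') (h2 ▸ hx'') (hX hx') (hX hx'') hP hB' h1 hh'
      fun b hb => (h7 b hb).symm.trans (K2a_fix hk (hB' hb))
  · rintro ⟨k, hk, rfl, rfl⟩
    have h6 : k • T ∈ orb H T := by rw [h5]; exact smul_mem_orb hk.1 T
    obtain ⟨h, hh, hh1⟩ := h6
    obtain ⟨h7, h8, h9⟩ := hcmp h hh k hk.1 hh1
    rw [← h8, ← h9]
    exact K2c_same hD hx' hx'' (hX hx') (hX hx'') hP hB' hG0 hh
      fun b hb => (h7 b hb).trans (K2a_fix hk (hB' hb))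

end Pool.Agent.Lib.ThC

end

section

/-! # K2d: torsors under a nonabelian simple group: the orbits agree near `H` -/

set_option autoImplicit false
open scoped Pointwise

namespace Pool.Agent.Lib.ThC

variable {Ω A : Type} [Group A]

/-- conjugating the image of `KK H S` at a pair of points. -/
theorem K2d_conj {H : Subgroup (Equiv.Perm Ω)} {x y : UU Ω} {ρ : A → UU Ω → UU Ω}
    {s : UU Ω → UU Ω} {D : Equiv.Perm Ω → UU Ω → A} (hD : Coc A H x y ρ s D)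
    {S : Set (UU Ω)} (hX : orb H x ⊆ S) (hS : ∀ h ∈ H, ∀ s ∈ S, h • s ∈ S)
    {x' x'' : UU Ω} (hx' : x' ∈ orb H x) (hx'' : x'' ∈ orb H x) {h : Equiv.Perm Ω}
    (hh : h ∈ H) (a b : A) :
    (∃ k ∈ KK H S, D k (h • x') = a ∧ D k (h • x'') = b) ↔
      ∃ k ∈ KK H S, D k x' = (D h x')⁻¹ * a * D h x' ∧
        D k x'' = (D h x'')⁻¹ * b * D h x'' := by
  constructor
  · rintro ⟨k, hk, h1, h2⟩
    have h3 : h⁻¹ * k * h ∈ KK H S := by
      have h4 := K2a_conj hS hk (H.inv_mem hh)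
      rwa [inv_inv] at h4
    have h4 : h * (h⁻¹ * k * h) * h⁻¹ = k := by group
    refine ⟨_, h3, ?_, ?_⟩
    · have h5 := coc_conj hD hh h3.1 hx' (K2a_fix h3 (hX hx'))
      rw [h4, h1] at h5
      rw [h5]
      group
    · have h5 := coc_conj hD hh h3.1 hx'' (K2a_fix h3 (hX hx''))
      rw [h4, h2] at h5
      rw [h5]
      group
  · rintro ⟨k, hk, h1, h2⟩
    refine ⟨h * k * h⁻¹, K2a_conj hS hk hh, ?_, ?_⟩
    · rw [coc_conj hD hh hk.1 hx' (K2a_fix hk (hX hx')), h1]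
      group
    · rw [coc_conj hD hh hk.1 hx'' (K2a_fix hk (hX hx'')), h2]
      group

/-- All pairs.  There are finitely many `H`-orbits of pairs in `X = orb H x`; for a representative
`(x', x'')` apply `near_pair_one`.  For `(h x', h x'')` choose `h' ∈ H'` with the same action on
`x', x'', s x', s x''` (`near_orb` for this tuple), so `D h' = D h` at `x'` and `x''`, and the
images at `(h x', h x'')` are the conjugates by the same pair (`coc_conj`). -/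
theorem near_pairs [Countable Ω] [Finite A] {G H : Subgroup (Equiv.Perm Ω)}
    (hN : Nice Ω ↥G) (hGH : G ≤ H) (hC : Cpl Ω ↥H) {x y : UU Ω} {ρ : A → UU Ω → UU Ω}
    {s : UU Ω → UU Ω} {D : Equiv.Perm Ω → UU Ω → A} (hD : Coc A H x y ρ s D)
    (hDn : Near G H (fun H' => Coc A H' x y ρ s D ∧
      orb H x = orb H' x ∧ orb H y = orb H' y ∧ orb H (x, y) = orb H' (x, y)))
    {S : Set (UU Ω)} (hS : Good G H S) (hX : orb H x ⊆ S) :
    Near G H (fun H' => ∀ x' ∈ orb H x, ∀ x'' ∈ orb H x, ∀ a b : A,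
      (∃ k ∈ KK H S, D k x' = a ∧ D k x'' = b) ↔
      ∃ k ∈ KK H' S, D k x' = a ∧ D k x'' = b) := by
  classical
  have hNH : Nice Ω ↥H := nice_mono hN hGH
  have hopx : Op Ω (st ↥H x) := op_mono hD.tors.op hD.tors.le
  obtain ⟨F, hF⟩ := (srt_prod hNH (srt_orbit hopx) (srt_orbit hopx)).fo
  have hmem : ∀ z : MulAction.orbit ↥H x, (z : UU Ω) ∈ orb H x := fun z => by
    rw [← orbit_eq_orb]
    exact z.2
  -- the tuple of four elements
  let T : (MulAction.orbit ↥H x × MulAction.orbit ↥H x) → Fin 4 → UU Ω := fun q =>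
    ![q.1, q.2, s q.1, s q.2]
  have hopT : ∀ q, ∀ i, Op Ω (st ↥H (T q i)) := by
    intro q i
    fin_cases i
    · exact K2c_opsmul hopx (hmem q.1)
    · exact K2c_opsmul hopx (hmem q.2)
    · exact K2c_opsmul hD.tors.op (K2c_sy hD (hmem q.1))
    · exact K2c_opsmul hD.tors.op (K2c_sy hD (hmem q.2))
  have hnear1 := near_forall_fin (G := G) (H := H) (s := (F : Set _)) F.finite_toSet
    (Q := fun (q : MulAction.orbit ↥H x × MulAction.orbit ↥H x) H' => ∀ a b : A, (∃ k ∈ KK H S, D k q.1 = a ∧ D k q.2 = b) ↔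
      ∃ k ∈ KK H' S, D k q.1 = a ∧ D k q.2 = b)
    (fun q _ => near_pair_one hN hGH hC hD hDn hS hX (hmem q.1) (hmem q.2))
  have hnear2 := near_forall_fin (G := G) (H := H) (s := (F : Set _)) F.finite_toSet
    (Q := fun q H' => orb H (T q) = orb H' (T q))
    (fun q _ => near_orb G H (T q) (hopT q))
  refine near_mono (near_and (near_and (near_and hnear1 hnear2) hDn) hS.near) ?_
  rintro H' hGH' _ ⟨⟨⟨h1, h2⟩, hD', h3, h4, h5⟩, h6, -⟩ x' hx' x'' hx'' a b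
  have hq1 : x' ∈ MulAction.orbit ↥H x := by rw [orbit_eq_orb]; exact hx'
  have hq2 : x'' ∈ MulAction.orbit ↥H x := by rw [orbit_eq_orb]; exact hx''
  obtain ⟨q, hq, g, hg⟩ := hF (⟨x', hq1⟩, ⟨x'', hq2⟩)
  have e1 : (g : Equiv.Perm Ω) • (q.1 : UU Ω) = x' :=
    congrArg (fun r : MulAction.orbit ↥H x × MulAction.orbit ↥H x => (r.1 : UU Ω)) hg
  have e2 : (g : Equiv.Perm Ω) • (q.2 : UU Ω) = x'' :=
    congrArg (fun r : MulAction.orbit ↥H x × MulAction.orbit ↥H x => (r.2 : UU Ω)) hg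
  have h7 : (g : Equiv.Perm Ω) • T q ∈ orb H' (T q) := by
    rw [← h2 q hq]
    exact smul_mem_orb g.2 _
  obtain ⟨g', hg', hgg⟩ := h7
  have f1 : g' • (q.1 : UU Ω) = (g : Equiv.Perm Ω) • (q.1 : UU Ω) := congrFun hgg 0
  have f2 : g' • (q.2 : UU Ω) = (g : Equiv.Perm Ω) • (q.2 : UU Ω) := congrFun hgg 1
  have f3 : g' • s (q.1 : UU Ω) = (g : Equiv.Perm Ω) • s (q.1 : UU Ω) := congrFun hgg 2
  have f4 : g' • s (q.2 : UU Ω) = (g : Equiv.Perm Ω) • s (q.2 : UU Ω) := congrFun hgg 3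
  have key : ∀ z ∈ orb H x, g' • s z = (g : Equiv.Perm Ω) • s z → D g z = D g' z := by
    intro z hz e3
    have e4 := hD.tors.one _ (K2c_sy hD hz)
    rw [← e4] at e3
    exact ((coc_eq_iff hD hD' h5 g.2 hg' hz 1).1 e3.symm).2
  have g1 := key _ (hmem q.1) f3
  have g2 := key _ (hmem q.2) f4
  have hinv : ∀ h ∈ H, ∀ s ∈ S, h • s ∈ S := fun h hh s hs => hS.fin.inv ⟨h, hh⟩ s hs
  have hinv' : ∀ h ∈ H', ∀ s ∈ S, h • s ∈ S := fun h hh s hs => h6.inv ⟨h, hh⟩ s hs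
  have c1 := K2d_conj hD hX hinv (hmem q.1) (hmem q.2) g.2 a b
  have c2 := K2d_conj hD' (h3 ▸ hX) hinv' (h3 ▸ hmem q.1) (h3 ▸ hmem q.2) hg' a b
  rw [e1, e2] at c1
  rw [f1, f2, e1, e2, ← g1, ← g2] at c2
  rw [c1, c2]
  exact h1 q hq _ _

end Pool.Agent.Lib.ThC

end

section

/-! # K2e: torsors under a nonabelian simple group: the orbits agree near `H` -/

set_option autoImplicit false
open scoped Pointwise

namespace Pool.Agent.Lib.ThC

variable {Ω A : Type} [Group A]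

private theorem K2e_mem {H : Subgroup (Equiv.Perm Ω)} {S : Set (UU Ω)} {k : Equiv.Perm Ω} :
    k ∈ KK H S ↔ k ∈ H ∧ ∀ s ∈ S, k • s = s := by
  unfold KK
  rw [Subgroup.mem_inf, mem_fixingSubgroup_iff]

private theorem K2e_conj {H : Subgroup (Equiv.Perm Ω)} {S : Set (UU Ω)}
    (hS : ∀ h ∈ H, ∀ s ∈ S, h • s ∈ S) {h k : Equiv.Perm Ω} (hh : h ∈ H) (hk : k ∈ KK H S) :
    h * k * h⁻¹ ∈ KK H S := by
  rw [K2e_mem] at hk ⊢
  refine ⟨H.mul_mem (H.mul_mem hh hk.1) (H.inv_mem hh), fun s hs => ?_⟩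
  rw [mul_smul, mul_smul, hk.2 _ (hS _ (H.inv_mem hh) s hs), smul_inv_smul]

/-- the common image of `KK H S` and `KK H' S` at a finite set of points. -/
private theorem K2e_im [Finite A] [IsSimpleGroup A] (hA : ∃ a b : A, a * b ≠ b * a)
    {H H' : Subgroup (Equiv.Perm Ω)} {x y : UU Ω} {ρ : A → UU Ω → UU Ω}
    {s : UU Ω → UU Ω} {D : Equiv.Perm Ω → UU Ω → A} (hD : Coc A H x y ρ s D)
    (hD' : Coc A H' x y ρ s D) (hox : orb H x = orb H' x)
    {S : Set (UU Ω)} (hX : orb H x ⊆ S)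
    (hon : ∀ x' ∈ orb H x, ∀ a : A, ∃ k ∈ KK H S, D k x' = a)
    (hon' : ∀ x' ∈ orb H x, ∀ a : A, ∃ k ∈ KK H' S, D k x' = a)
    (hp : ∀ x' ∈ orb H x, ∀ x'' ∈ orb H x, ∀ a b : A,
      (∃ k ∈ KK H S, D k x' = a ∧ D k x'' = b) ↔ ∃ k ∈ KK H' S, D k x' = a ∧ D k x'' = b)
    (X₁ : Finset (UU Ω)) (hX₁ : (X₁ : Set (UU Ω)) ⊆ orb H x) :
    ∃ M : Subgroup (↥X₁ → A), Sdp M ∧
      (∀ v : ↥X₁ → A, v ∈ M ↔ ∃ k ∈ KK H S, ∀ x' : ↥X₁, D k x' = v x') ∧
      (∀ v : ↥X₁ → A, v ∈ M ↔ ∃ k ∈ KK H' S, ∀ x' : ↥X₁, D k x' = v x') := by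
  obtain ⟨M, hM⟩ := im_exists hD hX X₁ hX₁
  have hX' : orb H' x ⊆ S := hox ▸ hX
  have hX₁' : (X₁ : Set (UU Ω)) ⊆ orb H' x := hox ▸ hX₁
  obtain ⟨M', hM'⟩ := im_exists hD' hX' X₁ hX₁'
  have h1 : Sdp M := by
    intro i a
    obtain ⟨k, hk, hka⟩ := hon i (hX₁ i.2) a
    exact ⟨fun x' => D k x', (hM _).2 ⟨k, hk, fun _ => rfl⟩, hka⟩
  have h2 : Sdp M' := by
    intro i a
    obtain ⟨k, hk, hka⟩ := hon' i (hX₁ i.2) a
    exact ⟨fun x' => D k x', (hM' _).2 ⟨k, hk, fun _ => rfl⟩, hka⟩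
  have h3 : M = M' := by
    refine gou_pairs hA h1 h2 fun i j a b => ?_
    constructor
    · rintro ⟨d, hd, hda, hdb⟩
      obtain ⟨k, hk, hkd⟩ := (hM d).1 hd
      obtain ⟨k', hk', ha', hb'⟩ := (hp i (hX₁ i.2) j (hX₁ j.2) a b).1
        ⟨k, hk, (hkd i).trans hda, (hkd j).trans hdb⟩
      exact ⟨fun x' => D k' x', (hM' _).2 ⟨k', hk', fun _ => rfl⟩, ha', hb'⟩
    · rintro ⟨d, hd, hda, hdb⟩
      obtain ⟨k, hk, hkd⟩ := (hM' d).1 hd
      obtain ⟨k', hk', ha', hb'⟩ := (hp i (hX₁ i.2) j (hX₁ j.2) a b).2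
        ⟨k, hk, (hkd i).trans hda, (hkd j).trans hdb⟩
      exact ⟨fun x' => D k' x', (hM _).2 ⟨k', hk', fun _ => rfl⟩, ha', hb'⟩
  exact ⟨M, h1, hM, h3 ▸ hM'⟩

/-- One direction of the agreement.  `h₀ ∈ H'` with `h₀ = h` on `B ∪ X₁`.  Put
`θ x' = (D h₀ x')⁻¹ * D h x'`, `I`, `I'` the images of `KK H S`, `KK H' S` at `X₁`, and
`L`, `L'` at `h X₁ = h₀ X₁`.  `I = I'`, `L = L'` by `gou_pairs`.  Conjugation by `D h` maps `I` onto `L`
(`coc_conj`), conjugation by `D h₀` maps `I'` onto `L'`; so `θ` normalises `I`, hence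
`θ ∈ I = I'` by `gou_norm`, `θ = D k`, `k ∈ KK H' S`; `h' = h₀ k`. -/
theorem agr_dir_na [Finite A] [IsSimpleGroup A] (hA : ∃ a b : A, a * b ≠ b * a)
    {H H' : Subgroup (Equiv.Perm Ω)} {x y : UU Ω} {ρ : A → UU Ω → UU Ω}
    {s : UU Ω → UU Ω} {D : Equiv.Perm Ω → UU Ω → A} (hD : Coc A H x y ρ s D)
    (hD' : Coc A H' x y ρ s D) (hox : orb H x = orb H' x)
    {S : Set (UU Ω)} (hX : orb H x ⊆ S) (hS : ∀ h ∈ H, ∀ s ∈ S, h • s ∈ S)
    (hS' : ∀ h ∈ H', ∀ s ∈ S, h • s ∈ S) (hAg : AgrS S H H')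
    (hon : ∀ x' ∈ orb H x, ∀ a : A, ∃ k ∈ KK H S, D k x' = a)
    (hon' : ∀ x' ∈ orb H x, ∀ a : A, ∃ k ∈ KK H' S, D k x' = a)
    (hp : ∀ x' ∈ orb H x, ∀ x'' ∈ orb H x, ∀ a b : A,
      (∃ k ∈ KK H S, D k x' = a ∧ D k x'' = b) ↔ ∃ k ∈ KK H' S, D k x' = a ∧ D k x'' = b)
    {h : Equiv.Perm Ω} (hh : h ∈ H) (B X₁ : Finset (UU Ω)) (hB : (B : Set (UU Ω)) ⊆ S)
    (hX₁ : (X₁ : Set (UU Ω)) ⊆ orb H x) : ∃ h' ∈ H', (∀ b ∈ B, h' • b = h • b) ∧
        ∀ x' ∈ X₁, D h' x' = D h x' := by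
  classical
  have hBX : ((B ∪ X₁ : Finset (UU Ω)) : Set (UU Ω)) ⊆ S := by
    rw [Finset.coe_union]
    exact Set.union_subset hB (hX₁.trans hX)
  obtain ⟨h₀, hh₀, e₀⟩ := agrS_finset hAg (B ∪ X₁) hBX hh
  have eB : ∀ b ∈ B, h₀ • b = h • b := fun b hb => e₀ b (Finset.mem_union_left _ hb)
  have eX : ∀ b ∈ X₁, h₀ • b = h • b := fun b hb => e₀ b (Finset.mem_union_right _ hb)
  have hX₂ : ((X₁.image (fun b => h • b) : Finset (UU Ω)) : Set (UU Ω)) ⊆ orb H x := by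
    intro z hz
    rw [Finset.coe_image] at hz
    obtain ⟨b, hb, rfl⟩ := hz
    obtain ⟨l, hl, hl1⟩ := hX₁ hb
    exact ⟨h * l, H.mul_mem hh hl, by rw [mul_smul, hl1]⟩
  obtain ⟨M₁, hsd, hM₁, hM₁'⟩ := K2e_im hA hD hD' hox hX hon hon' hp X₁ hX₁
  obtain ⟨M₂, -, hM₂, hM₂'⟩ := K2e_im hA hD hD' hox hX hon hon' hp _ hX₂
  let θ : ↥X₁ → A := fun x' => (D h₀ x')⁻¹ * D h x'
  have hθ : θ ∈ M₁ := by
    refine gou_norm hA hsd θ fun v hv => ?_
    obtain ⟨k, hk, hkv⟩ := (hM₁ v).1 hv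
    have hk₁ := K2e_conj hS hh hk
    obtain ⟨k', hk', hkk'⟩ := (hM₂' (fun z => D (h * k * h⁻¹) z)).1
      ((hM₂ _).2 ⟨h * k * h⁻¹, hk₁, fun _ => rfl⟩)
    have hk₂ := K2e_conj hS' (H'.inv_mem hh₀) hk'
    refine (hM₁' _).2 ⟨_, hk₂, fun x' => ?_⟩
    have hx1 : (x' : UU Ω) ∈ orb H x := hX₁ x'.2
    have hx2 : (x' : UU Ω) ∈ orb H' x := hox ▸ hx1
    have hx3 : h₀ • (x' : UU Ω) ∈ orb H' x := by
      obtain ⟨l, hl, hl1⟩ := hx2
      exact ⟨h₀ * l, H'.mul_mem hh₀ hl, by rw [mul_smul, hl1]⟩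
    have hx4 : h₀ • (x' : UU Ω) ∈ S := hX (hox ▸ hx3)
    have e1 := coc_conj hD' (H'.inv_mem hh₀) (K2e_mem.1 hk').1 hx3 ((K2e_mem.1 hk').2 _ hx4)
    rw [inv_smul_smul, coc_inv hD' hh₀ hx2, inv_inv] at e1
    have e2 : D k' (h₀ • (x' : UU Ω)) = D (h * k * h⁻¹) (h • (x' : UU Ω)) := by
      rw [eX _ x'.2]
      exact hkk' ⟨h • (x' : UU Ω), Finset.mem_image_of_mem _ x'.2⟩
    have e3 := coc_conj hD hh (K2e_mem.1 hk).1 hx1 ((K2e_mem.1 hk).2 _ (hX hx1))
    rw [inv_inv]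
    rw [e1, e2, e3]
    have e4 : D k x' = v x' := hkv x'
    rw [e4]
    show _ = ((D h₀ x')⁻¹ * D h x') * v x' * ((D h₀ x')⁻¹ * D h x')⁻¹
    group
  obtain ⟨k, hk, hkθ⟩ := (hM₁' θ).1 hθ
  refine ⟨h₀ * k, H'.mul_mem hh₀ (K2e_mem.1 hk).1, fun b hb => ?_, fun x' hx' => ?_⟩
  · rw [mul_smul, (K2e_mem.1 hk).2 b (hB hb), eB b hb]
  · have hx1 : x' ∈ orb H x := hX₁ hx'
    have hx2 : x' ∈ orb H' x := hox ▸ hx1
    rw [coc_mul hD' hh₀ (K2e_mem.1 hk).1 hx2, (K2e_mem.1 hk).2 x' (hX hx1)]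
    have e1 : D k x' = (D h₀ x')⁻¹ * D h x' := hkθ ⟨x', hx'⟩
    rw [e1, mul_inv_cancel_left]

end Pool.Agent.Lib.ThC

end

section

/-! # K2f: torsors under a nonabelian simple group: the orbits agree near `H` -/

set_option autoImplicit false
open scoped Pointwise

namespace Pool.Agent.Lib.ThC

variable {Ω A : Type} [Group A]

/-- (G1) in the nonabelian case, when `KK H S` induces everything: `agrS_of_coc`, `agr_dir_na` in both
directions. -/
theorem near_agr_na [Countable Ω] [Finite A] [IsSimpleGroup A]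
    (hA : ∃ a b : A, a * b ≠ b * a) {G H : Subgroup (Equiv.Perm Ω)}
    (hN : Nice Ω ↥G) (hGH : G ≤ H) (hC : Cpl Ω ↥H) {x y : UU Ω} {ρ : A → UU Ω → UU Ω}
    {s : UU Ω → UU Ω} {D : Equiv.Perm Ω → UU Ω → A} (hD : Coc A H x y ρ s D)
    (hDn : Near G H (fun H' => Coc A H' x y ρ s D ∧
      orb H x = orb H' x ∧ orb H y = orb H' y ∧ orb H (x, y) = orb H' (x, y)))
    {S : Set (UU Ω)} (hS : Good G H S) (hX : orb H x ⊆ S)
    (hon : ∀ x' ∈ orb H x, ∀ a : A, ∃ k ∈ KK H S, D k x' = a) :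
    Near G H (fun H' => AgrS (S ∪ orb H y) H H') := by
  refine near_mono (near_and (near_and hDn hS.near) (near_and
    (near_onto hN hGH hC hD hDn hS hX hon) (near_pairs hN hGH hC hD hDn hS hX))) ?_
  rintro H' _ _ ⟨⟨⟨hD', hox, hoy, hoxy⟩, hSF, hAg⟩, hon', hp⟩
  have hinv : ∀ h ∈ H, ∀ s ∈ S, h • s ∈ S := fun h hh s hs => hS.fin.inv ⟨h, hh⟩ s hs
  have hinv' : ∀ h ∈ H', ∀ s ∈ S, h • s ∈ S := fun h hh s hs => hSF.inv ⟨h, hh⟩ s hs
  refine agrS_of_coc hD hD' hoxy hX ?_ ?_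
  · intro h hh B X₁ hB hX₁
    exact agr_dir_na hA hD hD' hox hX hinv hinv' hAg hon (fun x' hx' => hon' x' (hox ▸ hx')) hp
      hh B X₁ hB hX₁
  · intro h' hh' B X₁ hB hX₁
    exact agr_dir_na hA hD' hD hox.symm (hox ▸ hX) hinv' hinv (agrS_symm hAg) hon'
      (fun x' hx' => hon x' (hox ▸ hx'))
      (fun x' hx' x'' hx'' a b => (hp x' (hox ▸ hx') x'' (hox ▸ hx'') a b).symm)
      hh' B X₁ hB (hox ▸ hX₁)

end Pool.Agent.Lib.ThC

end

section

/-! # K3a: torsors under a nonabelian simple group: the uniform finite index property -/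

set_option autoImplicit false
open scoped Pointwise

namespace Pool.Agent.Lib.ThC

variable {Ω A : Type} [Group A]

private theorem K3a_mem {H : Subgroup (Equiv.Perm Ω)} {S : Set (UU Ω)} {k : Equiv.Perm Ω} :
    k ∈ KK H S ↔ k ∈ H ∧ ∀ s ∈ S, k • s = s := by
  unfold KK
  rw [Subgroup.mem_inf, mem_fixingSubgroup_iff]

private theorem K3a_conj {H : Subgroup (Equiv.Perm Ω)} {S : Set (UU Ω)}
    (hS : ∀ h ∈ H, ∀ s ∈ S, h • s ∈ S) {h k : Equiv.Perm Ω} (hh : h ∈ H) (hk : k ∈ KK H S) :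
    h * k * h⁻¹ ∈ KK H S := by
  rw [K3a_mem] at hk ⊢
  refine ⟨H.mul_mem (H.mul_mem hh hk.1) (H.inv_mem hh), fun s hs => ?_⟩
  rw [mul_smul, mul_smul, hk.2 _ (hS _ (H.inv_mem hh) s hs), smul_inv_smul]

private theorem K3a_orb {H : Subgroup (Equiv.Perm Ω)} {x x' : UU Ω} (hx' : x' ∈ orb H x)
    {h : Equiv.Perm Ω} (hh : h ∈ H) : h • x' ∈ orb H x := by
  obtain ⟨l, hl, rfl⟩ := hx'
  exact ⟨h * l, H.mul_mem hh hl, by rw [mul_smul]⟩

/-- linked points: the image of `KK H S` at the pair is not everything. -/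
def LX (H : Subgroup (Equiv.Perm Ω)) (S : Set (UU Ω)) (D : Equiv.Perm Ω → UU Ω → A)
    (x' x'' : UU Ω) : Prop :=
  ¬ ∀ a b : A, ∃ k ∈ KK H S, D k x' = a ∧ D k x'' = b

private theorem K3a_tr {H : Subgroup (Equiv.Perm Ω)} {x y : UU Ω} {ρ : A → UU Ω → UU Ω}
    {s : UU Ω → UU Ω} {D : Equiv.Perm Ω → UU Ω → A} (hD : Coc A H x y ρ s D)
    {S : Set (UU Ω)} (hX : orb H x ⊆ S) (hS : ∀ h ∈ H, ∀ s ∈ S, h • s ∈ S) {x' x'' : UU Ω}
    (hx' : x' ∈ orb H x) (hx'' : x'' ∈ orb H x) {h : Equiv.Perm Ω} (hh : h ∈ H)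
    (h1 : ∀ a b : A, ∃ k ∈ KK H S, D k x' = a ∧ D k x'' = b) :
    ∀ a b : A, ∃ k ∈ KK H S, D k (h • x') = a ∧ D k (h • x'') = b := by
  intro a b
  obtain ⟨k, hk, ha, hb⟩ := h1 ((D h x')⁻¹ * a * D h x') ((D h x'')⁻¹ * b * D h x'')
  refine ⟨h * k * h⁻¹, K3a_conj hS hh hk, ?_, ?_⟩
  · rw [coc_conj hD hh (K3a_mem.1 hk).1 hx' ((K3a_mem.1 hk).2 _ (hX hx')), ha]
    group
  · rw [coc_conj hD hh (K3a_mem.1 hk).1 hx'' ((K3a_mem.1 hk).2 _ (hX hx'')), hb]
    group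

/-- `LX` is `H`-invariant (`coc_conj`). -/
theorem lx_inv {H : Subgroup (Equiv.Perm Ω)} {x y : UU Ω} {ρ : A → UU Ω → UU Ω}
    {s : UU Ω → UU Ω} {D : Equiv.Perm Ω → UU Ω → A} (hD : Coc A H x y ρ s D)
    {S : Set (UU Ω)} (hX : orb H x ⊆ S) (hS : ∀ h ∈ H, ∀ s ∈ S, h • s ∈ S) {x' x'' : UU Ω}
    (hx' : x' ∈ orb H x) (hx'' : x'' ∈ orb H x) {h : Equiv.Perm Ω} (hh : h ∈ H) :
    LX H S D (h • x') (h • x'') ↔ LX H S D x' x'' := by
  unfold LX
  refine not_congr ⟨fun h1 => ?_, fun h1 => K3a_tr hD hX hS hx' hx'' hh h1⟩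
  have h2 := K3a_tr hD hX hS (K3a_orb hx' hh) (K3a_orb hx'' hh) (H.inv_mem hh) h1
  rw [inv_smul_smul, inv_smul_smul] at h2
  exact h2

/-- linked points have corresponding cocycle values (`gou_link` for `{x', x''}`). -/
theorem lx_iso [Finite A] [IsSimpleGroup A] {H : Subgroup (Equiv.Perm Ω)} {x y : UU Ω}
    {ρ : A → UU Ω → UU Ω} {s : UU Ω → UU Ω} {D : Equiv.Perm Ω → UU Ω → A}
    (hD : Coc A H x y ρ s D) {S : Set (UU Ω)} (hX : orb H x ⊆ S)
    (hon : ∀ x' ∈ orb H x, ∀ a : A, ∃ k ∈ KK H S, D k x' = a) {x' x'' : UU Ω}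
    (hx' : x' ∈ orb H x) (hx'' : x'' ∈ orb H x) (hl : LX H S D x' x'') :
    ∃ φ : A ≃* A, ∀ k ∈ KK H S, D k x'' = φ (D k x') := by
  classical
  have hX₁ : (({x', x''} : Finset (UU Ω)) : Set (UU Ω)) ⊆ orb H x := by
    intro z hz
    rw [Finset.coe_insert, Finset.coe_singleton] at hz
    rcases hz with rfl | rfl
    · exact hx'
    · exact hx''
  obtain ⟨M, hM⟩ := im_exists hD hX _ hX₁
  have h1 : Sdp M := by
    intro i a
    obtain ⟨k, hk, hka⟩ := hon i (hX₁ i.2) a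
    exact ⟨fun x' => D k x', (hM _).2 ⟨k, hk, fun _ => rfl⟩, hka⟩
  have hi : x' ∈ ({x', x''} : Finset (UU Ω)) := Finset.mem_insert_self _ _
  have hj : x'' ∈ ({x', x''} : Finset (UU Ω)) :=
    Finset.mem_insert_of_mem (Finset.mem_singleton_self _)
  have h2 : Lnk M ⟨x', hi⟩ ⟨x'', hj⟩ := by
    intro h3
    apply hl
    intro a b
    obtain ⟨d, hd, ha, hb⟩ := h3 a b
    obtain ⟨k, hk, hkd⟩ := (hM d).1 hd
    exact ⟨k, hk, (hkd ⟨x', hi⟩).trans ha, (hkd ⟨x'', hj⟩).trans hb⟩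
  obtain ⟨φ, hφ⟩ := gou_link h1 h2
  exact ⟨φ, fun k hk => hφ (fun z => D k z) ((hM _).2 ⟨k, hk, fun _ => rfl⟩)⟩

/-- `LX` is an equivalence relation on `orb H x` (`lx_iso`; `A` is nontrivial). -/
theorem lx_equiv [Finite A] [IsSimpleGroup A] {H : Subgroup (Equiv.Perm Ω)} {x y : UU Ω}
    {ρ : A → UU Ω → UU Ω} {s : UU Ω → UU Ω} {D : Equiv.Perm Ω → UU Ω → A}
    (hD : Coc A H x y ρ s D) {S : Set (UU Ω)} (hX : orb H x ⊆ S)
    (hon : ∀ x' ∈ orb H x, ∀ a : A, ∃ k ∈ KK H S, D k x' = a) :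
    (∀ x' ∈ orb H x, LX H S D x' x') ∧
    (∀ x' ∈ orb H x, ∀ x'' ∈ orb H x, LX H S D x' x'' → LX H S D x'' x') ∧
    (∀ x' ∈ orb H x, ∀ x'' ∈ orb H x, ∀ z ∈ orb H x, LX H S D x' x'' → LX H S D x'' z →
      LX H S D x' z) := by
  obtain ⟨a₀, b₀, hab⟩ := exists_pair_ne A
  refine ⟨fun x' _ h1 => ?_, fun x' _ x'' _ h1 h2 => h1 fun a b => ?_, ?_⟩
  · obtain ⟨k, _, h2, h3⟩ := h1 a₀ b₀
    exact hab (h2.symm.trans h3)
  · obtain ⟨k, hk, h3, h4⟩ := h2 b a
    exact ⟨k, hk, h4, h3⟩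
  · intro x' hx' x'' hx'' z hz h1 h2 h3
    obtain ⟨φ, hφ⟩ := lx_iso hD hX hon hx' hx'' h1
    obtain ⟨ψ, hψ⟩ := lx_iso hD hX hon hx'' hz h2
    obtain ⟨k, hk, hka, hkb⟩ := h3 1 a₀
    obtain ⟨l, hl, hla, hlb⟩ := h3 1 b₀
    apply hab
    rw [← hkb, ← hlb, hψ k hk, hψ l hl, hφ k hk, hφ l hl, hka, hla]

end Pool.Agent.Lib.ThC

end

section

/-! # K3b: torsors under a nonabelian simple group: the uniform finite index property -/

set_option autoImplicit false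
open scoped Pointwise

namespace Pool.Agent.Lib.ThC

variable {Ω A : Type} [Group A]

/-- Finitely many classes have finitely many `Q`-translates.  `V = {h ∈ ↥H | LX x (h x)}` is an open
subgroup of `↥H`; the classes correspond to `↥H ⧸ V`, a sort; `Q` has finitely many
orbits on it (`finOrb`), so the union of the finite ones is finite. -/
theorem lx_fin [Finite A] [IsSimpleGroup A] {H : Subgroup (Equiv.Perm Ω)}
    (hN : Nice Ω ↥H) {x y : UU Ω} (hx : Op Ω (st ↥H x))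
    {ρ : A → UU Ω → UU Ω} {s : UU Ω → UU Ω} {D : Equiv.Perm Ω → UU Ω → A}
    (hD : Coc A H x y ρ s D) {S : Set (UU Ω)} (hX : orb H x ⊆ S)
    (hS : ∀ h ∈ H, ∀ s ∈ S, h • s ∈ S)
    (hon : ∀ x' ∈ orb H x, ∀ a : A, ∃ k ∈ KK H S, D k x' = a) {Q : Subgroup ↥H}
    (hQ : Op Ω Q) :
    ∃ X₀ : Finset (UU Ω), (X₀ : Set (UU Ω)) ⊆ orb H x ∧ ∀ x' ∈ orb H x,
      (∃ F : Finset (UU Ω), (F : Set (UU Ω)) ⊆ orb H x ∧ ∀ q ∈ Q, ∃ f ∈ F, LX H S D (q • x') f) →
      ∃ x₀ ∈ X₀, LX H S D x' x₀ := by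
  classical
  obtain ⟨hrefl, hsymm, htrans⟩ := lx_equiv hD hX hon
  have inv : ∀ {h : ↥H} {x' x'' : UU Ω}, x' ∈ orb H x → x'' ∈ orb H x →
      (LX H S D (h • x') (h • x'') ↔ LX H S D x' x'') := by
    intro h x' x'' hx' hx''
    exact lx_inv hD hX hS hx' hx'' h.2
  have hmx : x ∈ orb H x := ⟨1, one_mem _, one_smul _ _⟩
  have hm : ∀ h : ↥H, h • x ∈ orb H x := fun h => ⟨h.1, h.2, rfl⟩
  let V : Subgroup ↥H :=
    { carrier := {h | LX H S D x (h • x)}
      one_mem' := by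
        show LX H S D x ((1 : ↥H) • x)
        rw [one_smul]
        exact hrefl x hmx
      mul_mem' := by
        intro a b ha hb
        show LX H S D x ((a * b) • x)
        rw [mul_smul]
        have h2 : LX H S D (a • x) (a • b • x) := (inv hmx (hm b)).2 hb
        have h3 : a • b • x ∈ orb H x := by rw [← mul_smul]; exact hm _
        exact htrans x hmx _ (hm a) _ h3 ha h2
      inv_mem' := by
        intro a ha
        show LX H S D x (a⁻¹ • x)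
        have h1 : LX H S D (a • a⁻¹ • x) (a • x) := by
          rw [smul_inv_smul]
          exact ha
        exact hsymm _ (hm _) _ hmx ((inv (hm _) hmx).1 h1) }
  have hV : Op Ω V := op_mono hx (by
    intro g hg
    rw [MulAction.mem_stabilizer_iff] at hg
    show LX H S D x (g • x)
    rw [hg]
    exact hrefl x hmx)
  have hcl : ∀ h h' : ↥H, ((h : ↥H ⧸ V) = (h' : ↥H ⧸ V)) ↔ LX H S D (h • x) (h' • x) := by
    intro h h'
    rw [QuotientGroup.eq]
    show LX H S D x ((h⁻¹ * h') • x) ↔ _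
    rw [← inv (h := h) hmx (hm _), mul_smul, smul_inv_smul]
  obtain ⟨F, hF⟩ := finOrb hN (srt_coset hV) hQ
  let T : Set (↥H ⧸ V) := ⋃ f ∈ F.filter (fun f => (orb Q f).Finite), orb Q f
  have hT : T.Finite := by
    refine Set.Finite.biUnion (Finset.finite_toSet _) ?_
    intro f hf
    exact (Finset.mem_filter.1 hf).2
  refine ⟨hT.toFinset.image (fun z => (Quotient.out z : ↥H) • x), ?_, ?_⟩
  · intro e he
    rw [Finset.mem_coe, Finset.mem_image] at he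
    obtain ⟨z, _, rfl⟩ := he
    exact hm _
  · rintro x' hx' ⟨F', hF', hq⟩
    obtain ⟨h0, hh0, rfl⟩ := hx'
    have key : ∀ f : UU Ω, ∃ h' : ↥H, f ∈ F' → h' • x = f := by
      intro f
      by_cases hf : f ∈ F'
      · obtain ⟨h', hh', e⟩ := hF' hf
        exact ⟨⟨h', hh'⟩, fun _ => e⟩
      · exact ⟨1, fun h => (hf h).elim⟩
    choose c hc using key
    let h : ↥H := ⟨h0, hh0⟩
    have hfin : (orb Q (h : ↥H ⧸ V)).Finite := by
      refine (F'.finite_toSet.image (fun f => (c f : ↥H ⧸ V))).subset ?_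
      rintro _ ⟨q, hqQ, rfl⟩
      obtain ⟨f, hf, hlx⟩ := hq q hqQ
      refine ⟨f, hf, ?_⟩
      show ((c f : ↥H) : ↥H ⧸ V) = ((q * h : ↥H) : ↥H ⧸ V)
      rw [eq_comm, hcl, hc f hf, mul_smul]
      exact hlx
    obtain ⟨f, hf, hzf⟩ := hF (h : ↥H ⧸ V)
    have hof : orb Q (h : ↥H ⧸ V) = orb Q f := orb_eq_of_mem hzf
    have hzT : (h : ↥H ⧸ V) ∈ T := by
      rw [hof] at hfin
      exact Set.mem_biUnion (Finset.mem_coe.2 (Finset.mem_filter.2 ⟨hf, hfin⟩)) hzf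
    refine ⟨_, Finset.mem_image_of_mem _ (hT.mem_toFinset.2 hzT), ?_⟩
    show LX H S D (h • x) _
    rw [← hcl]
    exact (QuotientGroup.out_eq' _).symm

end Pool.Agent.Lib.ThC

end

section

/-! # K3c: torsors under a nonabelian simple group: the uniform finite index property -/

set_option autoImplicit false
open scoped Pointwise

namespace Pool.Agent.Lib.ThC

variable {Ω A : Type} [Group A]

private theorem K3c_mem {H : Subgroup (Equiv.Perm Ω)} {x x' : UU Ω} (hx' : x' ∈ orb H x)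
    {h : Equiv.Perm Ω} (hh : h ∈ H) : h • x' ∈ orb H x := by
  obtain ⟨g, hg, rfl⟩ := hx'
  exact ⟨h * g, mul_mem hh hg, mul_smul _ _ _⟩

private theorem K3c_fix {H : Subgroup (Equiv.Perm Ω)} {S : Set (UU Ω)} {k : Equiv.Perm Ω}
    (hk : k ∈ KK H S) {e : UU Ω} (he : e ∈ S) : k • e = e := by
  have h1 := (Subgroup.mem_inf.1 hk).2
  rw [mem_fixingSubgroup_iff] at h1
  exact h1 e he

private theorem K3c_bound [Finite A] [IsSimpleGroup A] (hA : ∃ a b : A, a * b ≠ b * a)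
    {H : Subgroup (Equiv.Perm Ω)} {x y : UU Ω}
    {ρ : A → UU Ω → UU Ω} {s : UU Ω → UU Ω} {D : Equiv.Perm Ω → UU Ω → A}
    (hD : Coc A H x y ρ s D) {S : Set (UU Ω)} (hX : orb H x ⊆ S)
    (hS : ∀ h ∈ H, ∀ s ∈ S, h • s ∈ S)
    (hon : ∀ x' ∈ orb H x, ∀ a : A, ∃ k ∈ KK H S, D k x' = a)
    (J : Finset (UU Ω)) (hJ : (J : Set (UU Ω)) ⊆ orb H x) (Q R : Subgroup (Equiv.Perm Ω))
    (hQ : Q ≤ H) (hQJ : ∀ q ∈ Q, ∀ x' ∈ J, q • x' = x')
    (hQK : ∀ k ∈ KK H S, k ∈ Q ↔ ∀ x' ∈ J, D k x' = 1)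
    (hR : R ≤ KK H S ⊓ Q) (hfi : R.relIndex (KK H S ⊓ Q) ≠ 0)
    (hn : ∀ q ∈ Q, ∀ u ∈ R, q * u * q⁻¹ ∈ R) {x' : UU Ω} (hx' : x' ∈ orb H x)
    (hxJ : ∀ j ∈ J, ¬ LX H S D x' j) (hxR : ∀ u ∈ R, D u x' = 1)
    (F : Finset (UU Ω)) (hF : ∀ f ∈ F, f ∈ orb Q x')
    (hun : ∀ f ∈ F, ∀ f' ∈ F, f ≠ f' → ¬ LX H S D f f') :
    F.card ≤ R.relIndex (KK H S ⊓ Q) := by
  classical
  have hFH : ∀ f ∈ F, f ∈ orb H x := by
    intro f hf
    obtain ⟨q, hq, rfl⟩ := hF f hf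
    exact K3c_mem hx' (hQ hq)
  -- step 1
  have h1 : ∀ f ∈ F, ∀ u ∈ R, D u f = 1 := by
    intro f hf u hu
    obtain ⟨q, hq, rfl⟩ := hF f hf
    have hu' : q⁻¹ * u * q ∈ R := by
      have := hn q⁻¹ (inv_mem hq) u hu
      simpa using this
    have hk : q⁻¹ * u * q ∈ KK H S := (Subgroup.mem_inf.1 (hR hu')).1
    have hkx : (q⁻¹ * u * q) • x' = x' := K3c_fix hk (hX hx')
    have h2 := coc_conj hD (hQ hq) (Subgroup.mem_inf.1 hk).1 hx' hkx
    rw [hxR _ hu', mul_one, mul_inv_cancel] at h2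
    have e : q * (q⁻¹ * u * q) * q⁻¹ = u := by group
    rwa [e] at h2
  -- step 2
  have h2 : ∀ f ∈ F, ∀ j ∈ J, ¬ LX H S D f j := by
    intro f hf j hj hl
    obtain ⟨q, hq, rfl⟩ := hF f hf
    rw [← hQJ q hq j hj, lx_inv hD hX hS hx' (hJ hj) (hQ hq)] at hl
    exact hxJ j hj hl
  -- step 3
  have h3 : ∀ v : ↥F → A, ∃ k ∈ KK H S ⊓ Q, ∀ f : ↥F, D k f = v f := by
    intro v
    have hX₁ : ((F ∪ J : Finset (UU Ω)) : Set (UU Ω)) ⊆ orb H x := by
      intro e he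
      rw [Finset.mem_coe, Finset.mem_union] at he
      rcases he with he | he
      · exact hFH e he
      · exact hJ he
    obtain ⟨M, hM⟩ := im_exists hD hX (F ∪ J) hX₁
    have hMs : Sdp M := by
      intro i a
      obtain ⟨k, hk, hka⟩ := hon i.1 (hX₁ i.2) a
      exact ⟨fun i => D k i.1, (hM _).2 ⟨k, hk, fun _ => rfl⟩, hka⟩
    have hML : ∀ i j : ↥(F ∪ J), ¬ LX H S D i.1 j.1 → ¬ Lnk M i j := by
      intro i j hij hl
      apply hl
      intro a b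
      unfold LX at hij
      rw [not_not] at hij
      obtain ⟨k, hk, hka, hkb⟩ := hij a b
      exact ⟨fun i => D k i.1, (hM _).2 ⟨k, hk, fun _ => rfl⟩, hka, hkb⟩
    obtain ⟨d, hd, hdJ, hdI⟩ := gou_onto' hA hMs {i | i.1 ∈ F} {i | i.1 ∈ J}
      (fun i hi j hj hij => hML i j (hun _ hi _ hj (fun h => hij (Subtype.ext h))))
      (fun i hi j hj => hML i j (h2 _ hi _ hj))
      (fun i => if h : i.1 ∈ F then v ⟨i.1, h⟩ else 1)
    obtain ⟨k, hk, hkd⟩ := (hM d).1 hd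
    refine ⟨k, Subgroup.mem_inf.2 ⟨hk, (hQK k hk).2 ?_⟩, ?_⟩
    · intro j hj
      have h4 := hkd ⟨j, Finset.mem_union_right _ hj⟩
      rw [h4]
      exact hdJ _ hj
    · intro f
      have h4 := hkd ⟨f.1, Finset.mem_union_left _ f.2⟩
      rw [hdI ⟨f.1, Finset.mem_union_left _ f.2⟩ f.2] at h4
      rw [h4]
      simp
  choose k hk hkv using h3
  -- step 4
  let P : Subgroup (Equiv.Perm Ω) := KK H S ⊓ Q
  let φ : (↥F → A) → P ⧸ R.subgroupOf P := fun v => ((⟨k v, hk v⟩ : P) : P ⧸ R.subgroupOf P)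
  have hφ : Function.Injective φ := by
    intro v w hvw
    have h5 : (k v)⁻¹ * k w ∈ R := by
      have := (QuotientGroup.eq (s := R.subgroupOf P)).1 hvw
      rw [Subgroup.mem_subgroupOf] at this
      exact this
    funext f
    have hf := hFH f.1 f.2
    have hku := (Subgroup.mem_inf.1 (hR h5)).1
    have h6 := coc_mul hD (Subgroup.mem_inf.1 (Subgroup.mem_inf.1 (hk v)).1).1
      (Subgroup.mem_inf.1 hku).1 hf
    rw [mul_inv_cancel_left, K3c_fix hku (hX hf), h1 f.1 f.2 _ h5, mul_one, hkv, hkv] at h6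
    exact h6.symm
  have hfin : Finite (P ⧸ R.subgroupOf P) := by
    have : (R.subgroupOf P).index ≠ 0 := hfi
    have h6 : (R.subgroupOf P).FiniteIndex := ⟨this⟩
    infer_instance
  have h7 := Nat.card_le_card_of_injective φ hφ
  have h8 : Nat.card (↥F → A) = Nat.card A ^ F.card := by
    rw [Nat.card_fun]
    simp
  rw [h8] at h7
  have h9 : 1 < Nat.card A := Finite.one_lt_card
  calc F.card ≤ Nat.card A ^ F.card := (Nat.lt_pow_self h9).le
    _ ≤ Nat.card (P ⧸ R.subgroupOf P) := h7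

/-- Let `Q ≤ ↥H` fix the finite set `J ⊆ orb H x` pointwise and contain exactly those `k` fixing `S` with
`D k = 1` on `J`; let `R ≤ {k ∈ Q | k fixes S}` be a subgroup of finite index, normalised by `Q`, and
`x'` a point not linked to `J` with `D u x' = 1` for all `u ∈ R`.  Then `x'` has finitely many
`Q`-translates modulo `LX`: the elements `u ∈ R` have `D u (q x') = 1` for `q ∈ Q` too; if
`x'_1, …, x'_m` are pairwise unlinked `Q`-translates of `x'` (they are unlinked to `J` by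
`lx_inv`), then by `gou_onto'` the group `{k | k fixes S, D k = 1 on J}` maps onto `A^m`, with `R` in the
kernel, so `|A|^m ≤` index. -/
theorem lx_orbit_fin [Finite A] [IsSimpleGroup A] (hA : ∃ a b : A, a * b ≠ b * a)
    {H : Subgroup (Equiv.Perm Ω)} {x y : UU Ω}
    {ρ : A → UU Ω → UU Ω} {s : UU Ω → UU Ω} {D : Equiv.Perm Ω → UU Ω → A}
    (hD : Coc A H x y ρ s D) {S : Set (UU Ω)} (hX : orb H x ⊆ S)
    (hS : ∀ h ∈ H, ∀ s ∈ S, h • s ∈ S)
    (hon : ∀ x' ∈ orb H x, ∀ a : A, ∃ k ∈ KK H S, D k x' = a)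
    (J : Finset (UU Ω)) (hJ : (J : Set (UU Ω)) ⊆ orb H x) (Q R : Subgroup (Equiv.Perm Ω))
    (hQ : Q ≤ H) (hQJ : ∀ q ∈ Q, ∀ x' ∈ J, q • x' = x')
    (hQK : ∀ k ∈ KK H S, k ∈ Q ↔ ∀ x' ∈ J, D k x' = 1)
    (hR : R ≤ KK H S ⊓ Q) (hfi : R.relIndex (KK H S ⊓ Q) ≠ 0)
    (hn : ∀ q ∈ Q, ∀ u ∈ R, q * u * q⁻¹ ∈ R) {x' : UU Ω} (hx' : x' ∈ orb H x)
    (hxJ : ∀ j ∈ J, ¬ LX H S D x' j) (hxR : ∀ u ∈ R, D u x' = 1) :
    ∃ F : Finset (UU Ω), (F : Set (UU Ω)) ⊆ orb H x ∧ ∀ q ∈ Q, ∃ f ∈ F, LX H S D (q • x') f := by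
  classical
  obtain ⟨hrefl, hsymm, htrans⟩ := lx_equiv hD hX hon
  let Pr : ℕ → Prop := fun m => ∃ F : Finset (UU Ω), F.card = m ∧ (∀ f ∈ F, f ∈ orb Q x') ∧
    ∀ f ∈ F, ∀ f' ∈ F, f ≠ f' → ¬ LX H S D f f'
  have h0 : Pr 0 := ⟨∅, rfl, fun f hf => absurd hf (Finset.notMem_empty f),
    fun f hf => absurd hf (Finset.notMem_empty f)⟩
  have hb : ∀ m, Pr m → m ≤ R.relIndex (KK H S ⊓ Q) := by
    rintro m ⟨F, rfl, hF, hun⟩
    exact K3c_bound hA hD hX hS hon J hJ Q R hQ hQJ hQK hR hfi hn hx' hxJ hxR F hF hun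
  obtain ⟨F, hFc, hF, hun⟩ := Nat.findGreatest_spec (P := Pr)
    (n := R.relIndex (KK H S ⊓ Q)) (Nat.zero_le _) h0
  refine ⟨F, ?_, ?_⟩
  · intro f hf
    obtain ⟨q, hq, rfl⟩ := hF f hf
    exact K3c_mem hx' (hQ hq)
  · intro q hq
    by_contra hcon
    push Not at hcon
    have hqx : q • x' ∈ orb H x := K3c_mem hx' (hQ hq)
    have hqF : q • x' ∉ F := fun h => hcon _ h (hrefl _ hqx)
    have hP : Pr (F.card + 1) := by
      refine ⟨insert (q • x') F, Finset.card_insert_of_notMem hqF, ?_, ?_⟩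
      · intro f hf
        rcases Finset.mem_insert.1 hf with rfl | hf
        · exact ⟨q, hq, rfl⟩
        · exact hF f hf
      · intro f hf f' hf' hne
        rcases Finset.mem_insert.1 hf with h1 | h1
        · rcases Finset.mem_insert.1 hf' with h2 | h2
          · exact absurd (h1.trans h2.symm) hne
          · rw [h1]
            exact hcon _ h2
        · rcases Finset.mem_insert.1 hf' with h2 | h2
          · rw [h2]
            intro hl
            have hfH : f ∈ orb H x := by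
              obtain ⟨q', hq', rfl⟩ := hF f h1
              exact K3c_mem hx' (hQ hq')
            exact hcon _ h1 (hsymm _ hfH _ hqx hl)
          · exact hun f h1 f' h2 hne
    have h3 := Nat.le_findGreatest (hb _ hP) hP
    omega

end Pool.Agent.Lib.ThC

end

section

/-! # K3d: torsors under a nonabelian simple group: the uniform finite index property -/

set_option autoImplicit false
open scoped Pointwise

namespace Pool.Agent.Lib.ThC

variable {Ω A : Type} [Group A]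

/-- (G2) in the nonabelian case, by `gfin_step`.  Given finite `B ⊆ S' = S ∪ E` and `n`: `J` = points below
`B ∩ E`, `Q = fx B`, `X₀` from `lx_fin`; `b₀ = (B ∩ S) ∪ J ∪ X₀`, `B₀ = B ∪ J ∪ X₀ ∪ s(J ∪ X₀)`,
`coc_fi`.  Let `U` be as in `gfin_step`, `k ∈ K ⊓ fx B₀`; `fx B' ≤ U` by `supp_exists`, `X₂ = J ∪` the points
below `B' ∩ E`.  In `A^{X₂}`: `D_img` = image of `KK H S`, `U_img` = image of `R = U ∩ KK H S`, `v` = the values of
`k`.  By `coc_lift` it is enough that `v ∈ U_img`; apply `gou_normal`.  Let `x' ∈ X₂` with `D u x' = 1` for all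
`u ∈ R`: if `x'` is linked to `J` then `v x' = 1` by `lx_iso`; otherwise by `lx_orbit_fin` and
`lx_fin` `x'` is linked to some `x₀ ∈ X₀`, and `D k x₀ = 1`, so `v x' = 1`. -/
theorem gf_na [Countable Ω] [Finite A] [IsSimpleGroup A]
    (hA : ∃ a b : A, a * b ≠ b * a) {G H : Subgroup (Equiv.Perm Ω)}
    (hN : Nice Ω ↥G) (hGH : G ≤ H) (hC : Cpl Ω ↥H) {x y : UU Ω} {ρ : A → UU Ω → UU Ω}
    {s : UU Ω → UU Ω} {D : Equiv.Perm Ω → UU Ω → A} (hD : Coc A H x y ρ s D)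
    {S : Set (UU Ω)} (hS : Good G H S) (hX : orb H x ⊆ S)
    (hon : ∀ x' ∈ orb H x, ∀ a : A, ∃ k ∈ KK H S, D k x' = a) :
    Gfin Ω ↥H (S ∪ orb H y) := by
  classical
  have hNH : Nice Ω ↥H := nice_mono hN hGH
  have hT := hD.tors
  -- the base point has open stabiliser
  have hopx : Op Ω (st ↥H x) := by
    obtain ⟨A, hA⟩ := hT.op
    exact ⟨A, fun g hg => hT.le (hA g hg)⟩
  have hEfin : SFin Ω ↥H (orb H y) := by
    rw [← orbit_eq_orb]
    exact sfin_orbit hT.op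
  have hXfin : SFin Ω ↥H (orb H x) := by
    rw [← orbit_eq_orb]
    exact sfin_orbit hopx
  have hS'fin : SFin Ω ↥H (S ∪ orb H y) := sfin_union hS.fin hEfin
  have hSinv : ∀ h ∈ H, ∀ t ∈ S, h • t ∈ S := fun h hh t ht => hS.fin.inv ⟨h, hh⟩ t ht
  -- the point below
  have hbel : ∀ e : UU Ω, ∃ x' : UU Ω, e ∈ orb H y → x' ∈ orb H x ∧
      (∃ a : A, e = ρ a (s x')) ∧ (x', e) ∈ orb H (x, y) := by
    intro e
    by_cases he : e ∈ orb H y
    · obtain ⟨x', hx', a, ha, hxe⟩ := coc_surj hD he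
      exact ⟨x', fun _ => ⟨hx', ⟨a, ha⟩, hxe⟩⟩
    · exact ⟨e, fun h => absurd h he⟩
  choose bel hbel using hbel
  have hsE : ∀ x' ∈ orb H x, s x' ∈ orb H y := fun x' hx' => J4c_snd (hD.sec x' hx')
  refine gfin_step hNH hC hS.fin.toSInv hS'fin.toSInv Set.subset_union_left hS.gf ?_
  intro B hB n
  -- the points below B
  set J : Finset (UU Ω) := (B.filter (fun e => e ∈ orb H y)).image bel with hJdef
  have hJmem : ∀ x', x' ∈ J ↔ ∃ e ∈ B, e ∈ orb H y ∧ bel e = x' := by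
    intro x'
    rw [hJdef, Finset.mem_image]
    constructor
    · rintro ⟨e, he, rfl⟩
      rw [Finset.mem_filter] at he
      exact ⟨e, he.1, he.2, rfl⟩
    · rintro ⟨e, he, hey, rfl⟩
      exact ⟨e, Finset.mem_filter.mpr ⟨he, hey⟩, rfl⟩
  have hJX : (J : Set (UU Ω)) ⊆ orb H x := by
    intro x' hx'
    obtain ⟨e, _, hey, rfl⟩ := (hJmem x').mp (Finset.mem_coe.mp hx')
    exact (hbel e hey).1
  -- the group Q
  set Q : Subgroup (Equiv.Perm Ω) := (fx ↥H B).map H.subtype with hQdef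
  have hQmem : ∀ q, q ∈ Q ↔ q ∈ H ∧ ∀ b ∈ B, q • b = b := by
    intro q
    rw [hQdef, Subgroup.mem_map]
    constructor
    · rintro ⟨g, hg, rfl⟩
      refine ⟨g.2, fun b hb => ?_⟩
      exact (mem_fixingSubgroup_iff _).mp hg b (Finset.mem_coe.mpr hb)
    · rintro ⟨hq, hqb⟩
      refine ⟨⟨q, hq⟩, ?_, rfl⟩
      rw [mem_fixingSubgroup_iff]
      intro b hb
      exact hqb b (Finset.mem_coe.mp hb)
  have hQH : Q ≤ H := fun q hq => ((hQmem q).mp hq).1
  have hQJ : ∀ q ∈ Q, ∀ x' ∈ J, q • x' = x' := by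
    intro q hq x' hx'
    obtain ⟨e, heB, hey, rfl⟩ := (hJmem x').mp hx'
    exact J4c_fix hT.le (hbel e hey).2.2 (hQH hq) (((hQmem q).mp hq).2 e heB)
  have hKKmem : ∀ k, k ∈ KK H S ↔ k ∈ H ∧ ∀ t ∈ S, k • t = t := by
    intro k
    unfold KK
    rw [Subgroup.mem_inf, mem_fixingSubgroup_iff]
  -- elements fixing S
  have hDone : ∀ k ∈ KK H S, ∀ x' ∈ orb H x, ∀ a : A,
      k • ρ a (s x') = ρ a (s x') ↔ D k x' = 1 := by
    intro k hk x' hx' a
    have hk' := (hKKmem k).mp hk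
    rw [coc_act hD hk'.1 hx' a, hk'.2 x' (hX hx')]
    constructor
    · intro h
      have := hT.free _ _ (s x') (hsE x' hx') h
      exact mul_eq_right.mp this
    · intro h
      rw [h, one_mul]
  have hQK : ∀ k ∈ KK H S, k ∈ Q ↔ ∀ x' ∈ J, D k x' = 1 := by
    intro k hk
    have hk' := (hKKmem k).mp hk
    constructor
    · intro hkQ x' hx'
      obtain ⟨e, heB, hey, rfl⟩ := (hJmem x').mp hx'
      obtain ⟨hb1, ⟨a, ha⟩, _⟩ := hbel e hey
      refine (hDone k hk _ hb1 a).mp ?_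
      rw [← ha]
      exact ((hQmem k).mp hkQ).2 e heB
    · intro h
      rw [hQmem]
      refine ⟨hk'.1, fun b hb => ?_⟩
      rcases hB (Finset.mem_coe.mpr hb) with hbS | hbE
      · exact hk'.2 b hbS
      · obtain ⟨hb1, ⟨a, ha⟩, _⟩ := hbel b hbE
        have := (hDone k hk _ hb1 a).mpr (h (bel b) ((hJmem _).mpr ⟨b, hb, hbE, rfl⟩))
        rw [← ha] at this
        exact this
  have hfxop : Op Ω (fx ↥H B) := op_fx hS'fin.toSInv hB
  obtain ⟨X₁, hX₁X, hX₁⟩ := lx_fin hNH hopx hD hX hSinv hon hfxop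
  -- the sets X₀, b₀, B₀
  set X₀ : Finset (UU Ω) := J ∪ X₁ with hX₀
  have hX₀X : ∀ x' ∈ X₀, x' ∈ orb H x := by
    intro x' hx'
    rw [hX₀, Finset.mem_union] at hx'
    rcases hx' with hx' | hx'
    · exact hJX (Finset.mem_coe.mpr hx')
    · exact hX₁X (Finset.mem_coe.mpr hx')
  set b₀ : Finset (UU Ω) := B.filter (fun e => e ∈ S) ∪ X₀ with hb₀
  set B₀ : Finset (UU Ω) := (B ∪ X₀) ∪ X₀.image s with hB₀
  have hB₀S : (B₀ : Set (UU Ω)) ⊆ S ∪ orb H y := by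
    intro e he
    rw [hB₀, Finset.mem_coe, Finset.mem_union, Finset.mem_union, Finset.mem_image] at he
    rcases he with (he | he) | ⟨x', hx', rfl⟩
    · exact hB (Finset.mem_coe.mpr he)
    · exact Or.inl (hX (hX₀X e he))
    · exact Or.inr (hsE x' (hX₀X x' hx'))
  have hb₀S : (b₀ : Set (UU Ω)) ⊆ S := by
    intro e he
    rw [hb₀, Finset.mem_coe, Finset.mem_union, Finset.mem_filter] at he
    rcases he with he | he
    · exact he.2
    · exact hX (hX₀X e he)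
  have hb₀B₀ : b₀ ⊆ B₀ := by
    intro e he
    rw [hb₀, Finset.mem_union, Finset.mem_filter] at he
    rw [hB₀, Finset.mem_union, Finset.mem_union]
    rcases he with he | he
    · exact Or.inl (Or.inl he.1)
    · exact Or.inl (Or.inr he)
  have hBB₀ : B ⊆ B₀ := by
    intro e he
    rw [hB₀, Finset.mem_union, Finset.mem_union]
    exact Or.inl (Or.inl he)
  refine ⟨B₀, b₀, hB₀S, hb₀S, hBB₀, fx_anti hb₀B₀, ?_, ?_⟩
  · have h1 : (fx ↥H B₀).relIndex (fx ↥H b₀) ≠ 0 := by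
      refine coc_fi hD b₀ B₀ ?_
      intro e he
      rw [hB₀, Finset.mem_union, Finset.mem_union, Finset.mem_image] at he
      rcases he with (he | he) | ⟨x', hx', rfl⟩
      · by_cases heS : e ∈ S
        · left
          rw [hb₀, Finset.mem_union, Finset.mem_filter]
          exact Or.inl ⟨he, heS⟩
        · right
          rcases hB (Finset.mem_coe.mpr he) with h | h
          · exact absurd h heS
          · refine ⟨bel e, ?_, (hbel e h).2.2⟩
            rw [hb₀, Finset.mem_union]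
            right
            rw [hX₀, Finset.mem_union]
            exact Or.inl ((hJmem _).mpr ⟨e, he, h, rfl⟩)
      · left
        rw [hb₀, Finset.mem_union]
        exact Or.inr he
      · right
        refine ⟨x', ?_, hD.sec x' (hX₀X x' hx')⟩
        rw [hb₀, Finset.mem_union]
        exact Or.inr hx'
    intro h2
    exact h1 (Subgroup.relIndex_eq_zero_of_le_left le_sup_left h2)
  · intro U hU hUS' hUB hUfi _ hUn k hk
    rw [Subgroup.mem_inf] at hk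
    have hkS : ∀ t ∈ S, k • t = t := (mem_fixingSubgroup_iff _).mp hk.1
    have hkB₀ : ∀ t ∈ B₀, k • t = t := fun t ht =>
      (mem_fixingSubgroup_iff _).mp hk.2 t (Finset.mem_coe.mpr ht)
    obtain ⟨B', hB'S, hB'U⟩ := supp_exists hNH hC hS'fin.toSInv hU hUS'
    set X₂ : Finset (UU Ω) := J ∪ (B'.filter (fun e => e ∈ orb H y)).image bel with hX₂def
    have hX₂X : (X₂ : Set (UU Ω)) ⊆ orb H x := by
      intro x' hx'
      rw [hX₂def, Finset.mem_coe, Finset.mem_union] at hx'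
      rcases hx' with hx' | hx'
      · exact hJX (Finset.mem_coe.mpr hx')
      · obtain ⟨e, he, rfl⟩ := Finset.mem_image.mp hx'
        rw [Finset.mem_filter] at he
        exact (hbel e he.2).1
    have hJ₂ : ∀ j ∈ J, j ∈ X₂ := by
      intro j hj
      rw [hX₂def, Finset.mem_union]
      exact Or.inl hj
    have hB'X₂ : ∀ e ∈ B', e ∈ S ∨ ∃ x' ∈ X₂, (x', e) ∈ orb H (x, y) := by
      intro e he
      rcases hB'S (Finset.mem_coe.mpr he) with h | h
      · exact Or.inl h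
      · right
        refine ⟨bel e, ?_, (hbel e h).2.2⟩
        rw [hX₂def, Finset.mem_union]
        exact Or.inr (Finset.mem_image.mpr ⟨e, Finset.mem_filter.mpr ⟨he, h⟩, rfl⟩)
    set R : Subgroup (Equiv.Perm Ω) := U.map H.subtype ⊓ KK H S with hR
    have hkKK : (k : Equiv.Perm Ω) ∈ KK H S := (hKKmem _).mpr ⟨k.2, hkS⟩
    have hRK : R ≤ KK H S := inf_le_right
    have hRQ : R ≤ KK H S ⊓ Q := by
      refine le_inf hRK ?_
      rw [hR, hQdef]
      exact inf_le_left.trans (Subgroup.map_mono hUB)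
    have hfi : R.relIndex (KK H S ⊓ Q) ≠ 0 := by
      have h1 : (U.map H.subtype).relIndex Q ≠ 0 := by
        rw [hQdef, Subgroup.relIndex_map_map_of_injective _ _ (Subgroup.subtype_injective H)]
        exact hUfi
      have h2 : (U.map H.subtype).relIndex (KK H S ⊓ Q) ≠ 0 := fun h =>
        h1 (Subgroup.relIndex_eq_zero_of_le_right inf_le_right h)
      rw [hR]
      refine Subgroup.relIndex_inf_ne_zero h2 ?_
      rw [Subgroup.relIndex_eq_one.mpr inf_le_left]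
      exact one_ne_zero
    have hn : ∀ q ∈ Q, ∀ u ∈ R, q * u * q⁻¹ ∈ R := by
      intro q hq u hu
      rw [hR, Subgroup.mem_inf, Subgroup.mem_map] at hu ⊢
      obtain ⟨⟨v, hvU, rfl⟩, hvK⟩ := hu
      have hqH := hQH hq
      have hqfx : (⟨q, hqH⟩ : ↥H) ∈ fx ↥H B := by
        rw [mem_fixingSubgroup_iff]
        intro b hb
        exact ((hQmem q).mp hq).2 b (Finset.mem_coe.mp hb)
      refine ⟨⟨⟨q, hqH⟩ * v * ⟨q, hqH⟩⁻¹, ?_, rfl⟩, ?_⟩
      · have h1 : (⟨q, hqH⟩ * v * ⟨q, hqH⟩⁻¹ : ↥H) ∈ cj (⟨q, hqH⟩ : ↥H) U := by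
          rw [mem_cj]
          have : (⟨q, hqH⟩⁻¹ * (⟨q, hqH⟩ * v * ⟨q, hqH⟩⁻¹) * ⟨q, hqH⟩ : ↥H) = v := by
            group
          rw [this]
          exact hvU
        rw [hUn _ hqfx] at h1
        exact h1
      · rw [hKKmem]
        refine ⟨H.mul_mem (H.mul_mem hqH v.2) (H.inv_mem hqH), fun t ht => ?_⟩
        have h1 : q⁻¹ • t ∈ S := hSinv _ (H.inv_mem hqH) t ht
        have h2 := ((hKKmem _).mp hvK).2 _ h1
        rw [mul_smul, mul_smul, h2, smul_inv_smul]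
    have hDk : ∀ x' ∈ X₀, D (k : Equiv.Perm Ω) x' = 1 := by
      intro x' hx'
      have hx'X := hX₀X x' hx'
      refine (hDone _ hkKK x' hx'X 1).mp ?_
      rw [hT.one _ (hsE x' hx'X)]
      refine hkB₀ (s x') ?_
      rw [hB₀, Finset.mem_union, Finset.mem_image]
      exact Or.inr ⟨x', hx', rfl⟩
    have hfix : ∀ k ∈ KK H S, ∀ x' : {z // z ∈ X₂}, k • (x' : UU Ω) = x' := by
      intro k hk x'
      exact ((hKKmem k).mp hk).2 _ (hX (hX₂X (Finset.mem_coe.mpr x'.2)))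
    let φ : ↥(KK H S) →* ({z // z ∈ X₂} → A) :=
      { toFun := fun k x' => D (k : Equiv.Perm Ω) x'
        map_one' := by
          funext x'
          have hx'X := hX₂X (Finset.mem_coe.mpr x'.2)
          refine (hDone 1 (KK H S).one_mem x' hx'X 1).mp ?_
          rw [one_smul]
        map_mul' := by
          intro k l
          funext x'
          have hx'X := hX₂X (Finset.mem_coe.mpr x'.2)
          show D ((k : Equiv.Perm Ω) * (l : Equiv.Perm Ω)) x' = D k x' * D l x'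
          rw [coc_mul hD ((hKKmem _).mp k.2).1 ((hKKmem _).mp l.2).1 hx'X, hfix _ l.2] }
    have hφ : ∀ (k : ↥(KK H S)) (x' : {z // z ∈ X₂}), φ k x' = D (k : Equiv.Perm Ω) x' :=
      fun _ _ => rfl
    have hSdp : Sdp φ.range := by
      intro i a
      obtain ⟨k, hk, hka⟩ := hon i (hX₂X (Finset.mem_coe.mpr i.2)) a
      exact ⟨φ ⟨k, hk⟩, ⟨_, rfl⟩, hka⟩
    have hvU : φ ⟨k, hkKK⟩ ∈ (R.subgroupOf (KK H S)).map φ := by
      refine gou_normal hA hSdp {i | (i : UU Ω) ∈ J} _ ?_ ?_ ?_ ⟨_, rfl⟩ ?_ ?_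
      · rintro _ ⟨r, _, rfl⟩
        exact ⟨r, rfl⟩
      · rintro _ ⟨r, hr, rfl⟩ j hj
        rw [hφ]
        have h1 : (r : Equiv.Perm Ω) ∈ R := hr
        exact (hQK _ r.2).mp (hRQ h1).2 _ hj
      · rintro _ ⟨d, rfl⟩ hdJ _ ⟨r, hr, rfl⟩
        refine ⟨d * r * d⁻¹, ?_, by simp⟩
        by_cases hJX₂ : ∀ j ∈ J, j ∈ X₂
        · have hdQ : (d : Equiv.Perm Ω) ∈ Q := (hQK _ d.2).mpr fun j hj => hdJ ⟨j, hJX₂ j hj⟩ hj
          exact hn _ hdQ _ hr
        · exact absurd hJ₂ hJX₂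
      · intro j hj
        rw [hφ]
        refine hDk j ?_
        rw [hX₀, Finset.mem_union]
        exact Or.inl hj
      · intro i hi
        rw [hφ]
        have hiX : (i : UU Ω) ∈ orb H x := hX₂X (Finset.mem_coe.mpr i.2)
        have hlink : ∀ x₀ ∈ X₀, LX H S D i x₀ → D (k : Equiv.Perm Ω) i = 1 := by
          intro x₀ hx₀ hl
          obtain ⟨ψ, hψ⟩ := lx_iso hD hX hon hiX (hX₀X x₀ hx₀) hl
          have h1 := hψ _ hkKK
          rw [hDk x₀ hx₀] at h1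
          exact (map_eq_one_iff ψ ψ.injective).mp h1.symm
        by_cases hl : ∃ j ∈ J, LX H S D i j
        · obtain ⟨j, hj, hl⟩ := hl
          refine hlink j ?_ hl
          rw [hX₀, Finset.mem_union]
          exact Or.inl hj
        · push Not at hl
          have hiR : ∀ u ∈ R, D u i = 1 := by
            intro u hu
            exact hi (φ ⟨u, hRK hu⟩) ⟨⟨u, hRK hu⟩, hu, rfl⟩
          obtain ⟨F, hF, hF'⟩ := lx_orbit_fin hA hD hX hSinv hon J hJX Q R hQH hQJ hQK hRQ hfi hn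
            hiX hl hiR
          obtain ⟨x₀, hx₀, hl₀⟩ := hX₁ i hiX ⟨F, hF, fun q hq => hF' q ⟨q, hq, rfl⟩⟩
          refine hlink x₀ ?_ hl₀
          rw [hX₀, Finset.mem_union]
          exact Or.inr hx₀
    obtain ⟨r, hr, hrk⟩ := hvU
    have hrR : (r : Equiv.Perm Ω) ∈ R := hr
    rw [hR, Subgroup.mem_inf, Subgroup.mem_map] at hrR
    obtain ⟨⟨u, huU, hur⟩, hrK⟩ := hrR
    refine coc_lift hD hX hB'U X₂ hX₂X hB'X₂ hkS (u := u) ?_ huU ?_
    · intro t ht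
      have h1 := ((hKKmem _).mp hrK).2 t ht
      rw [← hur] at h1
      exact h1
    · intro x' hx'
      have h1 := congrFun hrk ⟨x', hx'⟩
      rw [hφ, hφ] at h1
      have h2 : (r : Equiv.Perm Ω) = (u : Equiv.Perm Ω) := hur.symm
      rw [h2] at h1
      exact h1

end Pool.Agent.Lib.ThC

end

section

/-! # K3e: torsors under a nonabelian simple group: the uniform finite index property -/

set_option autoImplicit false
open scoped Pointwise

namespace Pool.Agent.Lib.ThC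

variable {Ω A : Type} [Group A]

/-- The step for torsors under a nonabelian simple group (if `KK H S` acts trivially on `E` then
`fixingSubgroup S ≤ st y`, so `fx B ≤ st y` for some finite `B ⊆ S` (`supp_exists`) and
`good_int` applies). -/
theorem good_na [Countable Ω] [Finite A] [IsSimpleGroup A]
    (hA : ∃ a b : A, a * b ≠ b * a) {G H : Subgroup (Equiv.Perm Ω)}
    (hN : Nice Ω ↥G) (hGH : G ≤ H) (hC : Cpl Ω ↥H) {x y : UU Ω} {ρ : A → UU Ω → UU Ω}
    (hT : Tors A H x y ρ) (hx : Op Ω (st ↥H x))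
    {S : Set (UU Ω)} (hS : Good G H S) (hX : orb H x ⊆ S) :
    Good G H (S ∪ MulAction.orbit ↥H y) := by
  obtain ⟨s, D, hD, hDn⟩ := coc_exists G H hx hT
  have hNH : Nice Ω ↥H := nice_mono hN hGH
  have hSinv : ∀ h ∈ H, ∀ t ∈ S, h • t ∈ S := fun h hh t ht => hS.fin.inv ⟨h, hh⟩ t ht
  have hxx : x ∈ orb H x := mem_orb_self H x
  rcases coc_dich hD hX hSinv with htr | hon
  · have hle : fixingSubgroup ↥H S ≤ st ↥H y := by
      intro g hg
      have hgS : ∀ t ∈ S, (g : Equiv.Perm Ω) • t = t := fun t ht =>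
        (mem_fixingSubgroup_iff ↥H).1 hg t ht
      have hgK : (g : Equiv.Perm Ω) ∈ KK H S :=
        ⟨g.2, (mem_fixingSubgroup_iff (Equiv.Perm Ω)).2 hgS⟩
      have h1 : D (g : Equiv.Perm Ω) x = 1 := htr _ hgK x hxx
      have h2 : (x, s x) ∈ orb H (x, y) := hD.sec x hxx
      obtain ⟨a, ha⟩ := (tors_fib hT h2 y).1 (mem_orb_self H (x, y))
      have h3 := coc_act hD g.2 hxx a
      rw [h1, one_mul, hgS x (hX hxx), ← ha] at h3
      exact h3
    have hop : Op Ω (st ↥H y) := hT.op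
    obtain ⟨B, hB, hBy⟩ := supp_exists hNH hC hS.fin.toSInv hop hle
    exact good_int hN hGH hC hS y B hB hBy
  · have hfin : SFin Ω ↥H (S ∪ MulAction.orbit ↥H y) := sfin_union hS.fin (sfin_orbit hT.op)
    refine ⟨hfin, ?_, ?_⟩
    · have h1 := near_uniform G H hNH hfin 0
      have h2 := near_agr_na hA hN hGH hC hD hDn hS hX hon
      refine near_mono (near_and h1 h2) ?_
      intro H' _ _ h
      refine ⟨h.1.1, ?_⟩
      rw [orbit_eq_orb]
      exact h.2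
    · rw [orbit_eq_orb]
      exact gf_na hA hN hGH hC hD hS hX hon

end Pool.Agent.Lib.ThC

end
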