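import Pool.Agent.Lib.MP_f9507c_lc.P21

section

/-! # L1a: the algebraic step and the free step -/

set_option autoImplicit false
open scoped Pointwise

namespace Pool.Agent.Lib.ThC

variable {Ω : Type}

/-- A finite quotient `φ : P₀ → A` with kernel `P₁` gives a torsor: `ρ a (h y) = h g_a y` where
`φ g_a = a`.  (`st y = P₁` is normal in `P₀ = st x`.) -/
theorem tors_exists {A : Type} [Group A] {H : Subgroup (Equiv.Perm Ω)} {x y : UU Ω}
    (hy : Op Ω (st ↥H y)) (hle : st ↥H y ≤ st ↥H x) (φ : ↥(st ↥H x) →* A)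
    (hφ : Function.Surjective φ)
    (hk : ∀ g : ↥(st ↥H x), φ g = 1 ↔ (g : ↥H) ∈ st ↥H y) :
    ∃ ρ : A → UU Ω → UU Ω, Tors A H x y ρ := by
  classical
  choose g hg using hφ
  -- equality on y
  have key : ∀ u v : ↥(st ↥H x), (u : ↥H) • y = (v : ↥H) • y ↔ φ u = φ v := by
    intro u v
    rw [← inv_mul_eq_one (a := φ u), ← map_inv, ← map_mul, hk]
    change _ ↔ ((u⁻¹ * v : ↥(st ↥H x)) : ↥H) • y = y
    rw [Subgroup.coe_mul, Subgroup.coe_inv, mul_smul, inv_smul_eq_iff]
    exact ⟨fun h => h.symm, fun h => h.symm⟩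
  let ρ : A → UU Ω → UU Ω := fun a e =>
    if h : ∃ k : ↥H, k • y = e then h.choose • (g a : ↥H) • y else e
  have hρ : ∀ (a : A) (k : ↥H), ρ a (k • y) = k • (g a : ↥H) • y := by
    intro a k
    have h : ∃ k' : ↥H, k' • y = k • y := ⟨k, rfl⟩
    have h1 : ρ a (k • y) = h.choose • (g a : ↥H) • y := dif_pos h
    rw [h1]
    have h2 := h.choose_spec
    set k' := h.choose
    have h3 : k⁻¹ * k' ∈ st ↥H y := by
      change (k⁻¹ * k') • y = y
      rw [mul_smul, h2, inv_smul_smul]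
    have h4 : k⁻¹ * k' ∈ st ↥H x := hle h3
    have h5 : (((⟨k⁻¹ * k', h4⟩ : ↥(st ↥H x)) * g a : ↥(st ↥H x)) : ↥H) • y = (g a : ↥H) • y := by
      rw [key, map_mul, (hk ⟨k⁻¹ * k', h4⟩).2 h3, one_mul]
    rw [Subgroup.coe_mul, mul_smul, mul_smul, inv_smul_eq_iff] at h5
    exact h5
  have horb : ∀ e : UU Ω, e ∈ orb H y → ∃ k : ↥H, k • y = e := by
    rintro e ⟨k, hk, rfl⟩
    exact ⟨⟨k, hk⟩, rfl⟩
  refine ⟨ρ, hy, hle, ?_, ?_, ?_, ?_, ?_, ?_⟩
  · intro e he
    obtain ⟨k, rfl⟩ := horb e he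
    rw [hρ]
    congr 1
    have h1 := (key (g 1) 1).2 (by rw [hg, map_one])
    rwa [Subgroup.coe_one, one_smul] at h1
  · intro a b e he
    obtain ⟨k, rfl⟩ := horb e he
    rw [hρ (a * b), hρ a, ← mul_smul k (g a : ↥H) y, hρ b, mul_smul]
    congr 1
    rw [← mul_smul, ← Subgroup.coe_mul, key, map_mul, hg, hg, hg]
  · intro a e he
    obtain ⟨k, rfl⟩ := horb e he
    rw [hρ, ← mul_smul]
    exact ⟨((k * (g a : ↥H) : ↥H) : Equiv.Perm Ω), (k * (g a : ↥H)).2, rfl⟩
  · intro h hh a e he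
    obtain ⟨k, rfl⟩ := horb e he
    have h1 : h • k • y = ((⟨h, hh⟩ : ↥H) * k) • y := by
      rw [mul_smul]; rfl
    rw [h1, hρ, hρ, mul_smul]
    rfl
  · intro a b e he h
    obtain ⟨k, rfl⟩ := horb e he
    rw [hρ, hρ, smul_left_cancel_iff, key, hg, hg] at h
    exact h
  · intro e
    constructor
    · rintro ⟨h, hh, he⟩
      have h1 : h • x = x := congrArg Prod.fst he
      have h2 : h • y = e := congrArg Prod.snd he
      have h3 : (⟨h, hh⟩ : ↥H) ∈ st ↥H x := h1
      refine ⟨φ ⟨⟨h, hh⟩, h3⟩, ?_⟩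
      have h4 := hρ (φ ⟨⟨h, hh⟩, h3⟩) 1
      rw [one_smul, one_smul] at h4
      rw [h4, ← h2]
      have h5 := (key ⟨⟨h, hh⟩, h3⟩ (g (φ ⟨⟨h, hh⟩, h3⟩))).2 (by rw [hg])
      exact h5
    · rintro ⟨a, rfl⟩
      have h4 := hρ a 1
      rw [one_smul, one_smul] at h4
      rw [h4]
      refine ⟨((g a : ↥H) : Equiv.Perm Ω), (g a : ↥H).2, ?_⟩
      rw [Prod.smul_mk]
      have h5 : ((g a : ↥H) : Equiv.Perm Ω) • x = x := (g a).2
      rw [h5]
      rfl

section
variable {Γ Z : Type} [Group Γ] [MulAction Γ Ω] [MulAction Γ Z]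

end

end Pool.Agent.Lib.ThC

end

section

/-! # L1b: the algebraic step and the free step -/

set_option autoImplicit false
open scoped Pointwise

namespace Pool.Agent.Lib.ThC

variable {Ω : Type}

/-- The step for any finite simple quotient: `good_p` if `A` is abelian
(`A ≃* Multiplicative (ZMod p)`), `good_na` otherwise. -/
theorem good_simple [Countable Ω] {A : Type} [Group A] [Finite A] [IsSimpleGroup A]
    {G H : Subgroup (Equiv.Perm Ω)}
    (hN : Nice Ω ↥G) (hCG : Cpl Ω ↥G) (hGH : G ≤ H) (hC : Cpl Ω ↥H) {x y : UU Ω}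
    (hx : Op Ω (st ↥H x)) (hy : Op Ω (st ↥H y)) (hle : st ↥H y ≤ st ↥H x)
    (φ : ↥(st ↥H x) →* A) (hφ : Function.Surjective φ)
    (hk : ∀ g : ↥(st ↥H x), φ g = 1 ↔ (g : ↥H) ∈ st ↥H y)
    {S : Set (UU Ω)} (hS : Good G H S) (hX : orb H x ⊆ S) :
    Good G H (S ∪ MulAction.orbit ↥H y) := by
  by_cases hA : ∃ a b : A, a * b ≠ b * a
  · obtain ⟨ρ, hT⟩ := tors_exists hy hle φ hφ hk
    exact good_na hA hN hGH hC hT hx hS hX
  · have hA' : ∀ a b : A, a * b = b * a := by
      intro a b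
      by_contra h
      exact hA ⟨a, b, h⟩
    let instC : CommGroup A := { (inferInstance : Group A) with mul_comm := hA' }
    have hcyc : IsCyclic A := IsSimpleGroup.isCyclic
    have hp : Fact (Nat.card A).Prime := ⟨IsSimpleGroup.prime_card⟩
    let e : A ≃* Multiplicative (ZMod (Nat.card A)) := (zmodCyclicMulEquiv hcyc).symm
    obtain ⟨ρ, hT⟩ := tors_exists (A := Multiplicative (ZMod (Nat.card A))) hy hle
      (e.toMonoidHom.comp φ) (e.surjective.comp hφ) (fun g => by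
        rw [← hk g]
        change e (φ g) = 1 ↔ _
        rw [map_eq_one_iff e e.injective])
    exact good_p hN hCG hGH hC hT hx hS hX

section
variable {Γ Z : Type} [Group Γ] [MulAction Γ Ω] [MulAction Γ Z]

end

end Pool.Agent.Lib.ThC

end

section

/-! # L1c: the algebraic step and the free step -/

set_option autoImplicit false
open scoped Pointwise

namespace Pool.Agent.Lib.ThC

variable {Ω : Type}

/-- A proper normal subgroup of finite index lies in a normal subgroup with finite simple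
quotient. -/
private theorem L1c_max {P : Type} [Group P] (N : Subgroup P) [N.Normal] (hN : N ≠ ⊤)
    (hfi : N.index ≠ 0) : ∃ (M : Subgroup P) (_ : M.Normal), N ≤ M ∧ M ≠ ⊤ ∧ M.index ≠ 0 ∧
      IsSimpleGroup (P ⧸ M) := by
  classical
  let Q : ℕ → Prop := fun k => ∃ M : Subgroup P, M.Normal ∧ N ≤ M ∧ M ≠ ⊤ ∧ M.index = k
  have hQ : ∃ k, Q k := ⟨_, N, inferInstance, le_rfl, hN, rfl⟩
  obtain ⟨M, hM, hNM, hMt, hMi⟩ := Nat.find_spec hQ
  have hMfi : M.index ≠ 0 := fun h => hfi (Nat.eq_zero_of_zero_dvd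
    (h ▸ Subgroup.index_dvd_of_le hNM))
  refine ⟨M, hM, hNM, hMt, hMfi, ?_⟩
  have hnt : Nontrivial (P ⧸ M) := by
    by_contra h
    rw [not_nontrivial_iff_subsingleton] at h
    exact hMt (QuotientGroup.subsingleton_iff.1 h)
  refine { toNontrivial := hnt, eq_bot_or_eq_top_of_normal := ?_ }
  intro K hK
  by_cases hKt : K.comap (QuotientGroup.mk' M) = ⊤
  · right
    rw [← Subgroup.map_comap_eq_self_of_surjective (QuotientGroup.mk'_surjective M) K, hKt,
      ← MonoidHom.range_eq_map, MonoidHom.range_eq_top]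
    exact QuotientGroup.mk'_surjective M
  · left
    have h1 : M ≤ K.comap (QuotientGroup.mk' M) := by
      intro m hm
      rw [Subgroup.mem_comap]
      have h2 : QuotientGroup.mk' M m = 1 := (QuotientGroup.eq_one_iff m).2 hm
      rw [h2]
      exact K.one_mem
    have h3 : Nat.find hQ ≤ (K.comap (QuotientGroup.mk' M)).index :=
      Nat.find_min' hQ ⟨_, inferInstance, hNM.trans h1, hKt, rfl⟩
    have h4 : M.relIndex (K.comap (QuotientGroup.mk' M)) *
        (K.comap (QuotientGroup.mk' M)).index = M.index := Subgroup.relIndex_mul_index h1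
    have h5 : M.relIndex (K.comap (QuotientGroup.mk' M)) = 1 := by
      rw [hMi] at h4 hMfi
      have h6 : 0 < Nat.find hQ := Nat.pos_of_ne_zero hMfi
      nlinarith [Nat.zero_le (M.relIndex (K.comap (QuotientGroup.mk' M)))]
    have h6 : K.comap (QuotientGroup.mk' M) ≤ M := Subgroup.relIndex_eq_one.1 h5
    rw [eq_bot_iff]
    intro k hk
    obtain ⟨m, rfl⟩ := QuotientGroup.mk'_surjective M k
    rw [Subgroup.mem_bot]
    exact (QuotientGroup.eq_one_iff m).2 (h6 hk)

/-- Going down to a normal subgroup of finite index.  Induction on the index of `Q₀` in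
`P₀ = st x`, `x ∈ S`: if `Q₀ ≠ P₀` choose a maximal proper normal subgroup `P₁` of `P₀` containing `Q₀`; `P₀/P₁` is
finite simple; `uu_rich` gives `y` with `st y = P₁`; `good_simple`; `Q₀` is normal in
`P₁`. -/
theorem good_normal [Countable Ω] {G H : Subgroup (Equiv.Perm Ω)}
    (hN : Nice Ω ↥G) (hCG : Cpl Ω ↥G) (hGH : G ≤ H) (hC : Cpl Ω ↥H) (n : ℕ) :
    ∀ (x : UU Ω) (Q₀ : Subgroup ↥H) (S : Set (UU Ω)), Good G H S → x ∈ S → Op Ω Q₀ →
      Q₀ ≤ st ↥H x → (∀ g ∈ st ↥H x, cj g Q₀ = Q₀) → Q₀.relIndex (st ↥H x) ≠ 0 →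
      Q₀.relIndex (st ↥H x) ≤ n →
      ∃ S' : Set (UU Ω), S ⊆ S' ∧ Good G H S' ∧ ∃ z ∈ S', st ↥H z = Q₀ := by
  induction n with
  | zero =>
    intro x Q₀ S _ _ _ _ _ h1 h2
    exact absurd (Nat.le_zero.1 h2) h1
  | succ n ih =>
    intro x Q₀ S hS hx hop hle hcj h1 h2
    by_cases hQ : Q₀ = st ↥H x
    · exact ⟨S, le_rfl, hS, x, hx, hQ.symm⟩
    · have hnorm : (Q₀.subgroupOf (st ↥H x)).Normal := by
        refine ⟨fun m hm g => ?_⟩
        rw [Subgroup.mem_subgroupOf] at hm ⊢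
        rw [← hcj (g : ↥H) g.2, mem_cj]
        simpa [mul_assoc] using hm
      have hne : Q₀.subgroupOf (st ↥H x) ≠ ⊤ := by
        intro h
        exact hQ (le_antisymm hle (Subgroup.subgroupOf_eq_top.1 h))
      obtain ⟨M, hM, hNM, hMt, hMi, hsimp⟩ := L1c_max (Q₀.subgroupOf (st ↥H x)) hne h1
      have hfi : M.FiniteIndex := ⟨hMi⟩
      have hfin : Finite (↥(st ↥H x) ⧸ M) := Subgroup.finite_quotient_of_finiteIndex (H := M)
      let P₁ : Subgroup ↥H := M.map (st ↥H x).subtype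
      have hP₁ : P₁ ≤ st ↥H x := by
        rintro _ ⟨m, _, rfl⟩
        exact m.2
      have hQP : Q₀ ≤ P₁ := by
        intro q hq
        exact ⟨⟨q, hle hq⟩, hNM (Subgroup.mem_subgroupOf.2 hq), rfl⟩
      have hsub : P₁.subgroupOf (st ↥H x) = M := by
        ext m
        rw [Subgroup.mem_subgroupOf]
        constructor
        · rintro ⟨m', hm', h⟩
          have : m' = m := Subtype.ext h
          exact this ▸ hm'
        · intro hm
          exact ⟨m, hm, rfl⟩
      obtain ⟨y, hy⟩ := uu_rich H P₁ (op_mono hop hQP)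
      have hg : Good G H (S ∪ MulAction.orbit ↥H y) := by
        refine good_simple (A := ↥(st ↥H x) ⧸ M) hN hCG hGH hC (op_mono hop hle)
          (by rw [hy]; exact op_mono hop hQP) (by rw [hy]; exact hP₁) (QuotientGroup.mk' M)
          (QuotientGroup.mk'_surjective M) ?_ hS ?_
        · intro g
          rw [hy]
          constructor
          · intro hg
            exact ⟨g, (QuotientGroup.eq_one_iff g).1 hg, rfl⟩
          · intro hg
            refine (QuotientGroup.eq_one_iff g).2 ?_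
            rw [← hsub, Subgroup.mem_subgroupOf]
            exact hg
        · rintro _ ⟨g, hg, rfl⟩
          exact hS.fin.inv ⟨g, hg⟩ x hx
      have hrel : Q₀.relIndex P₁ * P₁.relIndex (st ↥H x) = Q₀.relIndex (st ↥H x) :=
        Subgroup.relIndex_mul_relIndex Q₀ P₁ (st ↥H x) hQP hP₁
      have hP1 : P₁.relIndex (st ↥H x) ≠ 1 := by
        intro h
        have h3 := Subgroup.relIndex_eq_one.1 h
        apply hMt
        rw [← hsub]
        exact Subgroup.subgroupOf_eq_top.2 h3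
      have hP0 : P₁.relIndex (st ↥H x) ≠ 0 := by
        intro h
        rw [h, mul_zero] at hrel
        exact h1 hrel.symm
      have hQ0 : Q₀.relIndex P₁ ≠ 0 := by
        intro h
        rw [h, zero_mul] at hrel
        exact h1 hrel.symm
      have hQn : Q₀.relIndex P₁ ≤ n := by
        have h3 : 2 ≤ P₁.relIndex (st ↥H x) := by omega
        have h4 : 0 < Q₀.relIndex P₁ := Nat.pos_of_ne_zero hQ0
        nlinarith
      obtain ⟨S', hSS', hS', z, hz, hz'⟩ := ih y Q₀ (S ∪ MulAction.orbit ↥H y) hg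
        (Or.inr (MulAction.mem_orbit_self y)) hop (by rw [hy]; exact hQP)
        (fun g hg => hcj g (by rw [hy] at hg; exact hP₁ hg)) (by rw [hy]; exact hQ0)
        (by rw [hy]; exact hQn)
      exact ⟨S', Set.subset_union_left.trans hSS', hS', z, hz, hz'⟩

section
variable {Γ Z : Type} [Group Γ] [MulAction Γ Ω] [MulAction Γ Z]

end

end Pool.Agent.Lib.ThC

end

section

/-! # L1d: the algebraic step and the free step -/

set_option autoImplicit false
open scoped Pointwise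

namespace Pool.Agent.Lib.ThC

variable {Ω : Type}

/-- The algebraic step.  `P₀ = fx B`, `Q₀` = the kernel of the action of `P₀` on the finite orbit
`P₀ y`.  `uu_rich`: `x` with `st x = P₀`, add it by `good_int`; `good_normal`; then add `y` by `good_int` for the
finite set `{z}`; descend by `good_sub`. -/
theorem good_alg [Countable Ω] {G H : Subgroup (Equiv.Perm Ω)}
    (hN : Nice Ω ↥G) (hCG : Cpl Ω ↥G) (hGH : G ≤ H) (hC : Cpl Ω ↥H) {S : Set (UU Ω)}
    (hS : Good G H S) (y : UU Ω) (hy : Op Ω (st ↥H y)) (B : Finset (UU Ω))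
    (hB : (B : Set (UU Ω)) ⊆ S) (hf : (orb (fx ↥H B) y).Finite) :
    Good G H (S ∪ MulAction.orbit ↥H y) := by
  classical
  have hP : Op Ω (fx ↥H B) := op_fx hS.fin.toSInv hB
  obtain ⟨x, hx⟩ := uu_rich H (fx ↥H B) hP
  let F : Finset (UU Ω) := hf.toFinset
  have hF : ∀ z, z ∈ F ↔ z ∈ orb (fx ↥H B) y := fun z => hf.mem_toFinset
  have hyF : y ∈ F := (hF y).2 (mem_orb_self _ y)
  have hFop : Op Ω (fx ↥H F) := by
    apply op_fx (S := MulAction.orbit ↥H y) (sfin_orbit hy).toSInv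
    intro z hz
    obtain ⟨g, _, hgz⟩ := (hF z).1 hz
    exact ⟨g, hgz⟩
  have hQop : Op Ω (fx ↥H B ⊓ fx ↥H F) := op_inf hP hFop
  have hconj : ∀ g ∈ st ↥H x, cj g (fx ↥H B ⊓ fx ↥H F) = fx ↥H B ⊓ fx ↥H F := by
    intro g hg
    rw [hx] at hg
    rw [cj_inf, cj_eq_of_mem hg, cj_fx]
    have h1 : ∀ I : DecidableEq (UU Ω), @Finset.image _ _ I (fun b => g • b) F = F := by
      intro I
      apply Finset.eq_of_subset_of_card_le
      · intro z hz
        obtain ⟨b, hb, rfl⟩ := Finset.mem_image.mp hz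
        rw [hF] at hb ⊢
        obtain ⟨k, hk, rfl⟩ := hb
        exact ⟨g * k, (fx ↥H B).mul_mem hg hk, mul_smul g k y⟩
      · rw [Finset.card_image_of_injective _ (MulAction.injective g)]
    rw [h1]
  have hfi : (fx ↥H B ⊓ fx ↥H F).relIndex (st ↥H x) ≠ 0 := by
    rw [hx]
    have h1 : fx ↥H F = ⨅ z : {z // z ∈ F}, st ↥H z.1 := by
      ext g
      rw [mem_fixingSubgroup_iff, Subgroup.mem_iInf]
      constructor
      · intro h z
        exact MulAction.mem_stabilizer_iff.2 (h z.1 z.2)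
      · intro h z hz
        exact MulAction.mem_stabilizer_iff.1 (h ⟨z, hz⟩)
    have h2 : (fx ↥H F).relIndex (fx ↥H B) ≠ 0 := by
      rw [h1]
      apply Subgroup.relIndex_iInf_ne_zero
      intro z
      rw [← orb_finite_iff, orb_eq_of_mem ((hF z.1).1 z.2)]
      exact hf
    rw [inf_comm, Subgroup.inf_relIndex_right]
    exact h2
  have hG1 : Good G H (S ∪ MulAction.orbit ↥H x) :=
    good_int hN hGH hC hS x B hB hx.ge
  obtain ⟨S', hSS', hS', z, hz, hzQ⟩ := good_normal hN hCG hGH hC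
    ((fx ↥H B ⊓ fx ↥H F).relIndex (st ↥H x)) x (fx ↥H B ⊓ fx ↥H F) _ hG1
    (Or.inr (MulAction.mem_orbit_self x)) hQop (by rw [hx]; exact inf_le_left) hconj hfi le_rfl
  have hG2 : Good G H (S' ∪ MulAction.orbit ↥H y) := by
    apply good_int hN hGH hC hS' y {z}
    · intro w hw
      rw [Finset.coe_singleton, Set.mem_singleton_iff] at hw
      rw [hw]
      exact hz
    · intro g hg
      rw [mem_fixingSubgroup_iff] at hg
      have h1 : g ∈ st ↥H z := MulAction.mem_stabilizer_iff.2 (hg z (by simp))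
      rw [hzQ] at h1
      have h2 := (mem_fixingSubgroup_iff _).1 h1.2
      exact MulAction.mem_stabilizer_iff.2 (h2 y hyF)
  refine good_sub hN hGH hC (sfin_union hS.fin (sfin_orbit hy)) ?_ hG2
  exact Set.union_subset_union_left _ (Set.subset_union_left.trans hSS')

section
variable {Γ Z : Type} [Group Γ] [MulAction Γ Ω] [MulAction Γ Z]

end

end Pool.Agent.Lib.ThC

end

section

/-! # L1e: the algebraic step and the free step -/

set_option autoImplicit false
open scoped Pointwise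

namespace Pool.Agent.Lib.ThC

variable {Ω : Type}

/-- the orbit of `w` under the stabiliser of `c` is determined by the orbit of `(c, w)`. -/
private theorem L1e_orb {H H' : Subgroup (Equiv.Perm Ω)} {w c : UU Ω}
    (ho : orb H (c, w) = orb H' (c, w)) : orb (st ↥H c) w ⊆ orb (st ↥H' c) w := by
  rintro _ ⟨g, hg, rfl⟩
  have h1 : (g : Equiv.Perm Ω) • c = c := hg
  have h2 : (c, (g : Equiv.Perm Ω) • w) ∈ orb H' (c, w) := by
    rw [← ho]
    exact ⟨g, g.2, by rw [Prod.smul_mk, h1]⟩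
  obtain ⟨k, hk, hk1⟩ := h2
  have h3 : k • c = c := congrArg Prod.fst hk1
  have h4 : k • w = (g : Equiv.Perm Ω) • w := congrArg Prod.snd hk1
  exact ⟨⟨k, hk⟩, h3, h4⟩

private theorem L1e_move {H H' : Subgroup (Equiv.Perm Ω)} {w c : UU Ω}
    (ho : orb H (c, w) = orb H' (c, w)) {g : Equiv.Perm Ω} (hg : g ∈ H) :
    ∃ k ∈ H', k • c = g • c ∧ k • w = g • w := by
  have h1 : (g • c, g • w) ∈ orb H' (c, w) := by
    rw [← ho]
    exact ⟨g, hg, by rw [Prod.smul_mk]⟩
  obtain ⟨k, hk, hk1⟩ := h1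
  exact ⟨k, hk, congrArg Prod.fst hk1, congrArg Prod.snd hk1⟩

/-- Near `H` the orbit of `w` is free over `S`: for `H'` near `H` the orbits on `8`-tuples of elements of
`S ∪ H w` agree (`near_uniform`), so `FreeN 4` passes to `H'`
(and `(st w).relIndex (st c) = 0` passes since `orb H' (c, w) = orb H (c, w)`);
`free_of_freeN` for `H'`. -/
theorem near_free [Countable Ω] {G H : Subgroup (Equiv.Perm Ω)}
    (hN : Nice Ω ↥G) (hGH : G ≤ H) (hC : Cpl Ω ↥H) {S : Set (UU Ω)}
    (hS : Good G H S) {w c : UU Ω} (hF : FreeStep Ω ↥H S w c) :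
    Near G H (fun H' => FreeStep Ω ↥H' S w c) := by
  classical
  have hSF : SFin Ω ↥H (S ∪ MulAction.orbit ↥H w) := sfin_union hS.fin (sfin_orbit hF.hw)
  have hall := near_forall_fin (G := G) (H := H) (s := Set.Iic 8) (Set.finite_Iic 8)
    (Q := fun k H' => SFin Ω ↥H' (S ∪ MulAction.orbit ↥H w) ∧
      ∀ y : Fin k → UU Ω, (∀ i, y i ∈ S ∪ MulAction.orbit ↥H w) → orb H y = orb H' y)
    (fun k _ => near_uniform G H (nice_mono hN hGH) hSF k)
  refine near_mono (near_and (near_and hS.near hall) (near_and (near_op G H w hF.hw)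
    (near_orb_two G H c w (hS.fin.sm c hF.hc) hF.hw))) ?_
  rintro H' hGH' hC' ⟨⟨⟨hSF', hAg⟩, hall'⟩, hop, ho⟩
  have hwc : st ↥H' w ≤ st ↥H' c := by
    intro g hg
    have h1 : (g : Equiv.Perm Ω) • w = w := hg
    obtain ⟨k, hk, hk1, hk2⟩ := L1e_move ho.symm g.2
    have h2 : (⟨k, hk⟩ : ↥H) ∈ st ↥H w := by
      show k • w = w
      rw [hk2, h1]
    have h3 : k • c = c := hF.hwc h2
    show (g : Equiv.Perm Ω) • c = c
    rw [← hk1, h3]
  have hinf : (st ↥H' w).relIndex (st ↥H' c) = 0 := by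
    by_contra hne
    have h1 : (orb (st ↥H' c) w).Finite := (orb_finite_iff _ _).2 hne
    exact (orb_finite_iff _ _).1 (h1.subset (L1e_orb ho)) hF.inf
  refine ⟨hF.hc, hop, hwc, hinf, free_of_freeN (nice_mono hN hGH') hSF'.toSInv hF.hc hop hwc hinf
    ?_⟩
  intro B hB hBc n hn g g' hg hg' hgg
  have hmv : ∀ f : Fin n → ↥H', ∀ i, ∃ k : ↥H, k • c = f i • c ∧ k • w = f i • w := by
    intro f i
    obtain ⟨k, hk, hk1, hk2⟩ := L1e_move ho.symm (f i).2
    exact ⟨⟨k, hk⟩, hk1, hk2⟩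
  choose k hk1 hk2 using hmv g
  choose k' hk1' hk2' using hmv g'
  obtain ⟨h, hhB, hhk⟩ := hF.free B hB n k k' (by simpa only [hk2] using hg)
    (by simpa only [hk2'] using hg') (fun i => by rw [hk1, hk1', hgg])
  let y : Fin (B.card + n) → UU Ω :=
    Fin.append (fun i => ((B.equivFin.symm i : B) : UU Ω)) (fun i => g i • w)
  have hy : ∀ i, y i ∈ S ∪ MulAction.orbit ↥H w := by
    intro i
    refine Fin.addCases (fun i => ?_) (fun i => ?_) i
    · left
      simp only [y, Fin.append_left]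
      exact hB (B.equivFin.symm i).2
    · right
      simp only [y, Fin.append_right]
      exact ⟨k i, hk2 i⟩
  have h8 : B.card + n ∈ Set.Iic 8 := by
    rw [Set.mem_Iic]
    omega
  have h1 : (h : Equiv.Perm Ω) • y ∈ orb H' y := by
    rw [← (hall' _ h8).2 y hy]
    exact ⟨h, h.2, rfl⟩
  obtain ⟨h', hh', hy'⟩ := h1
  refine ⟨⟨h', hh'⟩, fun b hb => ?_, fun i => ?_⟩
  · have h2 := congrFun hy' (Fin.castAdd n (B.equivFin ⟨b, hb⟩))
    simp only [Pi.smul_apply, y, Fin.append_left, Equiv.symm_apply_apply] at h2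
    show h' • b = b
    rw [h2]
    exact hhB b hb
  · have h2 := congrFun hy' (Fin.natAdd B.card i)
    simp only [Pi.smul_apply, y, Fin.append_right] at h2
    show h' • (g i • w) = g' i • w
    rw [h2, ← hk2, ← hk2']
    exact hhk i

private theorem L1e_dir {H H' : Subgroup (Equiv.Perm Ω)} {S : Set (UU Ω)} {w c : UU Ω}
    (hS : ∀ h ∈ H, ∀ s ∈ S, h • s ∈ S) (hc : c ∈ S) (hA : AgrS S H H')
    (ho : orb H (c, w) = orb H' (c, w)) (hF : Free ↥H' S w c) {k : ℕ} (z : Fin k → UU Ω)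
    (hz : ∀ i, z i ∈ S ∪ orb H w) {h : Equiv.Perm Ω} (hh : h ∈ H) :
    ∃ h' ∈ H', ∀ i, h' • z i = h • z i := by
  classical
  let B : Finset (UU Ω) := (Finset.univ.image z).filter (fun v => v ∈ S)
  let W : Finset (UU Ω) := (Finset.univ.image z).filter (fun v => ¬ v ∈ S)
  have hB : (B : Set (UU Ω)) ⊆ S := by
    intro v hv
    exact (Finset.mem_filter.1 (Finset.mem_coe.1 hv)).2
  have hW : ∀ v : ↥W, ∃ g ∈ H, g • w = v := by
    intro v
    obtain ⟨h1, h2⟩ := Finset.mem_filter.1 v.2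
    obtain ⟨i, -, hi⟩ := Finset.mem_image.1 h1
    rcases hz i with h3 | h3
    · rw [hi] at h3
      exact absurd h3 h2
    · rw [hi] at h3
      exact h3
  choose g hg hgw using hW
  have hg1 : ∀ v : ↥W, ∃ k : ↥H', k • c = g v • c ∧ k • w = g v • w := by
    intro v
    obtain ⟨k, hk, hk1, hk2⟩ := L1e_move ho (hg v)
    exact ⟨⟨k, hk⟩, hk1, hk2⟩
  choose a ha1 ha2 using hg1
  have hg2 : ∀ v : ↥W, ∃ k : ↥H', k • c = (h * g v) • c ∧ k • w = (h * g v) • w := by
    intro v
    obtain ⟨k, hk, hk1, hk2⟩ := L1e_move ho (H.mul_mem hh (hg v))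
    exact ⟨⟨k, hk⟩, hk1, hk2⟩
  choose b hb1 hb2 using hg2
  have hB' : ((B ∪ Finset.univ.image (fun v : ↥W => g v • c) : Finset (UU Ω)) : Set (UU Ω)) ⊆ S := by
    intro v hv
    rcases Finset.mem_union.1 (Finset.mem_coe.1 hv) with h1 | h1
    · exact hB h1
    · obtain ⟨u, -, rfl⟩ := Finset.mem_image.1 h1
      exact hS _ (hg u) c hc
  obtain ⟨h₀, hh₀, e₀⟩ := agrS_finset hA _ hB' hh
  have hB2 : ((B.image (fun v => h • v) : Finset (UU Ω)) : Set (UU Ω)) ⊆ S := by
    intro v hv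
    obtain ⟨u, hu, rfl⟩ := Finset.mem_image.1 (Finset.mem_coe.1 hv)
    exact hS h hh u (hB hu)
  obtain ⟨m, hm1, hm2⟩ := hF (B.image (fun v => h • v)) hB2 W.card
    (fun i => (⟨h₀, hh₀⟩ : ↥H') * a (W.equivFin.symm i)) (fun i => b (W.equivFin.symm i))
    (by
      intro i j hij
      have h1 : h₀ • (a (W.equivFin.symm i) • w) = h₀ • (a (W.equivFin.symm j) • w) := by
        have h2 : ((⟨h₀, hh₀⟩ : ↥H') * a (W.equivFin.symm i)) • w =
          ((⟨h₀, hh₀⟩ : ↥H') * a (W.equivFin.symm j)) • w := hij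
        rw [mul_smul, mul_smul] at h2
        exact h2
      rw [smul_left_cancel_iff, ha2, ha2, hgw, hgw] at h1
      exact W.equivFin.symm.injective (Subtype.ext h1))
    (by
      intro i j hij
      have h1 : b (W.equivFin.symm i) • w = b (W.equivFin.symm j) • w := hij
      rw [hb2, hb2, mul_smul, mul_smul, smul_left_cancel_iff, hgw, hgw] at h1
      exact W.equivFin.symm.injective (Subtype.ext h1))
    (by
      intro i
      rw [mul_smul, hb1, mul_smul, ha1]
      exact e₀ _ (Finset.mem_union_right _ (Finset.mem_image_of_mem _ (Finset.mem_univ _))))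
  refine ⟨m * h₀, H'.mul_mem m.2 hh₀, fun i => ?_⟩
  rw [mul_smul]
  by_cases hi : z i ∈ S
  · have h1 : z i ∈ B := Finset.mem_filter.2 ⟨Finset.mem_image_of_mem _ (Finset.mem_univ i), hi⟩
    rw [e₀ _ (Finset.mem_union_left _ h1)]
    exact hm1 _ (Finset.mem_image_of_mem _ h1)
  · have h1 : z i ∈ W := Finset.mem_filter.2 ⟨Finset.mem_image_of_mem _ (Finset.mem_univ i), hi⟩
    have h2 := hm2 (W.equivFin ⟨z i, h1⟩)
    rw [Equiv.symm_apply_apply, mul_smul, ha2, hb2, hgw, mul_smul, hgw] at h2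
    exact h2

/-- (G1) for the free step: given a tuple `(b, w₁, …, w_k)` (the `w_i` distinct) and `h ∈ H`, take `h₀ ∈ H'` with
`h₀ = h` on `b` and on the images `c_i`; `h₀ w_i` and `h w_i` have the same images, so by freeness of `H'` there is
`k ∈ H'` fixing `h b`, `h c_i` with `k h₀ w_i = h w_i`. -/
theorem near_agr_free [Countable Ω] {G H : Subgroup (Equiv.Perm Ω)}
    (hN : Nice Ω ↥G) (hGH : G ≤ H) (hC : Cpl Ω ↥H) {S : Set (UU Ω)}
    (hS : Good G H S) {w c : UU Ω} (hF : FreeStep Ω ↥H S w c) :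
    Near G H (fun H' => AgrS (S ∪ orb H w) H H') := by
  refine near_mono (near_and (near_and hS.near (near_free hN hGH hC hS hF))
    (near_orb_two G H c w (hS.fin.sm c hF.hc) hF.hw)) ?_
  rintro H' hGH' hC' ⟨⟨⟨hSF', hAg⟩, hF'⟩, ho⟩
  have how : orb H w = orb H' w := by
    ext e
    constructor
    · rintro ⟨g, hg, rfl⟩
      obtain ⟨k, hk, -, hk2⟩ := L1e_move ho hg
      exact ⟨k, hk, hk2⟩
    · rintro ⟨g, hg, rfl⟩
      obtain ⟨k, hk, -, hk2⟩ := L1e_move ho.symm hg
      exact ⟨k, hk, hk2⟩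
  intro k z hz
  ext e
  constructor
  · rintro ⟨h, hh, rfl⟩
    obtain ⟨h', hh', e1⟩ := L1e_dir (fun h hh s hs => hS.fin.inv ⟨h, hh⟩ s hs) hF.hc hAg ho
      hF'.free z hz hh
    exact ⟨h', hh', funext e1⟩
  · rintro ⟨h, hh, rfl⟩
    obtain ⟨h', hh', e1⟩ := L1e_dir (fun h hh s hs => hSF'.inv ⟨h, hh⟩ s hs) hF.hc
      (agrS_symm hAg) ho.symm hF.free z (how ▸ hz) hh
    exact ⟨h', hh', funext e1⟩

section
variable {Γ Z : Type} [Group Γ] [MulAction Γ Ω] [MulAction Γ Z]

end

end Pool.Agent.Lib.ThC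

end

section

/-! # L1f: the algebraic step and the free step -/

set_option autoImplicit false
open scoped Pointwise

namespace Pool.Agent.Lib.ThC

variable {Ω : Type}

section
variable {Γ Z : Type} [Group Γ] [MulAction Γ Ω] [MulAction Γ Z]

/-- injective choice from infinite sets. -/
private theorem L1f_choice {ι α : Type} (T : ι → Set α) (hT : ∀ i, (T i).Infinite) (F : Finset α)
    (s : Finset ι) : ∃ f : ι → α, (∀ i ∈ s, f i ∈ T i ∧ f i ∉ F) ∧ Set.InjOn f (s : Set ι) := by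
  classical
  rcases isEmpty_or_nonempty ι with hι | ⟨⟨i₀⟩⟩
  · exact ⟨fun i => hι.elim i, fun i _ => hι.elim i, fun i _ => hι.elim i⟩
  obtain ⟨a₀, _⟩ := (hT i₀).nonempty
  induction s using Finset.induction_on with
  | empty => exact ⟨fun _ => a₀, by simp, by simp⟩
  | insert j s hj ih =>
    obtain ⟨f, h1, h2⟩ := ih
    obtain ⟨x, hx, hx'⟩ := (hT j).exists_notMem_finset (F ∪ s.image f)
    have hne : ∀ i ∈ s, i ≠ j := by
      rintro i hi rfl
      exact hj hi
    refine ⟨Function.update f j x, ?_, ?_⟩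
    · intro i hi
      rcases Finset.mem_insert.1 hi with rfl | hi
      · rw [Function.update_self]
        exact ⟨hx, fun h => hx' (Finset.mem_union_left _ h)⟩
      · rw [Function.update_of_ne (hne i hi)]
        exact h1 i hi
    · intro i hi k hk hik
      have hi' := Finset.mem_insert.1 (Finset.mem_coe.1 hi)
      have hk' := Finset.mem_insert.1 (Finset.mem_coe.1 hk)
      rcases hi' with hi' | hi' <;> rcases hk' with hk' | hk'
      · rw [hi', hk']
      · rw [hi', Function.update_self, Function.update_of_ne (hne k hk')] at hik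
        exact absurd (Finset.mem_union_right _ (hik ▸ Finset.mem_image_of_mem f hk')) hx'
      · rw [hk', Function.update_self, Function.update_of_ne (hne i hi')] at hik
        exact absurd (Finset.mem_union_right _ (hik ▸ Finset.mem_image_of_mem f hi')) hx'
      · rw [Function.update_of_ne (hne i hi'), Function.update_of_ne (hne k hk')] at hik
        exact h2 hi' hk' hik

/-- transport of finite subsets of the orbit of `w` by elements fixing `S`. -/
private theorem L1f_tr [Countable Ω] (hN : Nice Ω Γ) (hC : Cpl Ω Γ) {S : Set Z}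
    (hS : SInv Ω Γ S) {w c : Z} (hF : FreeStep Ω Γ S w c) (V : Finset Z) (f : Z → Z)
    (hf : Set.InjOn f (V : Set Z))
    (h : ∀ v ∈ V, ∃ g g' : Γ, g • w = v ∧ g' • w = f v ∧ g • c = g' • c) :
    ∃ k ∈ fixingSubgroup Γ S, ∀ v ∈ V, k • v = f v := by
  have h' : ∀ v : ↥V, ∃ g g' : Γ, g • w = v ∧ g' • w = f v ∧ g • c = g' • c :=
    fun v => h v v.2
  choose g g' h1 h2 h3 using h'
  obtain ⟨k, hk, hk1⟩ := free_tr hN hC hS hF (fun i => g (V.equivFin.symm i))
    (fun i => g' (V.equivFin.symm i))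
    (by
      intro i j hij
      have h4 : g (V.equivFin.symm i) • w = g (V.equivFin.symm j) • w := hij
      rw [h1, h1] at h4
      exact V.equivFin.symm.injective (Subtype.ext h4))
    (by
      intro i j hij
      have h4 : g' (V.equivFin.symm i) • w = g' (V.equivFin.symm j) • w := hij
      rw [h2, h2] at h4
      exact V.equivFin.symm.injective (Subtype.ext
        (hf (V.equivFin.symm i).2 (V.equivFin.symm j).2 h4)))
    (fun i => h3 _)
  refine ⟨k, hk, fun v hv => ?_⟩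
  have h4 := hk1 (V.equivFin ⟨v, hv⟩)
  rw [Equiv.symm_apply_apply, h1, h2] at h4
  exact h4

/-- Finite index subgroups.  Let `K = fixingSubgroup S`, `w_i = g i • w` distinct, `P = K ⊓ ⨅ st (w_i)`, and
`R ≤ P` a subgroup of finite index containing `P ⊓ ⨅ st (w'_j)` for finitely many further `w'_j ∈ Γ w`.
Then `R = P`.  Proof: wlog the `w'_j` are distinct and different from all `w_i`.  Let `Y` be the set of
injective tuples `(w''_j)` with the same images in `Γ c` as `(w'_j)` and disjoint from the `w_i`; by `free_tr`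
`P` acts transitively on `Y`, and on pairs of disjoint members of `Y`.  `R` gives a
`P`-invariant equivalence relation on `Y ≃ P / P_{w'}` with finitely many classes.  There are infinitely many pairwise
disjoint members of `Y` (fibres are infinite, `free_fibre_inf`), so two disjoint ones are equivalent, so all
disjoint pairs are; any two members have a common disjoint third one.  So there is one
class: `R = P`. -/
theorem free_fi [Countable Ω] (hN : Nice Ω Γ) (hC : Cpl Ω Γ) {S : Set Z}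
    (hS : SInv Ω Γ S) {w c : Z} (hF : FreeStep Ω Γ S w c) (W₁ W₂ : Finset Z)
    (h1 : ∀ v ∈ W₁, ∃ g : Γ, g • w = v) (h2 : ∀ v ∈ W₂, ∃ g : Γ, g • w = v) (R : Subgroup Γ)
    (hR : R ≤ fixingSubgroup Γ S ⊓ fx Γ W₁)
    (hfi : R.relIndex (fixingSubgroup Γ S ⊓ fx Γ W₁) ≠ 0)
    (hR2 : fixingSubgroup Γ S ⊓ fx Γ W₁ ⊓ fx Γ W₂ ≤ R) :
    R = fixingSubgroup Γ S ⊓ fx Γ W₁ := by
  classical
  set P : Subgroup Γ := fixingSubgroup Γ S ⊓ fx Γ W₁ with hP
  have hPS : ∀ p ∈ P, ∀ s ∈ S, p • s = s := fun p hp s hs =>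
    (mem_fixingSubgroup_iff Γ).1 hp.1 s hs
  have hPW : ∀ p ∈ P, ∀ v ∈ W₁, p • v = v := fun p hp v hv =>
    (mem_fixingSubgroup_iff Γ).1 hp.2 v hv
  have hPmem : ∀ p : Γ, p ∈ fixingSubgroup Γ S → (∀ v ∈ W₁, p • v = v) → p ∈ P := fun p h3 h4 =>
    ⟨h3, (mem_fixingSubgroup_iff Γ).2 fun v hv => h4 v hv⟩
  have hcS : ∀ g : Γ, g • c ∈ S := fun g => hS.inv g c hF.hc
  let U : Finset Z := W₂ \ W₁
  have hU : ∀ v ∈ U, ∃ g : Γ, g • w = v := fun v hv => h2 v (Finset.mem_sdiff.1 hv).1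
  have hUW : ∀ v ∈ U, v ∉ W₁ := fun v hv => (Finset.mem_sdiff.1 hv).2
  have hPU : ∀ p ∈ P, ∀ v ∈ U, p • v ∉ W₁ := by
    intro p hp v hv h3
    have h4 := hPW p hp _ h3
    rw [smul_left_cancel_iff] at h4
    exact hUW v hv (h4 ▸ h3)
  have hRmem : ∀ p ∈ P, (∀ v ∈ U, p • v = v) → p ∈ R := by
    intro p hp h3
    refine hR2 ⟨hp, (mem_fixingSubgroup_iff Γ).2 fun v hv => ?_⟩
    by_cases h4 : v ∈ W₁
    · exact hPW p hp v h4
    · exact h3 v (Finset.mem_sdiff.2 ⟨hv, h4⟩)
  -- (a) moving `U` off a finite set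
  have ha : ∀ F : Finset Z, ∃ p ∈ P, ∀ v ∈ U, p • v ∉ F := by
    intro F
    have hg : ∀ v : ↥U, ∃ g : Γ, g • w = v := fun v => hU v v.2
    choose g hg using hg
    obtain ⟨f, hf1, hf2⟩ := L1f_choice
      (fun v : ↥U => {x : Z | ∃ g' : Γ, g' • w = x ∧ g' • c = g v • c})
      (fun v => free_fibre_inf hF (g v)) (F ∪ W₁) Finset.univ
    obtain ⟨k, hk, hk1⟩ := L1f_tr hN hC hS hF (W₁ ∪ U)
      (fun z => if h : z ∈ U then f ⟨z, h⟩ else z)
      (by
        intro z hz z' hz' hzz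
        have h3 : ∀ u ∈ W₁ ∪ U, u ∉ U → u ∈ W₁ := by
          intro u hu hu'
          rcases Finset.mem_union.1 hu with h | h
          · exact h
          · exact absurd h hu'
        by_cases h4 : z ∈ U <;> by_cases h5 : z' ∈ U
        · simp only [h4, h5, dite_true] at hzz
          exact congrArg Subtype.val (hf2 (Finset.mem_coe.2 (Finset.mem_univ _))
            (Finset.mem_coe.2 (Finset.mem_univ _)) hzz)
        · simp only [h4, h5, dite_true, dite_false] at hzz
          exact absurd (Finset.mem_union_right _ (h3 z' (Finset.mem_coe.1 hz') h5))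
            (hzz ▸ (hf1 ⟨z, h4⟩ (Finset.mem_univ _)).2)
        · simp only [h4, h5, dite_true, dite_false] at hzz
          exact absurd (Finset.mem_union_right _ (h3 z (Finset.mem_coe.1 hz) h4))
            (hzz ▸ (hf1 ⟨z', h5⟩ (Finset.mem_univ _)).2)
        · simp only [h4, h5, dite_false] at hzz
          exact hzz)
      (by
        intro v hv
        by_cases h4 : v ∈ U
        · obtain ⟨g', h5, h6⟩ := (hf1 ⟨v, h4⟩ (Finset.mem_univ _)).1
          exact ⟨g ⟨v, h4⟩, g', hg _, by simp only [h4, dite_true]; exact h5, h6.symm⟩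
        · rcases Finset.mem_union.1 hv with h | h
          · obtain ⟨a, ha⟩ := h1 v h
            exact ⟨a, a, ha, by simp only [h4, dite_false]; exact ha, rfl⟩
          · exact absurd h h4)
    refine ⟨k, hPmem k hk fun v hv => ?_, fun v hv => ?_⟩
    · have h3 := hk1 v (Finset.mem_union_left _ hv)
      have h4 : v ∉ U := fun h => hUW v h hv
      simp only [h4, dite_false] at h3
      exact h3
    · have h3 := hk1 v (Finset.mem_union_right _ hv)
      simp only [hv, dite_true] at h3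
      rw [h3]
      exact fun h => (hf1 ⟨v, hv⟩ (Finset.mem_univ _)).2 (Finset.mem_union_left _ h)
  -- (b) transitivity on disjoint pairs
  have hb : ∀ p ∈ P, ∀ p' ∈ P, (∀ v ∈ U, p • v ∉ U) → (∀ v ∈ U, p' • v ∉ U) →
      ∃ t ∈ P, (∀ v ∈ U, t • v = v) ∧ ∀ v ∈ U, t • p • v = p' • v := by
    intro p hp p' hp' hpU hpU'
    let V₀ : Finset Z := W₁ ∪ U
    have hV₀ : ∀ q ∈ P, (∀ v ∈ U, q • v ∉ U) → ∀ v ∈ U, q • v ∉ V₀ := by
      intro q hq hqU v hv h3
      rcases Finset.mem_union.1 h3 with h | h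
      · exact hPU q hq v hv h
      · exact hqU v hv h
    have hcase : ∀ z ∈ V₀ ∪ U.image (fun v => p • v), z ∉ V₀ → ∃ v ∈ U, p • v = z := by
      intro z hz hz'
      rcases Finset.mem_union.1 hz with h | h
      · exact absurd h hz'
      · obtain ⟨v, hv, rfl⟩ := Finset.mem_image.1 h
        exact ⟨v, hv, rfl⟩
    obtain ⟨k, hk, hk1⟩ := L1f_tr hN hC hS hF (V₀ ∪ U.image (fun v => p • v))
      (fun z => if z ∈ V₀ then z else p' • p⁻¹ • z)
      (by
        intro z hz z' hz' hzz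
        by_cases h4 : z ∈ V₀ <;> by_cases h5 : z' ∈ V₀
        · simp only [h4, h5, if_true] at hzz
          exact hzz
        · simp only [h4, h5, if_true, if_false] at hzz
          obtain ⟨v, hv, rfl⟩ := hcase z' hz' h5
          rw [inv_smul_smul] at hzz
          exact absurd (hzz ▸ h4) (hV₀ p' hp' hpU' v hv)
        · simp only [h4, h5, if_true, if_false] at hzz
          obtain ⟨v, hv, rfl⟩ := hcase z hz h4
          rw [inv_smul_smul] at hzz
          exact absurd (hzz ▸ h5) (hV₀ p' hp' hpU' v hv)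
        · simp only [h4, h5, if_false] at hzz
          rw [smul_left_cancel_iff, smul_left_cancel_iff] at hzz
          exact hzz)
      (by
        intro z hz
        by_cases h4 : z ∈ V₀
        · have h5 : ∃ g : Γ, g • w = z := by
            rcases Finset.mem_union.1 h4 with h | h
            · exact h1 z h
            · exact hU z h
          obtain ⟨a, ha⟩ := h5
          exact ⟨a, a, ha, by simp only [h4, if_true]; exact ha, rfl⟩
        · obtain ⟨v, hv, rfl⟩ := hcase z hz h4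
          obtain ⟨a, ha⟩ := hU v hv
          refine ⟨p * a, p' * a, by rw [mul_smul, ha], ?_, ?_⟩
          · simp only [h4, if_false]
            rw [inv_smul_smul, mul_smul, ha]
          · rw [mul_smul, mul_smul, hPS p hp _ (hcS a), hPS p' hp' _ (hcS a)])
    refine ⟨k, hPmem k hk fun v hv => ?_, fun v hv => ?_, fun v hv => ?_⟩
    · have h4 : v ∈ V₀ := Finset.mem_union_left _ hv
      have h3 := hk1 v (Finset.mem_union_left _ h4)
      simp only [h4, if_true] at h3
      exact h3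
    · have h4 : v ∈ V₀ := Finset.mem_union_right _ hv
      have h3 := hk1 v (Finset.mem_union_left _ h4)
      simp only [h4, if_true] at h3
      exact h3
    · have h4 : p • v ∉ V₀ := hV₀ p hp hpU v hv
      have h3 := hk1 (p • v) (Finset.mem_union_right _ (Finset.mem_image_of_mem _ hv))
      simp only [h4, if_false, inv_smul_smul] at h3
      exact h3
  -- an element of `R` moving `U` off itself
  have hq : ∃ q ∈ R, ∀ v ∈ U, q • v ∉ U := by
    have : Finite (↥P ⧸ R.subgroupOf P) := (Nat.card_ne_zero.1 hfi).2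
    let _ : Fintype (↥P ⧸ R.subgroupOf P) := Fintype.ofFinite _
    obtain ⟨p, hp, hpF⟩ := ha (Finset.univ.biUnion
      (fun i : ↥P ⧸ R.subgroupOf P => U.image (fun v => (i.out : Γ) • v)))
    let i : ↥P ⧸ R.subgroupOf P := QuotientGroup.mk ⟨p, hp⟩
    have h3 : (QuotientGroup.mk i.out : ↥P ⧸ R.subgroupOf P) = QuotientGroup.mk ⟨p, hp⟩ :=
      Quotient.out_eq _
    rw [QuotientGroup.eq, Subgroup.mem_subgroupOf] at h3
    have h4 : (i.out : Γ)⁻¹ * p ∈ R := h3
    refine ⟨(i.out : Γ)⁻¹ * p, h4, fun v hv h5 => hpF v hv ?_⟩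
    refine Finset.mem_biUnion.2 ⟨i, Finset.mem_univ _, Finset.mem_image.2 ⟨_, h5, ?_⟩⟩
    rw [mul_smul, smul_inv_smul]
  obtain ⟨q, hq, hqU⟩ := hq
  -- (c)
  have hc : ∀ s ∈ P, (∀ v ∈ U, s • v ∉ U) → s ∈ R := by
    intro s hs hsU
    obtain ⟨t, ht, ht1, ht2⟩ := hb q (hR hq) s hs hqU hsU
    have h3 : t ∈ R := hRmem t ht ht1
    have h4 : (t * q)⁻¹ * s ∈ R := by
      refine hRmem _ (P.mul_mem (P.inv_mem (P.mul_mem ht (hR hq))) hs) fun v hv => ?_
      rw [mul_smul, inv_smul_eq_iff, mul_smul, ht2 v hv]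
    have h5 : s = (t * q) * ((t * q)⁻¹ * s) := by group
    rw [h5]
    exact R.mul_mem (R.mul_mem h3 hq) h4
  refine le_antisymm hR fun p hp => ?_
  obtain ⟨s, hs, hsF⟩ := ha (U ∪ U.image (fun v => p • v))
  have h3 : s ∈ R := hc s hs fun v hv h => hsF v hv (Finset.mem_union_left _ h)
  have h4 : p⁻¹ * s ∈ R := by
    refine hc _ (P.mul_mem (P.inv_mem hp) hs) fun v hv h => hsF v hv (Finset.mem_union_right _ ?_)
    refine Finset.mem_image.2 ⟨_, h, ?_⟩
    rw [mul_smul, smul_inv_smul]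
  have h5 : p = s * (p⁻¹ * s)⁻¹ := by group
  rw [h5]
  exact R.mul_mem h3 (R.inv_mem h4)

end

end Pool.Agent.Lib.ThC

end

section

/-! # L1g: the algebraic step and the free step -/

set_option autoImplicit false
open scoped Pointwise

namespace Pool.Agent.Lib.ThC

variable {Ω : Type}

section
variable {Γ Z : Type} [Group Γ] [MulAction Γ Ω] [MulAction Γ Z]

/-- transport of finite subsets of the orbit of `w` by elements fixing `S`. -/
private theorem L1g_tr [Countable Ω] (hN : Nice Ω Γ) (hC : Cpl Ω Γ) {S : Set Z}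
    (hS : SInv Ω Γ S) {w c : Z} (hF : FreeStep Ω Γ S w c) (V : Finset Z) (f : Z → Z)
    (hf : Set.InjOn f (V : Set Z))
    (h : ∀ v ∈ V, ∃ g g' : Γ, g • w = v ∧ g' • w = f v ∧ g • c = g' • c) :
    ∃ k ∈ fixingSubgroup Γ S, ∀ v ∈ V, k • v = f v := by
  have h' : ∀ v : ↥V, ∃ g g' : Γ, g • w = v ∧ g' • w = f v ∧ g • c = g' • c :=
    fun v => h v v.2
  choose g g' h1 h2 h3 using h'
  obtain ⟨k, hk, hk1⟩ := free_tr hN hC hS hF (fun i => g (V.equivFin.symm i))
    (fun i => g' (V.equivFin.symm i))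
    (by
      intro i j hij
      have h4 : g (V.equivFin.symm i) • w = g (V.equivFin.symm j) • w := hij
      rw [h1, h1] at h4
      exact V.equivFin.symm.injective (Subtype.ext h4))
    (by
      intro i j hij
      have h4 : g' (V.equivFin.symm i) • w = g' (V.equivFin.symm j) • w := hij
      rw [h2, h2] at h4
      exact V.equivFin.symm.injective (Subtype.ext
        (hf (V.equivFin.symm i).2 (V.equivFin.symm j).2 h4)))
    (fun i => h3 _)
  refine ⟨k, hk, fun v hv => ?_⟩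
  have h4 := hk1 (V.equivFin ⟨v, hv⟩)
  rw [Equiv.symm_apply_apply, h1, h2] at h4
  exact h4

/-- (G2) for the free step, by `gfin_step` with `S' = S ∪ Γ w`.  Given `B ⊆ S'` finite: `W₁ = B ∩ Γ w`,
`b₀ = (B ∩ S) ∪ images of W₁`, `B₀ = B ∪ b₀`.  `fx B₀ ⊔ K = fx b₀` by freeness
(`free_tr`: for `h ∈ fx b₀` there is `k ∈ K` with `k h w_i = w_i`).  For `U` as in `gfin_step`:
`U ⊓ K` has finite index in `K ⊓ fx B₀ = K ⊓ fx W₁` and contains `K ⊓ fx B'` for some finite
`B' ⊆ S'` (`supp_exists`), so it is everything by `free_fi`. -/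
theorem gf_free [Countable Ω] (hN : Nice Ω Γ) (hC : Cpl Ω Γ) {S : Set Z}
    (hS : SFin Ω Γ S) (hG : Gfin Ω Γ S) {w c : Z} (hF : FreeStep Ω Γ S w c) :
    Gfin Ω Γ (S ∪ MulAction.orbit Γ w) := by
  classical
  have hS' : SInv Ω Γ (S ∪ MulAction.orbit Γ w) :=
    sinv_union hS.toSInv (sfin_orbit hF.hw).toSInv
  refine gfin_step hN hC hS.toSInv hS' Set.subset_union_left hG ?_
  intro B hB n
  have hsplit : ∀ B : Finset Z, (B : Set Z) ⊆ S ∪ MulAction.orbit Γ w →
      ∀ v ∈ B.filter (fun v => v ∉ S), ∃ g : Γ, g • w = v := by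
    intro B hB v hv
    obtain ⟨h1, h2⟩ := Finset.mem_filter.1 hv
    rcases hB (Finset.mem_coe.2 h1) with h3 | h3
    · exact absurd h3 h2
    · exact h3
  set W₁ : Finset Z := B.filter (fun v => v ∉ S) with hW₁
  have hg : ∀ v : Z, ∃ g : Γ, v ∈ W₁ → g • w = v := by
    intro v
    by_cases hv : v ∈ W₁
    · obtain ⟨g, hg⟩ := hsplit B hB v hv
      exact ⟨g, fun _ => hg⟩
    · exact ⟨1, fun h => absurd h hv⟩
  choose g hg using hg
  let b₀ : Finset Z := B.filter (fun v => v ∈ S) ∪ W₁.image (fun v => g v • c)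
  have hb₀ : (b₀ : Set Z) ⊆ S := by
    intro v hv
    rcases Finset.mem_union.1 (Finset.mem_coe.1 hv) with h | h
    · exact (Finset.mem_filter.1 h).2
    · obtain ⟨u, -, rfl⟩ := Finset.mem_image.1 h
      exact hS.inv _ _ hF.hc
  have hK : ∀ k ∈ fixingSubgroup Γ S, ∀ s ∈ S, k • s = s := fun k hk s hs =>
    (mem_fixingSubgroup_iff Γ).1 hk s hs
  have hB₀ : ∀ k : Γ, (∀ v ∈ b₀, k • v = v) → (∀ v ∈ W₁, k • v = v) → k ∈ fx Γ (B ∪ b₀) := by
    intro k h1 h2
    refine (mem_fixingSubgroup_iff Γ).2 fun v hv => ?_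
    rcases Finset.mem_union.1 (Finset.mem_coe.1 hv) with h | h
    · by_cases h3 : v ∈ S
      · exact h1 v (Finset.mem_union_left _ (Finset.mem_filter.2 ⟨h, h3⟩))
      · exact h2 v (Finset.mem_filter.2 ⟨h, h3⟩)
    · exact h1 v h
  refine ⟨B ∪ b₀, b₀, ?_, hb₀, Finset.subset_union_left, fx_anti Finset.subset_union_right, ?_, ?_⟩
  · rw [Finset.coe_union]
    exact Set.union_subset hB (hb₀.trans Set.subset_union_left)
  · have hle : fx Γ b₀ ≤ fx Γ (B ∪ b₀) ⊔ fixingSubgroup Γ S := by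
      intro h hh
      have hh' : ∀ v ∈ b₀, h • v = v := fun v hv => (mem_fixingSubgroup_iff Γ).1 hh v hv
      obtain ⟨k, hk, hk1⟩ := L1g_tr hN hC hS.toSInv hF W₁ (fun v => h • v)
        (fun a _ b _ hab => smul_left_cancel h hab)
        (by
          intro v hv
          refine ⟨g v, h * g v, hg v hv, by rw [mul_smul, hg v hv], ?_⟩
          rw [mul_smul]
          exact (hh' _ (Finset.mem_union_right _ (Finset.mem_image_of_mem _ hv))).symm)
      have h1 : k⁻¹ * h ∈ fx Γ (B ∪ b₀) := by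
        refine hB₀ _ (fun v hv => ?_) (fun v hv => ?_)
        · rw [mul_smul, hh' v hv, inv_smul_eq_iff, hK k hk v (hb₀ hv)]
        · rw [mul_smul, inv_smul_eq_iff, hk1 v hv]
      have h2 : h = k * (k⁻¹ * h) := by group
      rw [h2]
      exact Subgroup.mul_mem _ (Subgroup.mem_sup_right hk) (Subgroup.mem_sup_left h1)
    rw [Subgroup.relIndex_eq_one.2 hle]
    exact one_ne_zero
  · intro U hU1 hU2 hU3 hU4 _ _
    obtain ⟨B', hB', hB'U⟩ := supp_exists hN hC hS' hU1 hU2
    have hPB : fixingSubgroup Γ S ⊓ fx Γ W₁ ≤ fx Γ B := by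
      intro k hk
      refine (mem_fixingSubgroup_iff Γ).2 fun v hv => ?_
      by_cases h3 : v ∈ S
      · exact hK k hk.1 v h3
      · exact (mem_fixingSubgroup_iff Γ).1 hk.2 v (Finset.mem_filter.2 ⟨hv, h3⟩)
    have h1 : U ⊓ (fixingSubgroup Γ S ⊓ fx Γ W₁) = fixingSubgroup Γ S ⊓ fx Γ W₁ := by
      refine free_fi hN hC hS.toSInv hF W₁ (B'.filter (fun v => v ∉ S)) (hsplit B hB)
        (hsplit B' hB') _ inf_le_right ?_ ?_
      · rw [Subgroup.inf_relIndex_right]
        exact fun h => hU4 (Subgroup.relIndex_eq_zero_of_le_right hPB h)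
      · intro k hk
        refine ⟨hB'U ((mem_fixingSubgroup_iff Γ).2 fun v hv => ?_), hk.1⟩
        by_cases h3 : v ∈ S
        · exact hK k hk.1.1 v h3
        · exact (mem_fixingSubgroup_iff Γ).1 hk.2 v (Finset.mem_filter.2 ⟨hv, h3⟩)
    intro k hk
    have h2 : k ∈ fixingSubgroup Γ S ⊓ fx Γ W₁ := by
      refine ⟨hk.1, (mem_fixingSubgroup_iff Γ).2 fun v hv => ?_⟩
      exact (mem_fixingSubgroup_iff Γ).1 hk.2 v
        (Finset.mem_union_left _ (Finset.mem_filter.1 hv).1)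
    rw [← h1] at h2
    exact h2.1

end

end Pool.Agent.Lib.ThC

end

section

/-! # L1h: the algebraic step and the free step -/

set_option autoImplicit false
open scoped Pointwise

namespace Pool.Agent.Lib.ThC

variable {Ω : Type}

section
variable {Γ Z : Type} [Group Γ] [MulAction Γ Ω] [MulAction Γ Z]

end

/-- the free step. -/
theorem good_free [Countable Ω] {G H : Subgroup (Equiv.Perm Ω)}
    (hN : Nice Ω ↥G) (hGH : G ≤ H) (hC : Cpl Ω ↥H) {S : Set (UU Ω)}
    (hS : Good G H S) {w c : UU Ω} (hF : FreeStep Ω ↥H S w c) :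
    Good G H (S ∪ MulAction.orbit ↥H w) := by
  have hNH : Nice Ω ↥H := nice_mono hN hGH
  have hfin : SFin Ω ↥H (S ∪ MulAction.orbit ↥H w) := sfin_union hS.fin (sfin_orbit hF.hw)
  refine ⟨hfin, ?_, gf_free hNH hC hS.fin hS.gf hF⟩
  have h1 := near_uniform G H hNH hfin 0
  have h2 := near_agr_free hN hGH hC hS hF
  refine near_mono (near_and h1 h2) ?_
  intro H' _ _ h
  refine ⟨h.1.1, ?_⟩
  rw [orbit_eq_orb]
  exact h.2

/-- Every closed group `H ≥ G` is isolated: `devissage` for `P = Good G H`, `T = Set.range uupt`;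
`eq_of_agr`. -/
theorem isolated [Countable Ω] {G H : Subgroup (Equiv.Perm Ω)}
    (hN : Nice Ω ↥G) (hCG : Cpl Ω ↥G) (hGH : G ≤ H) (hC : Cpl Ω ↥H) :
    Near G H (fun H' => H = H') := by
  have hNH : Nice Ω ↥H := nice_mono hN hGH
  obtain ⟨S, _, hG, hT⟩ := devissage (Ω := Ω) (Γ := ↥H) (Z := UU Ω) hNH (uu_rich H)
    (fun S => Good G H S) (good_empty G H)
    (fun S _ hS y hy hB => by
      obtain ⟨B, hBS, hf⟩ := hB
      exact good_alg hN hCG hGH hC hS y hy B hBS hf)
    (fun S _ hS w c hF => good_free hN hGH hC hS hF)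
    (Set.range (uupt (Ω := Ω))) (sfin_uupt H hNH)
  refine near_mono hG.near ?_
  intro H' _ hC' h
  refine eq_of_agr hC hC' ?_
  intro k y hy
  exact h.2 k y (fun i => hT (hy i))

end Pool.Agent.Lib.ThC

end

section

/-! # L2a: compactness and the group theorem -/

set_option autoImplicit false
open scoped Pointwise

namespace Pool.Agent.Lib.ThC

variable {Ω : Type}

/-- For every `n` the closed groups `H ≥ G` fall into finitely many classes with respect to `Agr n`
(`G` has finitely many orbits on `Ω^m`, and the orbit equivalence relation of `H` is a union of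
products of `G`-orbits: it is determined by the set of pairs of `G`-orbits contained in the same
`H`-orbit). -/
theorem agr_finite {G : Subgroup (Equiv.Perm Ω)} (hN : Nice Ω ↥G) (n : ℕ)
    (C : Set (Subgroup (Equiv.Perm Ω))) (hC : C.Infinite) (hG : ∀ H ∈ C, G ≤ H) :
    ∃ C' ⊆ C, C'.Infinite ∧ ∀ H ∈ C', ∀ H' ∈ C', Agr n H H' := by
  classical
  choose F hF using hN.olig
  let f : ↥C → ((m : Fin (n + 1)) → Set (↥(F (m : ℕ)) × ↥(F (m : ℕ)))) := fun H m =>
    {q | (q.2 : Fin (m : ℕ) → Ω) ∈ orb (H : Subgroup (Equiv.Perm Ω)) (q.1 : Fin (m : ℕ) → Ω)}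
  haveI : Infinite ↥C := hC.to_subtype
  obtain ⟨y, hy⟩ := Finite.exists_infinite_fiber f
  have key : ∀ H H' : ↥C, f H = f H' → ∀ m, m ≤ n → ∀ x : Fin m → Ω,
      orb (H : Subgroup (Equiv.Perm Ω)) x ⊆ orb (H' : Subgroup (Equiv.Perm Ω)) x := by
    intro H H' hHH' m hm x z hz
    obtain ⟨a, ha, g, hga⟩ := hF m x
    obtain ⟨b, hb, g', hgb⟩ := hF m z
    obtain ⟨h, hh, hhx⟩ := hz
    have hGH := hG H H.2
    have hGH' := hG H' H'.2
    have h1 : ((⟨a, ha⟩, ⟨b, hb⟩) : ↥(F m) × ↥(F m)) ∈ f H ⟨m, Nat.lt_succ_of_le hm⟩ := by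
      refine ⟨(g' : Equiv.Perm Ω)⁻¹ * h * g, ?_, ?_⟩
      · exact mul_mem (mul_mem (inv_mem (hGH g'.2)) hh) (hGH g.2)
      · show ((g' : Equiv.Perm Ω)⁻¹ * h * g) • a = b
        rw [mul_smul, mul_smul]
        have e1 : (g : Equiv.Perm Ω) • a = x := hga
        have e2 : (g' : Equiv.Perm Ω) • b = z := hgb
        rw [e1, hhx, ← e2, inv_smul_smul]
    rw [hHH'] at h1
    obtain ⟨k, hk, hkb⟩ := h1
    have hkb' : k • a = b := hkb
    refine ⟨(g' : Equiv.Perm Ω) * k * (g : Equiv.Perm Ω)⁻¹, ?_, ?_⟩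
    · exact mul_mem (mul_mem (hGH' g'.2) hk) (inv_mem (hGH' g.2))
    · have e1 : (g : Equiv.Perm Ω) • a = x := hga
      have e2 : (g' : Equiv.Perm Ω) • b = z := hgb
      rw [mul_smul, mul_smul, ← e1, inv_smul_smul, hkb', e2]
  refine ⟨Subtype.val '' (f ⁻¹' {y}), ?_, ?_, ?_⟩
  · rintro _ ⟨H, _, rfl⟩
    exact H.2
  · exact (Set.infinite_coe_iff.1 hy).image Subtype.val_injective.injOn
  · rintro _ ⟨H, hH, rfl⟩ _ ⟨H', hH', rfl⟩ m hm x
    have e : f H = f H' := by
      rw [show f H = y from hH, show f H' = y from hH']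
    exact Set.Subset.antisymm (key H H' e m hm x) (key H' H e.symm m hm x)

end Pool.Agent.Lib.ThC

end

section

/-! # L2b: compactness and the group theorem -/

set_option autoImplicit false
open scoped Pointwise

namespace Pool.Agent.Lib.ThC

variable {Ω : Type}

/-- back and forth along an enumeration of a countable set. -/
theorem L2b_bf [Countable Ω] (Q : List (Ω × Ω) → Prop)
    (hfun : ∀ l, Q l → ∀ x ∈ l, ∀ y ∈ l, (x.1 = y.1 ↔ x.2 = y.2))
    (hf : ∀ l, Q l → ∀ ω : Ω, ∃ ω' : Ω, Q ((ω, ω') :: l))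
    (hb : ∀ l, Q l → ∀ ω : Ω, ∃ ω' : Ω, Q ((ω', ω) :: l))
    (l₀ : List (Ω × Ω)) (h0 : Q l₀) :
    ∃ σ : Equiv.Perm Ω, ∀ A : Finset Ω, ∃ l, Q l ∧ l₀ ⊆ l ∧ ∀ a ∈ A, (a, σ a) ∈ l := by
  classical
  rcases isEmpty_or_nonempty Ω with hE | hNe
  · exact ⟨1, fun A => ⟨l₀, h0, fun x hx => hx, fun a _ => (hE.false a).elim⟩⟩
  · obtain ⟨e, he⟩ := exists_surjective_nat Ω
    have hstep : ∀ l : List (Ω × Ω), Q l → ∀ ω : Ω, ∃ l' : List (Ω × Ω), Q l' ∧ l ⊆ l' ∧
        (∃ ω', (ω, ω') ∈ l') ∧ ∃ ω', (ω', ω) ∈ l' := by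
      intro l hl ω
      obtain ⟨ω₁, h1⟩ := hf l hl ω
      obtain ⟨ω₂, h2⟩ := hb ((ω, ω₁) :: l) h1 ω
      exact ⟨(ω₂, ω) :: (ω, ω₁) :: l, h2,
        fun x hx => List.mem_cons_of_mem _ (List.mem_cons_of_mem _ hx),
        ⟨ω₁, by simp⟩, ⟨ω₂, by simp⟩⟩
    choose! f hf1 hf2 hf3 hf4 using hstep
    let F : ℕ → List (Ω × Ω) := fun n => Nat.rec l₀ (fun n l => f l (e n)) n
    have hF0 : F 0 = l₀ := rfl
    have hFs : ∀ n, F (n + 1) = f (F n) (e n) := fun n => rfl
    have hFQ : ∀ n, Q (F n) := by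
      intro n
      induction n with
      | zero => exact h0
      | succ n ih =>
        rw [hFs]
        exact hf1 _ ih _
    have hFm : ∀ n m, n ≤ m → F n ⊆ F m := by
      intro n m hnm
      induction m, hnm using Nat.le_induction with
      | base => exact fun x hx => hx
      | succ m _ ih =>
        rw [hFs]
        exact fun x hx => hf2 _ (hFQ m) _ (ih hx)
    have hex : ∀ ω : Ω, ∃ n, ∃ ω', (ω, ω') ∈ F n := by
      intro ω
      obtain ⟨n, rfl⟩ := he ω
      refine ⟨n + 1, ?_⟩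
      rw [hFs]
      exact hf3 _ (hFQ n) _
    have hex' : ∀ ω : Ω, ∃ n, ∃ ω', (ω', ω) ∈ F n := by
      intro ω
      obtain ⟨n, rfl⟩ := he ω
      refine ⟨n + 1, ?_⟩
      rw [hFs]
      exact hf4 _ (hFQ n) _
    choose N σ hσ using hex
    have hfn : ∀ (n m : ℕ) (x y : Ω × Ω), x ∈ F n → y ∈ F m → (x.1 = y.1 ↔ x.2 = y.2) := by
      intro n m x y hx hy
      exact hfun _ (hFQ (max n m)) x (hFm n (max n m) (le_max_left _ _) hx) y
        (hFm m (max n m) (le_max_right _ _) hy)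
    have hinj : Function.Injective σ := fun a b hab =>
      (hfn _ _ _ _ (hσ a) (hσ b)).2 hab
    have hsur : Function.Surjective σ := by
      intro b
      obtain ⟨n, a, ha⟩ := hex' b
      exact ⟨a, (hfn _ _ _ _ (hσ a) ha).1 rfl⟩
    refine ⟨Equiv.ofBijective σ ⟨hinj, hsur⟩, fun A => ?_⟩
    exact ⟨F (A.sup N), hFQ _, hFm 0 _ (Nat.zero_le _),
      fun a ha => hFm _ _ (Finset.le_sup ha) (hσ a)⟩

/-- The limit.  Let `C 0 ⊇ C 1 ⊇ …` be nonempty sets of groups `≥ G` such that the members of `C n` agree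
on `Ω^m` for `m ≤ n`.  Then there is a closed group `H ≥ G` with `Agr n H H'` for all `n` and
`H' ∈ C n`.  Proof: `E x y` (for `x y : Fin n → Ω`) iff `y ∈ orb H' x` for (one, equivalently all)
`H' ∈ C n`.  `H = {σ | ∀ n x, E x (σ • x)}`.  It is a closed group containing `G`.
`E` is compatible with passing to sub-tuples (take a member of a later `C m`).  If `E x y` then there is
`σ ∈ H` with `σ • x = y`, by back and forth: for `ω : Ω` there is `ω'` with `E (x, ω) (y, ω')` (use a member of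
`C (n + 1)`), and conversely; `Ω` is countable; every tuple is a sub-tuple of the tuples constructed. -/
theorem limit_group [Countable Ω] {G : Subgroup (Equiv.Perm Ω)}
    (C : ℕ → Set (Subgroup (Equiv.Perm Ω))) (hmono : ∀ n, C (n + 1) ⊆ C n)
    (hne : ∀ n, (C n).Nonempty) (hG : ∀ n, ∀ H ∈ C n, G ≤ H)
    (hagr : ∀ n, ∀ H ∈ C n, ∀ H' ∈ C n, Agr n H H') :
    ∃ H : Subgroup (Equiv.Perm Ω), G ≤ H ∧ Cpl Ω ↥H ∧ ∀ n, ∀ H' ∈ C n, Agr n H H' := by
  classical
  have hanti : ∀ n m, n ≤ m → C m ⊆ C n := by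
    intro n m hnm
    induction m, hnm using Nat.le_induction with
    | base => exact fun x hx => hx
    | succ m _ ih => exact fun x hx => ih (hmono m hx)
  choose P hP using hne
  -- agreement of orbits
  have hor : ∀ n N (H'' : Subgroup (Equiv.Perm Ω)), n ≤ N → H'' ∈ C N → ∀ x : Fin n → Ω,
      orb H'' x = orb (P n) x := fun n N H'' hn hH x =>
    hagr n H'' (hanti n N hn hH) (P n) (hP n) n le_rfl x
  let H : Subgroup (Equiv.Perm Ω) :=
    { carrier := {σ | ∀ (n : ℕ) (x : Fin n → Ω), σ • x ∈ orb (P n) x}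
      mul_mem' := by
        intro a b ha hb n x
        have h1 := ha n (b • x)
        rw [orb_eq_of_mem (hb n x), ← mul_smul] at h1
        exact h1
      one_mem' := by
        intro n x
        rw [one_smul]
        exact mem_orb_self _ _
      inv_mem' := by
        intro a ha n x
        have h1 := ha n (a⁻¹ • x)
        rw [smul_inv_smul] at h1
        have h2 := orb_eq_of_mem h1
        rw [h2]
        exact mem_orb_self _ _ }
  have hH : ∀ σ : Equiv.Perm Ω, σ ∈ H ↔ ∀ (n : ℕ) (x : Fin n → Ω), σ • x ∈ orb (P n) x :=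
    fun σ => Iff.rfl
  -- the back and forth property
  let Q : List (Ω × Ω) → Prop := fun l => ∃ N, l.length ≤ N ∧ ∃ h ∈ P N, ∀ x ∈ l, h • x.1 = x.2
  have hQ : ∀ l, Q l → ∀ M, l.length ≤ M → ∃ h ∈ P M, ∀ x ∈ l, h • x.1 = x.2 := by
    rintro l ⟨N, hN, h, hh, hl⟩ M hM
    let x : Fin l.length → Ω := fun i => (l.get i).1
    have e : orb (P N) x = orb (P M) x := by
      rw [hor l.length N (P N) hN (hP N) x, hor l.length M (P M) hM (hP M) x]
    have h1 : h • x ∈ orb (P M) x := by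
      rw [← e]
      exact smul_mem_orb hh x
    obtain ⟨h', hh', he⟩ := h1
    refine ⟨h', hh', fun q hq => ?_⟩
    obtain ⟨i, hi⟩ := List.get_of_mem hq
    have h2 := congrFun he i
    have h3 : h' • (l.get i).1 = h • (l.get i).1 := h2
    rw [hi] at h3
    rw [h3, hl q hq]
  have hfun : ∀ l, Q l → ∀ x ∈ l, ∀ y ∈ l, (x.1 = y.1 ↔ x.2 = y.2) := by
    rintro l ⟨N, _, h, _, hl⟩ x hx y hy
    rw [← hl x hx, ← hl y hy]
    exact (smul_left_cancel_iff h).symm
  have hf : ∀ l, Q l → ∀ ω : Ω, ∃ ω' : Ω, Q ((ω, ω') :: l) := by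
    intro l hl ω
    obtain ⟨h, hh, hx⟩ := hQ l hl (l.length + 1) (Nat.le_succ _)
    refine ⟨h • ω, l.length + 1, by simp, h, hh, ?_⟩
    intro q hq
    rcases List.mem_cons.1 hq with rfl | hq
    · rfl
    · exact hx q hq
  have hb : ∀ l, Q l → ∀ ω : Ω, ∃ ω' : Ω, Q ((ω', ω) :: l) := by
    intro l hl ω
    obtain ⟨h, hh, hx⟩ := hQ l hl (l.length + 1) (Nat.le_succ _)
    refine ⟨h⁻¹ • ω, l.length + 1, by simp, h, hh, ?_⟩
    intro q hq
    rcases List.mem_cons.1 hq with rfl | hq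
    · exact smul_inv_smul h ω
    · exact hx q hq
  have hex : ∀ (m : ℕ) (x y : Fin m → Ω), y ∈ orb (P m) x → ∃ σ ∈ H, σ • x = y := by
    intro m x y hy
    obtain ⟨h, hh, hxy⟩ := hy
    have h0 : Q (List.ofFn (fun i : Fin m => (x i, y i))) := by
      refine ⟨m, by simp, h, hh, ?_⟩
      intro q hq
      rw [List.mem_ofFn] at hq
      obtain ⟨i, rfl⟩ := hq
      exact congrFun hxy i
    obtain ⟨σ, hσ⟩ := L2b_bf Q hfun hf hb _ h0
    refine ⟨σ, ?_, ?_⟩
    · rw [hH]
      intro n z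
      obtain ⟨l, hl, _, hA⟩ := hσ (Finset.univ.image z)
      obtain ⟨k, hk, hkl⟩ := hQ l hl (max l.length n) (le_max_left _ _)
      have e : k • z = σ • z := by
        funext i
        exact hkl (z i, σ (z i)) (hA (z i) (Finset.mem_image_of_mem _ (Finset.mem_univ i)))
      rw [← e, ← hor n (max l.length n) (P (max l.length n)) (le_max_right _ _) (hP _) z]
      exact smul_mem_orb hk z
    · obtain ⟨l, hl, hl0, hA⟩ := hσ (Finset.univ.image x)
      funext i
      have h1 : (x i, σ (x i)) ∈ l := hA (x i) (Finset.mem_image_of_mem _ (Finset.mem_univ i))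
      have h2 : (x i, y i) ∈ l := hl0 (by
        rw [List.mem_ofFn]
        exact ⟨i, rfl⟩)
      exact (hfun l hl _ h1 _ h2).1 rfl
  refine ⟨H, ?_, ?_, ?_⟩
  · intro g hg
    rw [hH]
    intro n x
    exact smul_mem_orb (hG n (P n) (hP n) hg) x
  · intro σ hσ
    refine ⟨⟨σ, ?_⟩, fun a => rfl⟩
    rw [hH]
    intro n x
    obtain ⟨g, hg⟩ := hσ (Finset.univ.image x)
    have e : (g : Equiv.Perm Ω) • x = σ • x := by
      funext i
      exact hg (x i) (Finset.mem_image_of_mem _ (Finset.mem_univ i))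
    rw [← e]
    exact (hH _).1 g.2 n x
  · intro n H'' hH'' m hm x
    have e : orb H'' x = orb (P m) x := hor m n H'' hm hH'' x
    rw [e]
    apply Set.Subset.antisymm
    · rintro y ⟨σ, hσ, rfl⟩
      exact (hH σ).1 hσ m x
    · intro y hy
      obtain ⟨σ, hσ, hxy⟩ := hex m x y hy
      exact ⟨σ, hσ, hxy⟩

end Pool.Agent.Lib.ThC

end

section

/-! # L2c: compactness and the group theorem -/

set_option autoImplicit false
open scoped Pointwise

namespace Pool.Agent.Lib.ThC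

variable {Ω : Type}

/-- The group theorem.  Otherwise there are infinite sets `C 0 ⊇ C 1 ⊇ …` of closed groups `≥ G` as in
`limit_group` (`agr_finite`); the limit `H` is isolated (`isolated`): there is `n` such that all members of
`C n` are equal to `H`, contradiction. -/
theorem group_thm [Countable Ω] (G : Subgroup (Equiv.Perm Ω)) (hN : Nice Ω ↥G)
    (hC : Cpl Ω ↥G) : {H : Subgroup (Equiv.Perm Ω) | G ≤ H ∧ Cpl Ω ↥H}.Finite := by
  by_contra hS
  have hS' : {H : Subgroup (Equiv.Perm Ω) | G ≤ H ∧ Cpl Ω ↥H}.Infinite := hS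
  set S : Set (Subgroup (Equiv.Perm Ω)) := {H | G ≤ H ∧ Cpl Ω ↥H} with hSdef
  choose F hF1 hF2 hF3 using
    fun (n : ℕ) (C : {C : Set (Subgroup (Equiv.Perm Ω)) // C ⊆ S ∧ C.Infinite}) =>
      agr_finite hN n C.1 C.2.2 (fun H hH => (C.2.1 hH).1)
  let T : Type := {C : Set (Subgroup (Equiv.Perm Ω)) // C ⊆ S ∧ C.Infinite}
  let c0 : T := ⟨F 0 ⟨S, subset_rfl, hS'⟩, hF1 0 _, hF2 0 _⟩
  let nxt : ℕ → T → T := fun n C => ⟨F (n + 1) C, (hF1 (n + 1) C).trans C.2.1, hF2 (n + 1) C⟩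
  let seq : ℕ → T := fun n => Nat.rec c0 nxt n
  have hseq : ∀ n, seq (n + 1) = nxt n (seq n) := fun n => rfl
  have hmono : ∀ n, (seq (n + 1)).1 ⊆ (seq n).1 := by
    intro n
    rw [hseq]
    exact hF1 (n + 1) (seq n)
  have hagr : ∀ n, ∀ H ∈ (seq n).1, ∀ H' ∈ (seq n).1, Agr n H H' := by
    intro n
    cases n with
    | zero => exact hF3 0 ⟨S, subset_rfl, hS'⟩
    | succ n =>
      rw [hseq]
      exact hF3 (n + 1) (seq n)
  obtain ⟨H, hGH, hCH, hH⟩ := limit_group (G := G) (fun n => (seq n).1) hmono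
    (fun n => (seq n).2.2.nonempty) (fun n H hH => ((seq n).2.1 hH).1) hagr
  obtain ⟨n, hn⟩ := isolated hN hC hGH hCH
  apply (seq n).2.2
  refine (Set.finite_singleton H).subset ?_
  intro H' hH'
  exact (hn H' ((seq n).2.1 hH').1 ((seq n).2.1 hH').2 (hH n H' hH')).symm

end Pool.Agent.Lib.ThC

end
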