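import Pool.Agent.Lib.MP_f9507c_lc.Mg.G001

section

/-! # M5a: Sauer-Shelah for a finite family of sets -/

set_option autoImplicit false

namespace Pool.Agent.Lib.ThC

private theorem M5a_sum_choose_le (n d : ℕ) : ∑ k ∈ Finset.Iic d, n.choose k ≤ (n + 1) ^ d := by
  have h0 : (Finset.Iic d : Finset ℕ) = Finset.range (d + 1) := by
    ext k
    simp
  rw [h0]
  induction d with
  | zero => simp
  | succ d ih =>
    have h1 : (Finset.Iic d : Finset ℕ) = Finset.range (d + 1) := by
      ext k
      simp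
    rw [Finset.sum_range_succ]
    have h2 := ih h1
    have h3 : n.choose (d + 1) ≤ n ^ (d + 1) := Nat.choose_le_pow n (d + 1)
    have h4 : n ^ (d + 1) ≤ n * (n + 1) ^ d := by
      rw [pow_succ, mul_comm]
      exact Nat.mul_le_mul_left n (Nat.pow_le_pow_left (Nat.le_succ n) d)
    calc ∑ x ∈ Finset.range (d + 1), n.choose x + n.choose (d + 1)
        ≤ (n + 1) ^ d + n * (n + 1) ^ d := Nat.add_le_add h2 (h3.trans h4)
      _ = (n + 1) ^ (d + 1) := by ring

/-- Sauer-Shelah: if no `s` of the sets `t i` are independent (shattered), then there are at most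
`(card I + 1) ^ s` patterns.  Apply `Finset.card_le_card_shatterer`,
`Finset.card_shatterer_le_sum_vcDim` to the family of all `{i | z ∈ t i}`, `z : Z`, and
`∑ i ∈ range (d + 1), n.choose i ≤ (n + 1) ^ d` (here `d < s`; for `s = 0` the hypothesis says that
`Z` is empty). -/
theorem sauer_shelah {Z I : Type} [Fintype I] [DecidableEq I] (t : I → Set Z) (s : ℕ)
    (h : ∀ S : Finset I, S.card = s → ¬ ∀ S' ⊆ S, ∃ z : Z, ∀ i ∈ S, i ∈ S' ↔ z ∈ t i) :
    ∃ F : Finset Z, F.card ≤ (Fintype.card I + 1) ^ s ∧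
      ∀ z : Z, ∃ f ∈ F, ∀ i, z ∈ t i ↔ f ∈ t i := by
  classical
  set A : Finset (Finset I) :=
    Finset.univ.filter (fun T : Finset I => ∃ z : Z, ∀ i, i ∈ T ↔ z ∈ t i) with hA
  -- the pattern of `z`
  have hpat : ∀ z : Z, (Finset.univ.filter (fun i => z ∈ t i)) ∈ A := by
    intro z
    rw [hA, Finset.mem_filter]
    exact ⟨Finset.mem_univ _, z, fun i => by simp⟩
  have hAc : ∀ T : A, ∃ z : Z, ∀ i, i ∈ T.1 ↔ z ∈ t i := by
    intro T
    exact (Finset.mem_filter.mp T.2).2
  choose ζ hζ using hAc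
  -- every shattered set is smaller than `s`
  have hsh : ∀ S : Finset I, A.Shatters S → S.card < s := by
    intro S hS
    by_contra hcon
    obtain ⟨S₀, hS₀, hcard⟩ := Finset.exists_subset_card_eq (not_lt.mp hcon)
    have hS' := hS.mono_right hS₀
    refine h S₀ hcard ?_
    intro S' hS'sub
    obtain ⟨u, hu, hu'⟩ := hS' hS'sub
    refine ⟨ζ ⟨u, hu⟩, ?_⟩
    intro i hi
    rw [← hζ ⟨u, hu⟩ i, ← hu', Finset.mem_inter]
    exact ⟨fun h => h.2, fun h => ⟨hi, h⟩⟩
  refine ⟨Finset.univ.image ζ, ?_, ?_⟩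
  · refine (Finset.card_image_le).trans ?_
    rw [Finset.card_univ, Fintype.card_coe]
    rcases Finset.eq_empty_or_nonempty A with hAe | hAn
    · rw [hAe]; simp
    have hs0 : 0 < s := by
      have h1 : A.Shatters ∅ := by
        rw [Finset.shatters_empty]
        exact hAn
      exact lt_of_le_of_lt (Nat.zero_le _) (hsh ∅ h1)
    have hvc : A.vcDim < s := by
      unfold Finset.vcDim
      rw [Finset.sup_lt_iff hs0]
      intro S hS
      exact hsh S (Finset.mem_shatterer.mp hS)
    calc A.card ≤ A.shatterer.card := Finset.card_le_card_shatterer A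
      _ ≤ ∑ k ∈ Finset.Iic A.vcDim, (Fintype.card I).choose k := Finset.card_shatterer_le_sum_vcDim
      _ ≤ (Fintype.card I + 1) ^ A.vcDim := M5a_sum_choose_le _ _
      _ ≤ (Fintype.card I + 1) ^ s := Nat.pow_le_pow_right (Nat.succ_pos _) hvc.le
  · intro z
    refine ⟨ζ ⟨_, hpat z⟩, Finset.mem_image.mpr ⟨_, Finset.mem_univ _, rfl⟩, ?_⟩
    intro i
    rw [← hζ ⟨_, hpat z⟩ i]
    simp

end Pool.Agent.Lib.ThC

end

section

/-! # M5b: shattered sets of tests -/

set_option autoImplicit false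
open scoped Pointwise

namespace Pool.Agent.Lib.ThC

variable {Ω Γ : Type} [Group Γ] [MulAction Γ Ω] {l k : ℕ}

/-- a shattered set of `s` tests shows that the 2-rank is at least `s`: more generally for
every `X` with `∀ S' ⊆ S, ∃ z ∈ X, ∀ i ∈ S, i ∈ S' ↔ z ∈ t i`, by induction on `S`. -/
theorem T2GE_of_shatter {I : Type} [DecidableEq I] (a o : I → Fin l → Ω)
    (f : I → Fin l → Fin l ⊕ Fin k) (S : Finset I) (X : Set (Fin k → Ω))
    (h : ∀ S' ⊆ S, ∃ z ∈ X, ∀ i ∈ S, i ∈ S' ↔ z ∈ tst Γ (a i) (o i) (f i)) :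
    T2GE Γ l S.card X := by
  induction S using Finset.induction_on generalizing X with
  | empty =>
    obtain ⟨z, hz, _⟩ := h ∅ (Finset.Subset.refl _)
    exact ⟨z, hz⟩
  | insert i S hi ih =>
    rw [Finset.card_insert_of_notMem hi]
    refine ⟨a i, o i, f i, ih _ ?_, ih _ ?_⟩
    · intro S' hS'
      obtain ⟨z, hz, hz'⟩ := h (insert i S') (Finset.insert_subset_insert i hS')
      refine ⟨z, ⟨hz, (hz' i (Finset.mem_insert_self i S)).mp (Finset.mem_insert_self i S')⟩, ?_⟩
      intro j hj
      rw [← hz' j (Finset.mem_insert_of_mem hj), Finset.mem_insert]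
      have hne : j ≠ i := fun h => hi (h ▸ hj)
      exact ⟨Or.inr, fun h => h.resolve_left hne⟩
    · intro S' hS'
      obtain ⟨z, hz, hz'⟩ := h S' (hS'.trans (Finset.subset_insert i S))
      refine ⟨z, ⟨hz, ?_⟩, ?_⟩
      · intro hzi
        exact hi (hS' ((hz' i (Finset.mem_insert_self i S)).mpr hzi))
      · intro j hj
        exact hz' j (Finset.mem_insert_of_mem hj)

end Pool.Agent.Lib.ThC

end

section

/-! # M5c: polynomially many orbits on tuples over finite sets -/

set_option autoImplicit false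
open scoped Pointwise

namespace Pool.Agent.Lib.ThC

variable {Ω Γ : Type} [Group Γ] [MulAction Γ Ω] {l k : ℕ}

/-- (N5) for nonempty `B`.  `I = (Fin l → B) × Rep × (Fin l → Fin l ⊕ Fin k)` with `Rep` a finite
set of representatives of the orbits on `Fin l → Ω` (`FO`), `card I = B.card ^ l * c`.  By
`sauer_shelah` and `T2GE_of_shatter` there is `F` with `F.card ≤ (card I + 1) ^ s ≤
(c + 1) ^ s * B.card ^ (l * s)`; if `z`, `f` are in the same tests with parameters in `B` then they
are conjugate over `B` by `exists_sep_tst` (`tst_congr` to pass to a representative `o`). -/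
theorem poly_aux (hO : ∀ n : ℕ, FO Γ (Fin n → Ω)) (hFH : FH Ω Γ l) {s : ℕ}
    (hs : ¬ T2GE Γ l s (Set.univ : Set (Fin k → Ω))) :
    ∃ C d : ℕ, ∀ B : Finset Ω, B.Nonempty → ∃ F : Finset (Fin k → Ω), F.card ≤ C * B.card ^ d ∧
      ∀ z : Fin k → Ω, ∃ f ∈ F, ∃ g : Γ, (∀ b ∈ B, g • b = b) ∧ g • f = z := by
  classical
  obtain ⟨R, hR⟩ := hO l
  let c : ℕ := R.card * Fintype.card (Fin l → Fin l ⊕ Fin k)
  refine ⟨(c + 1) ^ s, l * s, ?_⟩
  intro B hB
  have hBc : 1 ≤ B.card := Finset.card_pos.mpr hB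
  let I : Type := (Fin l → B) × R × (Fin l → Fin l ⊕ Fin k)
  let t : I → Set (Fin k → Ω) := fun i => tst Γ (fun j => ((i.1 j : B) : Ω)) i.2.1.1 i.2.2
  have hcard : Fintype.card I = B.card ^ l * c := by
    simp only [I, Fintype.card_prod, Fintype.card_coe, c]
    rw [Fintype.card_fun, Fintype.card_coe, Fintype.card_fin]
  obtain ⟨F, hF, hF'⟩ := sauer_shelah t s (by
    intro S hS hcon
    apply hs
    rw [← hS]
    refine T2GE_of_shatter (fun i : I => fun j => ((i.1 j : B) : Ω)) (fun i : I => i.2.1.1)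
      (fun i : I => i.2.2) S Set.univ ?_
    intro S' hS'
    obtain ⟨z, hz⟩ := hcon S' hS'
    exact ⟨z, Set.mem_univ _, hz⟩)
  refine ⟨F, ?_, ?_⟩
  · refine hF.trans ?_
    rw [hcard]
    have h1 : B.card ^ l * c + 1 ≤ (c + 1) * B.card ^ l := by
      have h2 : 1 ≤ B.card ^ l := Nat.one_le_pow _ _ hBc
      nlinarith
    calc (B.card ^ l * c + 1) ^ s ≤ ((c + 1) * B.card ^ l) ^ s := Nat.pow_le_pow_left h1 s
      _ = (c + 1) ^ s * B.card ^ (l * s) := by rw [mul_pow, ← pow_mul]
  · intro z
    obtain ⟨f, hf, hft⟩ := hF' z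
    refine ⟨f, hf, ?_⟩
    by_contra hcon
    obtain ⟨a, o, f', ha, h1, h2⟩ := exists_sep_tst hFH hB hcon
    obtain ⟨r, hr, g, hg⟩ := hR o
    rw [← hg, tst_congr] at h1 h2
    exact h2 ((hft ((fun j => ⟨a j, ha j⟩, ⟨r, hr⟩, f') : I)).mpr h1)

end Pool.Agent.Lib.ThC

end

section

/-! # M5d: polynomially many orbits over finite sets -/

set_option autoImplicit false
open scoped Pointwise

namespace Pool.Agent.Lib.ThC

variable {Ω Γ : Type} [Group Γ] [MulAction Γ Ω] {l k : ℕ}

/-- (N5).  `k = 1` in `poly_aux`, transfer along `(Fin 1 → Ω) ≃ Ω`; `Ω` empty is trivial; for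
`B` empty use `{ω}`. -/
theorem poly_of_fh (hO : ∀ n : ℕ, FO Γ (Fin n → Ω)) (hFH : FH Ω Γ l) {s : ℕ}
    (hs : ¬ T2GE Γ l s (Set.univ : Set (Fin 1 → Ω))) :
    ∃ C d : ℕ, ∀ B : Finset Ω, ∃ F : Finset Ω, F.card ≤ C * (B.card + 1) ^ d ∧
      ∀ z : Ω, ∃ f ∈ F, ∃ g : Γ, (∀ b ∈ B, g • b = b) ∧ g • f = z := by
  classical
  obtain ⟨C, d, hCd⟩ := poly_aux hO hFH hs
  refine ⟨C, d, ?_⟩
  intro B
  rcases isEmpty_or_nonempty Ω with hΩ | ⟨⟨ω⟩⟩
  · exact ⟨∅, by simp, fun z => (hΩ.false z).elim⟩
  obtain ⟨F, hF, hF'⟩ := hCd (insert ω B) (Finset.insert_nonempty ω B)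
  refine ⟨F.image (fun x => x 0), ?_, ?_⟩
  · refine (Finset.card_image_le.trans hF).trans ?_
    exact Nat.mul_le_mul_left C (Nat.pow_le_pow_left (Finset.card_insert_le ω B) d)
  · intro z
    obtain ⟨f, hf, g, hg, hgf⟩ := hF' (fun _ => z)
    refine ⟨f 0, Finset.mem_image.mpr ⟨f, hf, rfl⟩, g, ?_, ?_⟩
    · intro b hb
      exact hg b (Finset.mem_insert_of_mem hb)
    · have h := congrFun hgf 0
      exact h

end Pool.Agent.Lib.ThC

end

section

/-! # M5: finitely homogeneous with countably many 1-types implies `Nice` -/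

set_option autoImplicit false
open scoped Pointwise

namespace Pool.Agent.Lib.ThC

/-- end of M-I. -/
theorem nice_of_fh {Ω Γ : Type} [Group Γ] [MulAction Γ Ω] [Countable Ω] {l : ℕ}
    (hFO : FO Γ (Fin l → Ω)) (hFH : FH Ω Γ l) (h1 : Countable (Tp Ω Γ (Fin 1 → Ω))) :
    Nice Ω Γ := by
  have hO : ∀ n : ℕ, FO Γ (Fin n → Ω) := fun n => olig_of_fh hFO hFH n
  obtain ⟨s, hs⟩ := exists_not_T2GE hO h1 l 1
  exact ⟨hO, fun n => fr_of_fh hO hFH h1 n, poly_of_fh hO hFH hs⟩

end Pool.Agent.Lib.ThC

end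

section

/-! # M6: the automorphism group of a relational structure (definitions) -/

set_option autoImplicit false
open scoped Pointwise
open FirstOrder

namespace Pool.Agent.Lib.ThC

/-- the automorphism group of a relational structure, as a group of permutations. -/
def autG (L : FirstOrder.Language.{0, 0}) (M : Type) [L.Structure M] :
    Subgroup (Equiv.Perm M) where
  carrier := {σ | ∀ (n : ℕ) (R : L.Relations n) (x : Fin n → M),
    Language.Structure.RelMap R (σ ∘ x) ↔ Language.Structure.RelMap R x}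
  mul_mem' := by
    intro σ τ hσ hτ n R x
    have : ((σ * τ : Equiv.Perm M) ∘ x : Fin n → M) = σ ∘ (τ ∘ x) := rfl
    rw [this, hσ, hτ]
  one_mem' := by
    intro n R x
    exact Iff.rfl
  inv_mem' := by
    intro σ hσ n R x
    have h := hσ n R ((σ⁻¹ : Equiv.Perm M) ∘ x)
    have e : (σ ∘ ((σ⁻¹ : Equiv.Perm M) ∘ x) : Fin n → M) = x := by
      funext i
      simp
    rw [e] at h
    exact h.symm

theorem mem_autG {L : FirstOrder.Language.{0, 0}} {M : Type} [L.Structure M]
    {σ : Equiv.Perm M} : σ ∈ autG L M ↔ ∀ (n : ℕ) (R : L.Relations n) (x : Fin n → M),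
    Language.Structure.RelMap R (σ ∘ x) ↔ Language.Structure.RelMap R x := Iff.rfl

/-- two tuples in the same `∅`-definable sets. -/
def EqTp (L : FirstOrder.Language.{0, 0}) {M : Type} [L.Structure M] {n : ℕ}
    (x y : Fin n → M) : Prop :=
  ∀ s : Set (Fin n → M), (∅ : Set M).Definable L s → (x ∈ s ↔ y ∈ s)

end Pool.Agent.Lib.ThC

end

section

/-! # M6a: automorphisms -/

set_option autoImplicit false
open scoped Pointwise
open FirstOrder

namespace Pool.Agent.Lib.ThC

variable {L : FirstOrder.Language.{0, 0}} {M : Type} [L.Structure M]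

/-- (O1) relations are finitary. -/
theorem cpl_autG (L : FirstOrder.Language.{0, 0}) (M : Type) [L.Structure M] :
    Cpl M ↥(autG L M) := by
  intro σ hσ
  classical
  have hm : σ ∈ autG L M := by
    intro n R x
    obtain ⟨g, hg⟩ := hσ (Finset.univ.image x)
    have e : (σ ∘ x : Fin n → M) = (g : Equiv.Perm M) ∘ x := by
      funext i
      exact (hg (x i) (Finset.mem_image_of_mem _ (Finset.mem_univ _))).symm
    rw [e]
    exact g.2 n R x
  exact ⟨⟨σ, hm⟩, fun a => rfl⟩

theorem exists_lequiv [L.IsRelational] {σ : Equiv.Perm M} (hσ : σ ∈ autG L M) :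
    ∃ f : M ≃[L] M, ∀ x, f x = σ x := by
  exact ⟨{ toEquiv := σ
           map_fun' := fun {n} f _ => isEmptyElim f
           map_rel' := fun {n} R x => hσ n R x }, fun x => rfl⟩

theorem toEquiv_mem_autG (f : M ≃[L] M) : f.toEquiv ∈ autG L M := by
  intro n R x
  exact f.map_rel' R x

/-- `∅`-definable sets are invariant (`empty_definable_iff`, `exists_lequiv`,
`Language.StrongHomClass.realize_formula` or similar). -/
theorem definable_inv [L.IsRelational] {n : ℕ} {s : Set (Fin n → M)}
    (hs : (∅ : Set M).Definable L s) {σ : Equiv.Perm M} (hσ : σ ∈ autG L M) (x : Fin n → M) :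
    σ ∘ x ∈ s ↔ x ∈ s := by
  rw [Set.empty_definable_iff] at hs
  obtain ⟨φ, rfl⟩ := hs
  obtain ⟨f, hf⟩ := exists_lequiv hσ
  have e : (σ ∘ x : Fin n → M) = f ∘ x := by
    funext i
    exact (hf (x i)).symm
  rw [e]
  exact Language.StrongHomClass.realize_formula f φ

/-- sets definable with parameters are `Df`: by `definable_iff_finitely_definable` the parameters
are in a finite set `A₀`; `definable_iff_exists_formula_sum` and automorphisms fixing `A₀`
pointwise. -/
theorem df_of_definable [L.IsRelational] {n : ℕ} {s : Set (Fin n → M)}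
    (hs : (Set.univ : Set M).Definable L s) : Df M ↥(autG L M) s := by
  rw [Set.definable_iff_finitely_definable] at hs
  obtain ⟨A, -, hA⟩ := hs
  rw [Set.definable_iff_exists_formula_sum] at hA
  obtain ⟨φ, rfl⟩ := hA
  refine ⟨A, fun g hg => ?_⟩
  have key : ∀ v : Fin n → M, g • v ∈ {v | φ.Realize (Sum.elim (fun a : ↥(A : Set M) => (a : M)) v)} ↔
      v ∈ {v | φ.Realize (Sum.elim (fun a : ↥(A : Set M) => (a : M)) v)} := by
    intro v
    obtain ⟨f, hf⟩ := exists_lequiv g.2
    have e : (Sum.elim (fun a : ↥(A : Set M) => (a : M)) (g • v) : ↥(A : Set M) ⊕ Fin n → M) =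
        f ∘ Sum.elim (fun a : ↥(A : Set M) => (a : M)) v := by
      funext i
      rcases i with a | i
      · exact ((hf a).trans (hg a a.2)).symm
      · exact (hf (v i)).symm
    show φ.Realize _ ↔ φ.Realize _
    rw [e]
    exact Language.StrongHomClass.realize_formula f φ
  rw [MulAction.mem_stabilizer_iff]
  ext v
  rw [Set.mem_smul_set_iff_inv_smul_mem]
  have := key (g⁻¹ • v)
  rw [smul_inv_smul] at this
  exact this.symm

end Pool.Agent.Lib.ThC

end

section

/-! # M6b: ultrahomogeneity in terms of the automorphism group -/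

set_option autoImplicit false
open scoped Pointwise
open FirstOrder

namespace Pool.Agent.Lib.ThC

variable {L : FirstOrder.Language.{0, 0}} {M : Type} [L.Structure M]

/-- tuples with the same atomic type are conjugate.  Take `S` with carrier `Set.range x` (closed
because `L` is relational), the embedding `x i ↦ y i` of `S` in `M`, extend it to `M ≃[L] M`. -/
theorem exists_aut_of_atomic [L.IsRelational] (h : L.IsUltrahomogeneous M) {k : ℕ}
    (x y : Fin k → M) (heq : ∀ i j, x i = x j ↔ y i = y j)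
    (hrel : ∀ (n : ℕ) (R : L.Relations n) (u : Fin n → Fin k),
      Language.Structure.RelMap R (x ∘ u) ↔ Language.Structure.RelMap R (y ∘ u)) :
    ∃ g : ↥(autG L M), g • x = y := by
  classical
  have hidx : ∀ s : ↥(Language.Substructure.closure L (Set.range x)), ∃ i, x i = s := by
    intro s
    exact (Language.Substructure.mem_closure_iff_of_isRelational L (Set.range x) _).1 s.2
  choose ix hix using hidx
  have hfg : (Language.Substructure.closure L (Set.range x)).FG :=
    Language.Substructure.fg_closure (Set.finite_range x)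
  let f : ↥(Language.Substructure.closure L (Set.range x)) ↪[L] M :=
    { toFun := fun s => y (ix s)
      inj' := by
        intro s t hst
        have h1 : x (ix s) = x (ix t) := (heq _ _).2 hst
        rw [hix, hix] at h1
        exact Subtype.ext h1
      map_fun' := fun {n} f _ => isEmptyElim f
      map_rel' := by
        intro n R v
        have h1 := hrel n R (fun i => ix (v i))
        have e : (x ∘ fun i => ix (v i) : Fin n → M) = (fun i => (v i : M)) := by
          funext i
          exact hix (v i)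
        rw [e] at h1
        exact h1.symm }
  obtain ⟨g, hg⟩ := h _ hfg f
  refine ⟨⟨g.toEquiv, toEquiv_mem_autG g⟩, ?_⟩
  funext i
  have hmem : x i ∈ Language.Substructure.closure L (Set.range x) :=
    (Language.Substructure.mem_closure_iff_of_isRelational L (Set.range x) _).2 ⟨i, rfl⟩
  have h1 : f ⟨x i, hmem⟩ = g (x i) := by
    rw [hg]
    rfl
  have h2 : f ⟨x i, hmem⟩ = y i := (heq _ _).1 (hix ⟨x i, hmem⟩)
  show g (x i) = y i
  rw [← h1, h2]

end Pool.Agent.Lib.ThC

end

section

/-! # M6c: an ultrahomogeneous structure in a finite relational language: FO and FH -/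

set_option autoImplicit false
open scoped Pointwise
open FirstOrder

namespace Pool.Agent.Lib.ThC

variable {L : FirstOrder.Language.{0, 0}} {M : Type} [L.Structure M]

/-- (O2) finitely many atomic diagrams (`fo_of_map`). -/
theorem fo_autG [L.IsRelational] [Finite (Σ n, L.Relations n)] (h : L.IsUltrahomogeneous M)
    (k : ℕ) : FO ↥(autG L M) (Fin k → M) := by
  refine fo_of_map (κ := (Fin k → Fin k → Prop) ×
    ((r : Σ n, L.Relations n) → (Fin r.1 → Fin k) → Prop))
    (fun x => (fun i j => x i = x j,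
      fun r u => Language.Structure.RelMap r.2 (x ∘ u))) ?_
  intro z z' hz
  simp only [Prod.mk.injEq] at hz
  obtain ⟨h1, h2⟩ := hz
  refine exists_aut_of_atomic h z z' ?_ ?_
  · intro i j
    exact iff_of_eq (congrFun (congrFun h1 i) j)
  · intro n R u
    exact iff_of_eq (congrFun (congrFun h2 ⟨n, R⟩) u)

/-- (O2) `l = max 2 (maximal arity)`. -/
theorem fh_autG [L.IsRelational] [Finite (Σ n, L.Relations n)] (h : L.IsUltrahomogeneous M) :
    ∃ l : ℕ, FH M ↥(autG L M) l := by
  obtain ⟨N, hN⟩ := (Set.finite_range (fun r : Σ n, L.Relations n => r.1)).bddAbove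
  have hN' : ∀ (n : ℕ) (_ : L.Relations n), n ≤ N := fun n R => hN ⟨⟨n, R⟩, rfl⟩
  refine ⟨max 2 N, ?_⟩
  intro k x y hxy
  refine exists_aut_of_atomic h x y ?_ ?_
  · intro i j
    obtain ⟨g, hg⟩ := hxy (fun a => if a.1 = 0 then i else j)
    have h0 := congrFun hg ⟨0, by omega⟩
    have h1 := congrFun hg ⟨1, by omega⟩
    simp only [Pi.smul_apply, Function.comp, if_true, one_ne_zero, if_false] at h0 h1
    rw [← h0, ← h1]
    exact ⟨fun e => by rw [e], fun e => MulAction.injective g e⟩
  · intro n R u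
    rcases Nat.eq_zero_or_pos k with hk | hk
    · subst hk
      have : x = y := funext fun i => i.elim0
      rw [this]
    · have hn := hN' n R
      obtain ⟨g, hg⟩ := hxy (fun a => if ha : a.1 < n then u ⟨a.1, ha⟩ else ⟨0, hk⟩)
      have e : y ∘ u = (g : Equiv.Perm M) ∘ (x ∘ u) := by
        funext i
        have := congrFun hg ⟨i.1, by omega⟩
        simp only [Pi.smul_apply, Function.comp, i.2, dite_true] at this
        exact this.symm
      rw [e]
      exact (g.2 n R (x ∘ u)).symm

end Pool.Agent.Lib.ThC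

end
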