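import Pool.Agent.Lib.MP_f9507c_lc.P24

section

/-! # M7a: back and forth -/

set_option autoImplicit false

namespace Pool.Agent.Lib.ThC

/-- states of the back and forth construction. -/
structure M7a_St {M : Type} (E : ∀ n : ℕ, (Fin n → M) → (Fin n → M) → Prop) where
  n : ℕ
  x : Fin n → M
  y : Fin n → M
  h : E n x y

instance M7a_pre {M : Type} (E : ∀ n : ℕ, (Fin n → M) → (Fin n → M) → Prop) :
    Preorder (M7a_St E) where
  le s t := ∃ f : Fin s.n → Fin t.n, t.x ∘ f = s.x ∧ t.y ∘ f = s.y
  le_refl s := ⟨id, rfl, rfl⟩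
  le_trans s t r := by
    rintro ⟨f, hf, hf'⟩ ⟨g, hg, hg'⟩
    exact ⟨g ∘ f, by rw [← Function.comp_assoc, hg, hf],
      by rw [← Function.comp_assoc, hg', hf']⟩

theorem M7a_seq {M : Type} [Countable M]
    (E : ∀ n : ℕ, (Fin n → M) → (Fin n → M) → Prop)
    (hsymm : ∀ n x y, E n x y → E n y x)
    (hext : ∀ n x y, E n x y → ∀ a : M, ∃ b : M,
      E (n + 1) (Fin.snoc (α := fun _ => M) x a) (Fin.snoc (α := fun _ => M) y b))
    (p : M7a_St E) :
    ∃ s : ℕ → M7a_St E, Monotone s ∧ s 0 = p ∧ (∀ a, ∃ N, a ∈ Set.range (s N).x) ∧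
      ∀ b, ∃ N, b ∈ Set.range (s N).y := by
  classical
  let _ : Encodable M := Encodable.ofCountable M
  let D : M ⊕ M → Order.Cofinal (M7a_St E) := fun c =>
    match c with
    | Sum.inl a =>
      { carrier := {t | a ∈ Set.range t.x}
        isCofinal := by
          intro s
          obtain ⟨b, hb⟩ := hext s.n s.x s.y s.h a
          refine ⟨⟨s.n + 1, _, _, hb⟩, ⟨Fin.last s.n, by simp⟩, Fin.castSucc, ?_, ?_⟩
          · funext i; simp
          · funext i; simp }
    | Sum.inr a =>
      { carrier := {t | a ∈ Set.range t.y}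
        isCofinal := by
          intro s
          obtain ⟨b, hb⟩ := hext s.n s.y s.x (hsymm _ _ _ s.h) a
          refine ⟨⟨s.n + 1, _, _, hsymm _ _ _ hb⟩, ⟨Fin.last s.n, by simp⟩, Fin.castSucc, ?_, ?_⟩
          · funext i; simp
          · funext i; simp }
  refine ⟨Order.sequenceOfCofinals p D, Order.sequenceOfCofinals.monotone p D, rfl, ?_, ?_⟩
  · intro a
    exact ⟨_, Order.sequenceOfCofinals.encode_mem p D (Sum.inl a)⟩
  · intro a
    exact ⟨_, Order.sequenceOfCofinals.encode_mem p D (Sum.inr a)⟩

/-- back and forth for a countable set.  `E n x y` says that the finite partial map `x i ↦ y i` is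
allowed.  Build an increasing sequence of allowed pairs `(x, y)` starting with the given one and
adding the elements of `M` alternately to the first and the second tuple. -/
theorem exists_perm_of_back_forth {M : Type} [Countable M]
    (E : ∀ n : ℕ, (Fin n → M) → (Fin n → M) → Prop)
    (hsymm : ∀ n x y, E n x y → E n y x)
    (hinj : ∀ n x y, E n x y → ∀ i j, x i = x j → y i = y j)
    (hext : ∀ n x y, E n x y → ∀ a : M, ∃ b : M,
      E (n + 1) (Fin.snoc (α := fun _ => M) x a) (Fin.snoc (α := fun _ => M) y b))
    {n : ℕ} {x y : Fin n → M} (h : E n x y) :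
    ∃ σ : Equiv.Perm M, (∀ i, σ (x i) = y i) ∧
      ∀ (m : ℕ) (u : Fin m → M), ∃ (k : ℕ) (x' y' : Fin k → M) (f : Fin m → Fin k),
        E k x' y' ∧ x' ∘ f = u ∧ y' ∘ f = σ ∘ u := by
  classical
  obtain ⟨s, hmono, hs0, hdom, hcod⟩ := M7a_seq E hsymm hext ⟨n, x, y, h⟩
  -- values agree
  have key : ∀ N N' (i : Fin (s N).n) (i' : Fin (s N').n),
      (s N).x i = (s N').x i' → (s N).y i = (s N').y i' := by
    intro N N' i i' hii
    obtain ⟨f, hf, hf'⟩ := hmono (le_max_left N N')
    obtain ⟨g, hg, hg'⟩ := hmono (le_max_right N N')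
    have h1 : (s (max N N')).x (f i) = (s (max N N')).x (g i') := by
      have a1 := congrFun hf i
      have a2 := congrFun hg i'
      simp only [Function.comp] at a1 a2
      rw [a1, a2, hii]
    have h2 := hinj _ _ _ (s (max N N')).h _ _ h1
    have a1 := congrFun hf' i
    have a2 := congrFun hg' i'
    simp only [Function.comp] at a1 a2
    rw [← a1, ← a2, h2]
  have key' : ∀ N N' (i : Fin (s N).n) (i' : Fin (s N').n),
      (s N).y i = (s N').y i' → (s N).x i = (s N').x i' := by
    intro N N' i i' hii
    obtain ⟨f, hf, hf'⟩ := hmono (le_max_left N N')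
    obtain ⟨g, hg, hg'⟩ := hmono (le_max_right N N')
    have h1 : (s (max N N')).y (f i) = (s (max N N')).y (g i') := by
      have a1 := congrFun hf' i
      have a2 := congrFun hg' i'
      simp only [Function.comp] at a1 a2
      rw [a1, a2, hii]
    have h2 := hinj _ _ _ (hsymm _ _ _ (s (max N N')).h) _ _ h1
    have a1 := congrFun hf i
    have a2 := congrFun hg i'
    simp only [Function.comp] at a1 a2
    rw [← a1, ← a2, h2]
  choose dN di hdi using hdom
  let φ : M → M := fun a => (s (dN a)).y (di a)
  have hφ : ∀ N (i : Fin (s N).n), φ ((s N).x i) = (s N).y i := fun N i =>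
    key _ _ _ _ (hdi _)
  have hbij : Function.Bijective φ := by
    constructor
    · intro a b hab
      have := key' _ _ _ _ hab
      rwa [hdi a, hdi b] at this
    · intro b
      obtain ⟨N, i, hi⟩ := hcod b
      exact ⟨(s N).x i, by rw [hφ, hi]⟩
  refine ⟨Equiv.ofBijective φ hbij, ?_, ?_⟩
  · intro i
    have := hφ 0
    rw [hs0] at this
    exact this i
  · intro m u
    let N := Finset.univ.sup (fun i : Fin m => dN (u i))
    have hN : ∀ i : Fin m, ∃ j : Fin (s N).n, (s N).x j = u i := by
      intro i
      obtain ⟨f, hf, -⟩ := hmono (show dN (u i) ≤ N from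
        Finset.le_sup (f := fun i : Fin m => dN (u i)) (Finset.mem_univ i))
      refine ⟨f (di (u i)), ?_⟩
      have := congrFun hf (di (u i))
      simp only [Function.comp] at this
      rw [this, hdi]
    choose j hj using hN
    refine ⟨(s N).n, (s N).x, (s N).y, j, (s N).h, funext hj, ?_⟩
    funext i
    have := hφ N (j i)
    rw [hj i] at this
    simp only [Function.comp, Equiv.ofBijective_apply]
    exact this.symm

end Pool.Agent.Lib.ThC

end

section

/-! # M7b: types over the empty set in an oligomorphic structure are isolated -/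

set_option autoImplicit false
open scoped Pointwise
open FirstOrder

namespace Pool.Agent.Lib.ThC

variable {L : FirstOrder.Language.{0, 0}} {M : Type} [L.Structure M]

/-- a definable set is determined by the orbit representatives it contains (`definable_inv`). -/
theorem finite_definable [L.IsRelational] {n : ℕ} (hO : FO ↥(autG L M) (Fin n → M)) :
    {s : Set (Fin n → M) | (∅ : Set M).Definable L s}.Finite := by
  classical
  obtain ⟨F, hF⟩ := hO
  refine Set.Finite.of_injOn (f := fun s : Set (Fin n → M) => F.filter (fun z => z ∈ s))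
    (t := ((F.powerset : Finset (Finset (Fin n → M))) : Set (Finset (Fin n → M)))) ?_ ?_
    (Finset.finite_toSet _)
  · intro s _
    exact Finset.mem_coe.2 (Finset.mem_powerset.2 (Finset.filter_subset _ _))
  · intro s hs t ht hst
    ext z
    obtain ⟨f, hf, g, rfl⟩ := hF z
    have hs' := definable_inv hs g.2 f
    have ht' := definable_inv ht g.2 f
    have : f ∈ F.filter (fun z => z ∈ s) ↔ f ∈ F.filter (fun z => z ∈ t) := by
      simp only at hst
      rw [hst]
    simp only [Finset.mem_filter, hf, true_and] at this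
    exact hs'.trans (this.trans ht'.symm)

/-- the intersection of the finitely many definable sets containing `x`. -/
theorem exists_isolating [L.IsRelational] {n : ℕ} (hO : FO ↥(autG L M) (Fin n → M))
    (x : Fin n → M) :
    ∃ s : Set (Fin n → M), (∅ : Set M).Definable L s ∧ ∀ y, y ∈ s ↔ EqTp L x y := by
  classical
  have hfin := finite_definable (L := L) (M := M) hO
  have : Finite {s : Set (Fin n → M) // (∅ : Set M).Definable L s ∧ x ∈ s} :=
    (hfin.subset (fun s (hs : (∅ : Set M).Definable L s ∧ x ∈ s) => hs.1)).to_subtype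
  refine ⟨⋂ s : {s : Set (Fin n → M) // (∅ : Set M).Definable L s ∧ x ∈ s}, s.1,
    Set.definable_iInter_of_finite fun s => s.2.1, fun y => ?_⟩
  rw [Set.mem_iInter]
  constructor
  · intro h s hs
    constructor
    · intro hx
      exact h ⟨s, hs, hx⟩
    · intro hy
      by_contra hx
      exact h ⟨sᶜ, hs.compl, hx⟩ hy
  · intro h s
    exact (h s.1 s.2.1).1 s.2.2

theorem eqTp_symm {n : ℕ} {x y : Fin n → M} (h : EqTp L x y) : EqTp L y x := by
  intro s hs
  exact (h s hs).symm

/-- the diagonal `{x | x i = x j}` is definable. -/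
theorem eqTp_inj {n : ℕ} {x y : Fin n → M} (h : EqTp L x y) (i j : Fin n)
    (hij : x i = x j) : y i = y j := by
  have hd : (∅ : Set M).Definable L {z : Fin n → M | z i = z j} := by
    rw [Set.empty_definable_iff]
    refine ⟨(Language.Term.var i).equal (Language.Term.var j), ?_⟩
    ext z
    simp
  exact (h _ hd).1 hij

/-- the projection of the isolating set of `Fin.snoc x a` is definable
(`Set.Definable.image_comp_embedding` or `Set.Definable.image_comp` for `Fin.castSucc`). -/
theorem eqTp_ext [L.IsRelational] {n : ℕ} (hO : FO ↥(autG L M) (Fin (n + 1) → M))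
    {x y : Fin n → M} (h : EqTp L x y) (a : M) :
    ∃ b : M, EqTp L (Fin.snoc (α := fun _ => M) x a) (Fin.snoc (α := fun _ => M) y b) := by
  obtain ⟨r, hr, hr'⟩ := exists_isolating hO (Fin.snoc (α := fun _ => M) x a)
  have hd := hr.image_comp (Fin.castSucc : Fin n → Fin (n + 1))
  have hx : x ∈ (fun g : Fin (n + 1) → M => g ∘ Fin.castSucc) '' r := by
    refine ⟨Fin.snoc (α := fun _ => M) x a, (hr' _).2 (fun s _ => Iff.rfl), ?_⟩
    funext i
    simp
  obtain ⟨w, hw, hwy⟩ := (h _ hd).1 hx
  refine ⟨w (Fin.last n), ?_⟩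
  have e : (Fin.snoc (α := fun _ => M) y (w (Fin.last n)) : Fin (n + 1) → M) = w := by
    rw [← hwy]
    funext i
    refine Fin.lastCases ?_ (fun i => ?_) i
    · simp
    · simp
  rw [e]
  exact (hr' w).1 hw

end Pool.Agent.Lib.ThC

end

section

/-! # M7c: in a countable oligomorphic structure the definable sets are the invariant sets -/

set_option autoImplicit false
open scoped Pointwise
open FirstOrder

namespace Pool.Agent.Lib.ThC

variable {L : FirstOrder.Language.{0, 0}} {M : Type} [L.Structure M]

private theorem M7c_rel {m k : ℕ} (R : L.Relations m) (f : Fin m → Fin k) :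
    (∅ : Set M).Definable L {z : Fin k → M | Language.Structure.RelMap R (z ∘ f)} := by
  rw [Set.empty_definable_iff]
  refine ⟨R.formula (fun i => Language.Term.var (f i)), ?_⟩
  ext z
  exact (Language.Formula.realize_rel (L := L) (M := M) (R := R)
    (ts := fun i => Language.Term.var (f i)) (v := z)).symm

/-- `exists_perm_of_back_forth` for `E n x y := EqTp L x y`; the permutation preserves the
relations because `{z : Fin k → M | RelMap R (z ∘ f)}` is definable. -/
theorem eqTp_conj [L.IsRelational] [Countable M]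
    (hO : ∀ n : ℕ, FO ↥(autG L M) (Fin n → M)) {n : ℕ} {x y : Fin n → M} (h : EqTp L x y) :
    ∃ σ ∈ autG L M, ∀ i, σ (x i) = y i := by
  obtain ⟨σ, h1, h2⟩ := exists_perm_of_back_forth (M := M)
    (fun n (x y : Fin n → M) => EqTp L x y) (fun n x y h => eqTp_symm h)
    (fun n x y h i j hij => eqTp_inj h i j hij) (fun n x y h a => eqTp_ext (hO (n + 1)) h a) h
  refine ⟨σ, ?_, h1⟩
  rw [mem_autG]
  intro m R u
  obtain ⟨k, x', y', f, hE, hx, hy⟩ := h2 m u
  have := hE _ (M7c_rel R f)
  rw [Set.mem_ofPred_eq, Set.mem_ofPred_eq, hx, hy] at this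
  exact this.symm

/-- (Ryll-Nardzewski)  `→` is `definable_inv`.  `←`: `s` is a union of isolating sets
(`exists_isolating`, `eqTp_conj`), and there are only finitely many definable sets
(`finite_definable`). -/
theorem definable_iff_inv [L.IsRelational] [Countable M]
    (hO : ∀ n : ℕ, FO ↥(autG L M) (Fin n → M)) {n : ℕ} (s : Set (Fin n → M)) :
    (∅ : Set M).Definable L s ↔ ∀ σ ∈ autG L M, ∀ x : Fin n → M, σ ∘ x ∈ s ↔ x ∈ s := by
  classical
  constructor
  · intro hs σ hσ x
    exact definable_inv hs hσ x
  · intro hs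
    have hfin : {t : Set (Fin n → M) | (∅ : Set M).Definable L t ∧ t ⊆ s}.Finite :=
      (finite_definable (L := L) (hO n)).subset (fun t ht => ht.1)
    have hU : s = ⋃ t ∈ hfin.toFinset, t := by
      ext x
      simp only [Set.mem_iUnion, Set.Finite.mem_toFinset, Set.mem_ofPred_eq, exists_prop]
      constructor
      · intro hx
        obtain ⟨t, ht, hiso⟩ := exists_isolating (hO n) x
        refine ⟨t, ⟨ht, fun y hy => ?_⟩, (hiso x).2 (fun _ _ => Iff.rfl)⟩
        obtain ⟨σ, hσ, hσx⟩ := eqTp_conj hO ((hiso y).1 hy)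
        have e : σ ∘ x = y := funext hσx
        rw [← e]
        exact (hs σ hσ x).2 hx
      · rintro ⟨t, ⟨-, ht⟩, hx⟩
        exact ht hx
    rw [hU]
    have key : ∀ F : Finset (Set (Fin n → M)), (∀ t ∈ F, (∅ : Set M).Definable L t) →
        (∅ : Set M).Definable L (⋃ t ∈ F, t) := by
      intro F
      induction F using Finset.induction_on with
      | empty => intro _; simp
      | insert t F ht ih =>
        intro hF
        rw [Finset.set_biUnion_insert]
        exact (hF t (Finset.mem_insert_self _ _)).union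
          (ih (fun u hu => hF u (Finset.mem_insert_of_mem hu)))
    apply key
    intro t ht
    rw [Set.Finite.mem_toFinset] at ht
    exact ht.1

end Pool.Agent.Lib.ThC

end

section

/-! # M8a: `Df` sets are definable with parameters -/

set_option autoImplicit false
open scoped Pointwise
open FirstOrder

namespace Pool.Agent.Lib.ThC

variable {L : FirstOrder.Language.{0, 0}} {M : Type} [L.Structure M]

/-- a fiber of a `∅`-definable set is definable with the parameters `a`
(`empty_definable_iff`, relabel the formula, `definable_iff_exists_formula_sum`). -/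
theorem definable_fiber {m k : ℕ} {r : Set (Fin (m + k) → M)}
    (hr : (∅ : Set M).Definable L r) (a : Fin m → M) :
    (Set.range a).Definable L {z : Fin k → M | Fin.append a z ∈ r} := by
  rw [Set.empty_definable_iff] at hr
  obtain ⟨φ, rfl⟩ := hr
  rw [Set.definable_iff_exists_formula_sum]
  refine ⟨φ.relabel (Fin.addCases (fun i => Sum.inl ⟨a i, Set.mem_range_self i⟩)
    (fun j => Sum.inr j)), ?_⟩
  ext z
  show φ.Realize (Fin.append a z) ↔ _
  rw [Set.mem_ofPred_eq, Language.Formula.realize_relabel]
  have e : Fin.append a z = (Sum.elim (fun a : ↥(Set.range a) => (a : M)) z ∘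
      (Fin.addCases (fun i => Sum.inl ⟨a i, Set.mem_range_self i⟩) (fun j => Sum.inr j) :
        Fin (m + k) → ↥(Set.range a) ⊕ Fin k)) := by
    funext i
    refine Fin.addCases (fun i => ?_) (fun i => ?_) i
    · simp
    · simp
  rw [e]

/-- (O3)  `A` a finite set such that `s` is invariant under its pointwise stabiliser, `a` an
enumeration of `A`, `r := {Fin.append (g • a) (g • z) | g, z ∈ s}` is invariant, hence definable
(`definable_iff_inv`), and `s` is its fiber over `a`. -/
theorem definable_of_df [L.IsRelational] [Countable M]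
    (hO : ∀ n : ℕ, FO ↥(autG L M) (Fin n → M)) {k : ℕ} {s : Set (Fin k → M)}
    (hs : Df M ↥(autG L M) s) : (Set.univ : Set M).Definable L s := by
  classical
  obtain ⟨A, hA⟩ := hs
  let a : Fin A.card → M := fun i => (A.equivFin.symm i : M)
  have ha : ∀ b ∈ A, ∃ i, a i = b := by
    intro b hb
    exact ⟨A.equivFin ⟨b, hb⟩, by simp [a]⟩
  have happ : ∀ (σ : Equiv.Perm M) (u : Fin A.card → M) (v : Fin k → M),
      (σ ∘ Fin.append u v : Fin (A.card + k) → M) = Fin.append (σ ∘ u) (σ ∘ v) := by
    intro σ u v
    funext i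
    refine Fin.addCases (fun i => ?_) (fun i => ?_) i
    · simp
    · simp
  let r : Set (Fin (A.card + k) → M) :=
    {w | ∃ g ∈ autG L M, ∃ z ∈ s, w = Fin.append (g ∘ a) (g ∘ z)}
  have hr1 : ∀ σ ∈ autG L M, ∀ w ∈ r, σ ∘ w ∈ r := by
    rintro σ hσ w ⟨g, hg, z, hz, rfl⟩
    refine ⟨σ * g, mul_mem hσ hg, z, hz, ?_⟩
    rw [happ]
    rfl
  have hr : (∅ : Set M).Definable L r := by
    rw [definable_iff_inv hO]
    intro σ hσ w
    constructor
    · intro h
      have := hr1 σ⁻¹ (inv_mem hσ) _ h
      have e : ((σ⁻¹ : Equiv.Perm M) ∘ (σ ∘ w) : Fin (A.card + k) → M) = w := by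
        funext i; simp
      rwa [e] at this
    · exact hr1 σ hσ w
  have hd := (definable_fiber hr a).mono (Set.subset_univ _)
  have e : {z : Fin k → M | Fin.append a z ∈ r} = s := by
    ext z
    constructor
    · rintro ⟨g, hg, z', hz', h⟩
      have h1 : ∀ i, a i = g (a i) := by
        intro i
        have := congrFun h (Fin.castAdd k i)
        simpa using this
      have h2 : z = g ∘ z' := by
        funext i
        have := congrFun h (Fin.natAdd A.card i)
        simpa using this
      have h3 : (⟨g, hg⟩ : ↥(autG L M)) ∈ st ↥(autG L M) s := by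
        refine hA _ (fun b hb => ?_)
        obtain ⟨i, rfl⟩ := ha b hb
        exact (h1 i).symm
      rw [MulAction.mem_stabilizer_iff] at h3
      rw [← h3, h2]
      exact Set.smul_mem_smul_set (a := (⟨g, hg⟩ : ↥(autG L M))) hz'
    · intro hz
      exact ⟨1, one_mem _, z, hz, rfl⟩
  rwa [e] at hd

end Pool.Agent.Lib.ThC

end

section

/-! # M9a: an ultrafilter of definable sets gives a complete type -/

set_option autoImplicit false
open FirstOrder FirstOrder.Language

namespace Pool.Agent.Lib.ThC

/-- `toTheory := {φ | {x | (Formula.equivSentence.symm φ).Realize x} ∈ 𝒰}`.  It is finitely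
satisfiable: finitely many sets in `𝒰` have a common point `x`, interpret the new constant by `x`
(`Formula.realize_equivSentence_symm`), then `Theory.isSatisfiable_iff_isFinitelySatisfiable`.
(`M` is nonempty because `univ ∈ 𝒰` and `∅ ∉ 𝒰`.) -/
theorem exists_completeType (L : FirstOrder.Language.{0, 0}) (M : Type) [L.Structure M]
    (𝒰 : Set (Set (Fin 1 → M))) (huniv : Set.univ ∈ 𝒰)
    (hinter : ∀ X ∈ 𝒰, ∀ Y ∈ 𝒰, X ∩ Y ∈ 𝒰) (hne : ∅ ∉ 𝒰)
    (hult : ∀ φ : L.Formula (Fin 1), {x : Fin 1 → M | φ.Realize x} ∈ 𝒰 ∨
      {x : Fin 1 → M | φ.Realize x}ᶜ ∈ 𝒰) :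
    ∃ c : (L.completeTheory M).CompleteType (Fin 1), ∀ φ : L.Formula (Fin 1),
      Formula.equivSentence φ ∈ c ↔ {x : Fin 1 → M | φ.Realize x} ∈ 𝒰 := by
  classical
  have hnem : (Set.univ : Set (Fin 1 → M)).Nonempty := by
    rw [Set.nonempty_iff_ne_empty]
    intro h
    exact hne (h ▸ huniv)
  have hM : Nonempty M := ⟨hnem.some 0⟩
  let T : Set (L[[Fin 1]].Sentence) :=
    {φ | {x : Fin 1 → M | (Formula.equivSentence.symm φ).Realize x} ∈ 𝒰}
  have hfin : ∀ T₀ : Finset (L[[Fin 1]].Sentence), (T₀ : Set _) ⊆ T →
      {x : Fin 1 → M | ∀ φ ∈ T₀, (Formula.equivSentence.symm φ).Realize x} ∈ 𝒰 := by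
    intro T₀
    induction T₀ using Finset.induction_on with
    | empty =>
      intro _
      have : {x : Fin 1 → M | ∀ φ ∈ (∅ : Finset (L[[Fin 1]].Sentence)),
          (Formula.equivSentence.symm φ).Realize x} = Set.univ := by
        ext x; simp
      rw [this]
      exact huniv
    | insert a s ha ih =>
      intro h
      have h1 := ih (fun φ hφ => h (by simp at hφ ⊢; exact Or.inr hφ))
      have h2 : a ∈ T := h (by simp)
      have : {x : Fin 1 → M | ∀ φ ∈ insert a s, (Formula.equivSentence.symm φ).Realize x} =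
          {x : Fin 1 → M | (Formula.equivSentence.symm a).Realize x} ∩
          {x : Fin 1 → M | ∀ φ ∈ s, (Formula.equivSentence.symm φ).Realize x} := by
        ext x; simp
      rw [this]
      exact hinter _ h2 _ h1
  have hsat : Theory.IsSatisfiable (T : L[[Fin 1]].Theory) := by
    rw [Theory.isSatisfiable_iff_isFinitelySatisfiable]
    intro T₀ hT₀
    have h1 := hfin T₀ hT₀
    have h2 : {x : Fin 1 → M | ∀ φ ∈ T₀, (Formula.equivSentence.symm φ).Realize x}.Nonempty := by
      rw [Set.nonempty_iff_ne_empty]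
      intro h
      exact hne (h ▸ h1)
    obtain ⟨x, hx⟩ := h2
    let _ := constantsOn.structure x
    have hmod : M ⊨ ((T₀ : Set (L[[Fin 1]].Sentence)) : L[[Fin 1]].Theory) := by
      refine ⟨fun φ hφ => ?_⟩
      exact (Formula.realize_equivSentence_symm M φ x).1 (hx φ (by simpa using hφ))
    exact Theory.Model.isSatisfiable M
  have hmax : Theory.IsMaximal (T : L[[Fin 1]].Theory) := by
    refine ⟨hsat, fun φ => ?_⟩
    rcases hult (Formula.equivSentence.symm φ) with h | h
    · exact Or.inl h
    · right
      show {x : Fin 1 → M | (Formula.equivSentence.symm φ.not).Realize x} ∈ 𝒰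
      convert h using 1
      ext x
      let _ := constantsOn.structure x
      have h1 := Formula.realize_equivSentence_symm M φ x
      have h2 := Formula.realize_equivSentence_symm M φ.not x
      rw [Set.mem_compl_iff]
      show (Formula.equivSentence.symm φ.not).Realize x ↔ ¬ (Formula.equivSentence.symm φ).Realize x
      rw [h1, h2]
      exact Sentence.realize_not M
  refine ⟨⟨T, ?_, hmax⟩, fun φ => ?_⟩
  · rintro _ ⟨φ, hφ, rfl⟩
    show {x : Fin 1 → M | (Formula.equivSentence.symm _).Realize x} ∈ 𝒰
    convert huniv using 1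
    ext x
    simp only [Set.mem_univ, iff_true]
    let _ := constantsOn.structure x
    exact (Formula.realize_equivSentence_symm M _ x).2
      ((LHom.realize_onSentence M (L.lhomWithConstants (Fin 1)) φ).2 hφ)
  · show {x : Fin 1 → M | (Formula.equivSentence.symm (Formula.equivSentence φ)).Realize x} ∈ 𝒰 ↔ _
    rw [Equiv.symm_apply_apply]

end Pool.Agent.Lib.ThC

end

section

/-! # M9b: countably many types -/

set_option autoImplicit false
open scoped Pointwise
open FirstOrder FirstOrder.Language

namespace Pool.Agent.Lib.ThC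

variable {L : FirstOrder.Language.{0, 0}} {M : Type} [L.Structure M]

/-- (O4) map `p` to the complete type of `exists_completeType` for `p.s` and the language
`L.withConstants univ` (`df_of_definable`); this is injective by `definable_of_df` and
`tp_eq_of_le`. -/
theorem countable_tp_of_completeType [L.IsRelational] [Countable M]
    (hO : ∀ n : ℕ, FO ↥(autG L M) (Fin n → M))
    (h : Countable (Theory.CompleteType
      ((L.withConstants ↥(Set.univ : Set M)).completeTheory M) (Fin 1))) :
    Countable (Tp M ↥(autG L M) (Fin 1 → M)) := by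
  have key : ∀ p : Tp M ↥(autG L M) (Fin 1 → M), ∃ c : Theory.CompleteType
      ((L.withConstants ↥(Set.univ : Set M)).completeTheory M) (Fin 1),
      ∀ φ : (L.withConstants ↥(Set.univ : Set M)).Formula (Fin 1),
      Formula.equivSentence φ ∈ c ↔ {x : Fin 1 → M | φ.Realize x} ∈ p.s := by
    intro p
    refine exists_completeType (L.withConstants ↥(Set.univ : Set M)) M p.s p.univ p.inter p.ne ?_
    intro φ
    exact p.ult _ (df_of_definable ⟨φ, rfl⟩)
  choose c hc using key
  refine Function.Injective.countable (f := c) ?_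
  intro p q hpq
  refine tp_eq_of_le (fun X hX => ?_)
  obtain ⟨φ, rfl⟩ := definable_of_df hO (p.df X hX)
  have h1 := (hc p φ).2 hX
  rw [hpq] at h1
  exact (hc q φ).1 h1

end Pool.Agent.Lib.ThC

end

section

/-! # M10: from the group theorem to Thomas's conjecture in the omega-stable case -/

set_option autoImplicit false
open FirstOrder FirstOrder.Language

namespace Pool.Agent.Lib.ThC

/-- if a smaller group has finitely many orbits, so has a bigger one. -/
theorem fo_of_le {M : Type} {G H : Subgroup (Equiv.Perm M)} (hGH : G ≤ H) {n : ℕ}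
    (h : FO ↥G (Fin n → M)) : FO ↥H (Fin n → M) := by
  obtain ⟨F, hF⟩ := h
  refine ⟨F, fun z => ?_⟩
  obtain ⟨f, hf, g, hg⟩ := hF z
  exact ⟨f, hf, ⟨g.1, hGH g.2⟩, hg⟩

theorem thomas_of_group
    (hgroup : ∀ (Ω : Type) [Countable Ω] (G : Subgroup (Equiv.Perm Ω)), Nice Ω ↥G → Cpl Ω ↥G →
        {H : Subgroup (Equiv.Perm Ω) | G ≤ H ∧ Cpl Ω ↥H}.Finite) :
    ∀ (L : FirstOrder.Language.{0, 0}) [L.IsRelational] [Finite (Σ n, L.Relations n)]
      (M : Type) [Countable M] [L.Structure M],
      L.IsUltrahomogeneous M →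
      (∀ (N : Type) [L.Structure N], N ⊨ L.completeTheory M →
        ∀ A : Set N, A.Countable →
          Countable (FirstOrder.Language.Theory.CompleteType
            ((L.withConstants ↥A).completeTheory N) (Fin 1))) →
      Set.Finite {D : (n : ℕ) → Set (Set (Fin n → M)) |
        ∃ F : (n : ℕ) → Set (Set (Fin n → M)),
          (∀ n, F n ⊆ {s : Set (Fin n → M) | Set.Definable (∅ : Set M) L s}) ∧
          ∃ S : (FirstOrder.Language.mk (fun _ => Empty) (fun k => ↥(F k))).Structure M,
            (∀ (k : ℕ) (r : ↥(F k)) (x : Fin k → M),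
                @FirstOrder.Language.Structure.RelMap
                  (FirstOrder.Language.mk (fun _ => Empty) (fun k => ↥(F k))) M S k r x
                  ↔ x ∈ r.1) ∧
            ∀ n, D n = {s : Set (Fin n → M) |
              @Set.Definable M (∅ : Set M)
                (FirstOrder.Language.mk (fun _ => Empty) (fun k => ↥(F k))) S (Fin n) s}} := by
  intro L _ _ M _ _ hU hst
  have hO : ∀ n : ℕ, FO ↥(autG L M) (Fin n → M) := fun n => fo_autG hU n
  obtain ⟨l, hl⟩ := fh_autG (L := L) (M := M) hU
  have hct := hst M inferInstance Set.univ Set.countable_univ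
  have h1 := countable_tp_of_completeType hO hct
  have hN : Nice M ↥(autG L M) := nice_of_fh (hO l) hl h1
  have hfin := hgroup M (autG L M) hN (cpl_autG L M)
  refine (hfin.image (fun (H : Subgroup (Equiv.Perm M)) (n : ℕ) => {s : Set (Fin n → M) |
    ∀ σ ∈ H, ∀ x : Fin n → M, σ ∘ x ∈ s ↔ x ∈ s})).subset ?_
  rintro D ⟨F, hF, S, hS, hD⟩
  haveI : (FirstOrder.Language.mk (fun _ => Empty) (fun k => ↥(F k)) :
      FirstOrder.Language.{0, 0}).IsRelational := fun _ => inferInstanceAs (IsEmpty Empty)
  have hle : autG L M ≤ @autG (FirstOrder.Language.mk (fun _ => Empty) (fun k => ↥(F k))) M S := by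
    intro σ hσ n R x
    rw [hS, hS]
    exact definable_inv (hF n R.2) hσ x
  refine ⟨@autG (FirstOrder.Language.mk (fun _ => Empty) (fun k => ↥(F k))) M S,
    ⟨hle, @cpl_autG _ M S⟩, ?_⟩
  funext n
  rw [hD n]
  ext s
  exact (@definable_iff_inv _ M S _ _ (fun n => fo_of_le hle (hO n)) n s).symm

end Pool.Agent.Lib.ThC

end
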